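import Pool.Agent.Lib.MP_a7c449_an.Range.Defs
import Pool.Agent.Lib.MP_a7c449_an.C0

/-! The space `c_0` absorbs finite dimensional spaces. -/

set_option autoImplicit false
set_option maxSynthPendingDepth 3

namespace Pool.Agent.Lib.MP_a7c449_an.Range

open scoped ZeroAtInfty

/-- prepend a number to a null sequence -/
private noncomputable def consC0 (z : C₀(ℕ, ℂ)) (w : ℂ) : C₀(ℕ, ℂ) :=
  ⟨⟨fun n => Nat.casesOn n w fun m => z m, continuous_of_discreteTopology⟩, by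
    rw [Filter.cocompact_eq_cofinite, Nat.cofinite_eq_atTop]
    refine (Filter.tendsto_add_atTop_iff_nat 1).1 ?_
    exact c0_tendsto z⟩

/-- the shifted sequence -/
private noncomputable def tailC0 (z : C₀(ℕ, ℂ)) : C₀(ℕ, ℂ) :=
  ⟨⟨fun n => z (n + 1), continuous_of_discreteTopology⟩, by
    rw [Filter.cocompact_eq_cofinite, Nat.cofinite_eq_atTop]
    exact (Filter.tendsto_add_atTop_iff_nat 1).2 (c0_tendsto z)⟩

private theorem consC0_zero (z : C₀(ℕ, ℂ)) (w : ℂ) : consC0 z w 0 = w := rfl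

private theorem consC0_succ (z : C₀(ℕ, ℂ)) (w : ℂ) (n : ℕ) : consC0 z w (n + 1) = z n := rfl

private theorem tailC0_apply (z : C₀(ℕ, ℂ)) (n : ℕ) : tailC0 z n = z (n + 1) := rfl

/-- the linear equivalence -/
private noncomputable def absorbL : (C₀(ℕ, ℂ) × ℂ) ≃ₗ[ℂ] C₀(ℕ, ℂ) where
  toFun p := consC0 p.1 p.2
  map_add' p q := by
    ext n
    cases n with
    | zero => rfl
    | succ n => rfl
  map_smul' c p := by
    ext n
    cases n with
    | zero => rfl
    | succ n => rfl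
  invFun x := (tailC0 x, x 0)
  left_inv p := by
    refine Prod.ext ?_ rfl
    ext n
    rfl
  right_inv x := by
    ext n
    cases n with
    | zero => rfl
    | succ n => rfl

/-- `(z, w) ↦ (w, z 0, z 1, ...)` is a linear isometry of `C₀(ℕ, ℂ) × ℂ` onto `C₀(ℕ, ℂ)`. -/
theorem c0_absorb : Nonempty ((C₀(ℕ, ℂ) × ℂ) ≃L[ℂ] C₀(ℕ, ℂ)) := by
  refine ⟨absorbL.toContinuousLinearEquivOfBounds 1 1 ?_ ?_⟩
  · intro p
    rw [one_mul]
    refine c0_norm_le _ _ (norm_nonneg _) fun n => ?_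
    cases n with
    | zero => exact norm_snd_le p
    | succ n => exact (norm_coord_le p.1 n).trans (norm_fst_le p)
  · intro x
    rw [one_mul]
    refine norm_prod_le_iff.2 ⟨?_, norm_coord_le x 0⟩
    exact c0_norm_le _ _ (norm_nonneg _) fun n => norm_coord_le x (n + 1)

private theorem absorb_pi (n : ℕ) : Nonempty ((C₀(ℕ, ℂ) × (Fin n → ℂ)) ≃L[ℂ] C₀(ℕ, ℂ)) := by
  induction n with
  | zero =>
    refine ⟨ContinuousLinearEquiv.equivOfInverse (ContinuousLinearMap.fst ℂ _ _)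
      (ContinuousLinearMap.inl ℂ _ _) ?_ ?_⟩
    · intro p
      refine Prod.ext rfl ?_
      exact Subsingleton.elim _ _
    · intro x
      rfl
  | succ n ih =>
    obtain ⟨e⟩ := ih
    obtain ⟨a⟩ := c0_absorb
    have c : (ℂ × (Fin n → ℂ)) ≃L[ℂ] (Fin (n + 1) → ℂ) := Fin.consEquivL ℂ (fun _ => ℂ)
    exact ⟨(((ContinuousLinearEquiv.refl ℂ (C₀(ℕ, ℂ))).prodCongr c.symm).trans
      (ContinuousLinearEquiv.prodAssoc ℂ _ _ _).symm).trans
      ((a.prodCongr (ContinuousLinearEquiv.refl ℂ _)).trans e)⟩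

/-- Choose a basis of `E`; `c0_absorb` repeatedly (`E` is linearly homeomorphic to `Fin n → ℂ`; induction on `n`). -/
theorem c0_absorb_fd (E : Type*) [NormedAddCommGroup E] [NormedSpace ℂ E] [FiniteDimensional ℂ E] :
    Nonempty ((C₀(ℕ, ℂ) × E) ≃L[ℂ] C₀(ℕ, ℂ)) := by
  obtain ⟨e⟩ := absorb_pi (Module.finrank ℂ E)
  have c : E ≃L[ℂ] (Fin (Module.finrank ℂ E) → ℂ) :=
    ContinuousLinearEquiv.ofFinrankEq (by simp)
  exact ⟨((ContinuousLinearEquiv.refl ℂ (C₀(ℕ, ℂ))).prodCongr c).trans e⟩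

end Pool.Agent.Lib.MP_a7c449_an.Range
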