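import Pool.Agent.Lib.MP_a7c449_an.Range.C0Two
import Pool.Agent.Lib.MP_a7c449_an.Range.C0
import Pool.Agent.Lib.MP_a7c449_an.SobC

/-! Separable spaces containing `c_0` absorb `c_0` and finite dimensional spaces. -/

set_option autoImplicit false
set_option maxSynthPendingDepth 3

namespace Pool.Agent.Lib.MP_a7c449_an.Range

open scoped ZeroAtInfty

/-- `z ↦ (R z, z - j (R z))`, with `W` the kernel of `R` from `sobczyk`. -/
theorem exists_split {Z : Type*} [NormedAddCommGroup Z] [NormedSpace ℂ Z] [TopologicalSpace.SeparableSpace Z]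
    (j : C₀(ℕ, ℂ) →L[ℂ] Z) (c : ℝ) (hc : 0 < c) (hj : ∀ z, c * ‖z‖ ≤ ‖j z‖) :
    ∃ W : Submodule ℂ Z, Nonempty (Z ≃L[ℂ] (C₀(ℕ, ℂ) × W)) := by
  obtain ⟨R, hR⟩ := sobczyk j c hc hj
  refine ⟨LinearMap.ker (R : Z →ₗ[ℂ] C₀(ℕ, ℂ)), ⟨ContinuousLinearEquiv.equivOfInverse
    (R.prod ((ContinuousLinearMap.id ℂ Z - j.comp R).codRestrict _ ?_))
    ((j.comp (ContinuousLinearMap.fst ℂ _ _)) +
      ((Submodule.subtypeL _).comp (ContinuousLinearMap.snd ℂ _ _))) ?_ ?_⟩⟩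
  · intro z
    rw [LinearMap.mem_ker]
    change R (z - j (R z)) = 0
    rw [map_sub, hR, sub_self]
  · intro z
    change j (R z) + (z - j (R z)) = z
    abel
  · rintro ⟨x, w, hw⟩
    rw [LinearMap.mem_ker] at hw
    have hw' : R w = 0 := hw
    have h1 : R (j x + w) = x := by rw [map_add, hR, hw', add_zero]
    refine Prod.ext h1 (Subtype.ext ?_)
    change (j x + w) - j (R (j x + w)) = w
    rw [h1]
    abel

/-- `exists_split`, `c0_two`, `c0_absorb_fd`: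
`(c_0 × Y) × E ≃ (c_0 × (c_0 × W)) × E ≃ ((c_0 × c_0) × E) × W ≃ (c_0 × E) × W ≃ c_0 × W ≃ Z`. -/
theorem absorb {Z Y E : Type*} [NormedAddCommGroup Z] [NormedSpace ℂ Z] [TopologicalSpace.SeparableSpace Z]
    [NormedAddCommGroup Y] [NormedSpace ℂ Y] [NormedAddCommGroup E] [NormedSpace ℂ E] [FiniteDimensional ℂ E]
    (j : C₀(ℕ, ℂ) →L[ℂ] Z) (c : ℝ) (hc : 0 < c) (hj : ∀ z, c * ‖z‖ ≤ ‖j z‖) (T : Y ≃L[ℂ] Z) :
    Nonempty (((C₀(ℕ, ℂ) × Y) × E) ≃L[ℂ] Z) := by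
  obtain ⟨W, ⟨S⟩⟩ := exists_split j c hc hj
  obtain ⟨A⟩ := c0_two
  obtain ⟨B⟩ := c0_absorb_fd (Fin (Module.finrank ℂ E) → ℂ)
  have F : E ≃L[ℂ] (Fin (Module.finrank ℂ E) → ℂ) :=
    ContinuousLinearEquiv.ofFinrankEq (by simp)
  have B' : (C₀(ℕ, ℂ) × E) ≃L[ℂ] C₀(ℕ, ℂ) :=
    ((ContinuousLinearEquiv.refl ℂ (C₀(ℕ, ℂ))).prodCongr F).trans B
  -- `c_0 × Y ≃ c_0 × W`
  have e1 : (C₀(ℕ, ℂ) × Y) ≃L[ℂ] (C₀(ℕ, ℂ) × W) :=
    (((ContinuousLinearEquiv.refl ℂ (C₀(ℕ, ℂ))).prodCongr (T.trans S)).trans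
      (ContinuousLinearEquiv.prodAssoc ℂ _ _ _).symm).trans
      (A.prodCongr (ContinuousLinearEquiv.refl ℂ W))
  -- `(c_0 × W) × E ≃ c_0 × W`
  have e2 : ((C₀(ℕ, ℂ) × W) × E) ≃L[ℂ] (C₀(ℕ, ℂ) × W) :=
    ((((ContinuousLinearEquiv.prodComm ℂ _ _).prodCongr (ContinuousLinearEquiv.refl ℂ E)).trans
      (ContinuousLinearEquiv.prodAssoc ℂ _ _ _)).trans
      ((ContinuousLinearEquiv.refl ℂ W).prodCongr B')).trans
      (ContinuousLinearEquiv.prodComm ℂ _ _)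
  exact ⟨((e1.prodCongr (ContinuousLinearEquiv.refl ℂ E)).trans e2).trans S.symm⟩

end Pool.Agent.Lib.MP_a7c449_an.Range
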