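import Pool.Agent.Lib.MP_a7c449_an.Range.Defs
import Pool.Agent.Lib.MP_a7c449_an.Index

/-! Elementary properties of `polyNorm`, `numRadius` and `numIndex`. -/

set_option autoImplicit false
set_option maxSynthPendingDepth 3

namespace Pool.Agent.Lib.MP_a7c449_an.Range

variable {X : Type*} [NormedAddCommGroup X] [NormedSpace ℂ X] {k : ℕ}

/-- `ContinuousMultilinearMap.map_smul_univ`. -/
theorem apply_smul (A : X [×k]→L[ℂ] X) (c : ℂ) (x : X) :
    (A fun _ => c • x) = c ^ k • A fun _ => x := by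
  have h := A.map_smul_univ (fun _ => c) (fun _ => x)
  simpa using h

/-- The set is bounded above by the norm of `A`. -/
theorem le_polyNorm (A : X [×k]→L[ℂ] X) {x : X} (hx : ‖x‖ ≤ 1) : ‖A fun _ => x‖ ≤ polyNorm ℂ X A := by
  exact le_csSup (MP_a7c449_an.polyNorm_bdd A) ⟨x, hx, rfl⟩

theorem polyNorm_nonneg (A : X [×k]→L[ℂ] X) : 0 ≤ polyNorm ℂ X A := by
  exact MP_a7c449_an.polyNorm_nonneg A

theorem polyNorm_le (A : X [×k]→L[ℂ] X) {M : ℝ} (h : ∀ x : X, ‖x‖ ≤ 1 → ‖A fun _ => x‖ ≤ M) :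
    polyNorm ℂ X A ≤ M := by
  exact MP_a7c449_an.polyNorm_le A M h

/-- Homogeneity (`x = 0` separately: `A 0 = 0` if `k ≠ 0`). -/
theorem norm_apply_le (A : X [×k]→L[ℂ] X) (x : X) : ‖A fun _ => x‖ ≤ polyNorm ℂ X A * ‖x‖ ^ k := by
  exact MP_a7c449_an.norm_poly_le A x

theorem polyNorm_smul (c : ℂ) (A : X [×k]→L[ℂ] X) : polyNorm ℂ X (c • A) = ‖c‖ * polyNorm ℂ X A := by
  have key : ∀ (c : ℂ) (A : X [×k]→L[ℂ] X), polyNorm ℂ X (c • A) ≤ ‖c‖ * polyNorm ℂ X A := by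
    intro c A
    refine polyNorm_le _ fun x hx => ?_
    rw [_root_.smul_apply, norm_smul]
    exact mul_le_mul_of_nonneg_left (le_polyNorm A hx) (norm_nonneg _)
  refine le_antisymm (key c A) ?_
  by_cases hc : c = 0
  · subst hc
    rw [norm_zero, zero_mul]
    exact polyNorm_nonneg _
  · have h1 := key c⁻¹ (c • A)
    rw [smul_smul, inv_mul_cancel₀ hc, one_smul, norm_inv] at h1
    have h2 : 0 < ‖c‖ := norm_pos_iff.2 hc
    rwa [← div_eq_inv_mul, le_div_iff₀ h2, mul_comm] at h1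

/-- The set is bounded above by the norm of `A`. -/
theorem le_numRadius (A : X [×k]→L[ℂ] X) {x : X} {f : StrongDual ℂ X} (hx : ‖x‖ = 1) (hf : ‖f‖ = 1)
    (hfx : f x = 1) : ‖f (A fun _ => x)‖ ≤ numRadius ℂ X A := by
  exact MP_a7c449_an.le_numRadius A x f hx hf hfx

theorem numRadius_nonneg (A : X [×k]→L[ℂ] X) : 0 ≤ numRadius ℂ X A := by
  exact MP_a7c449_an.numRadius_nonneg A

theorem numRadius_le (A : X [×k]→L[ℂ] X) {M : ℝ} (hM : 0 ≤ M)
    (h : ∀ (x : X) (f : StrongDual ℂ X), ‖x‖ = 1 → ‖f‖ = 1 → f x = 1 → ‖f (A fun _ => x)‖ ≤ M) :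
    numRadius ℂ X A ≤ M := by
  exact MP_a7c449_an.numRadius_le A M hM h

theorem exists_state (A : X [×k]→L[ℂ] X) {c : ℝ} (hc : 0 ≤ c) (h : c < numRadius ℂ X A) :
    ∃ (x : X) (f : StrongDual ℂ X), ‖x‖ = 1 ∧ ‖f‖ = 1 ∧ f x = 1 ∧ c < ‖f (A fun _ => x)‖ := by
  by_contra hcon
  push Not at hcon
  exact absurd (numRadius_le A hc hcon) (not_le.2 h)

theorem numRadius_le_polyNorm (A : X [×k]→L[ℂ] X) : numRadius ℂ X A ≤ polyNorm ℂ X A := by
  exact MP_a7c449_an.numRadius_le_polyNorm A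

theorem numRadius_smul (c : ℂ) (A : X [×k]→L[ℂ] X) : numRadius ℂ X (c • A) = ‖c‖ * numRadius ℂ X A := by
  have key : ∀ (c : ℂ) (A : X [×k]→L[ℂ] X), numRadius ℂ X (c • A) ≤ ‖c‖ * numRadius ℂ X A := by
    intro c A
    refine numRadius_le _ (mul_nonneg (norm_nonneg _) (numRadius_nonneg A)) fun x f hx hf hfx => ?_
    rw [_root_.smul_apply, map_smul, norm_smul]
    exact mul_le_mul_of_nonneg_left (le_numRadius A hx hf hfx) (norm_nonneg _)
  refine le_antisymm (key c A) ?_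
  by_cases hc : c = 0
  · subst hc
    rw [norm_zero, zero_mul]
    exact numRadius_nonneg _
  · have h1 := key c⁻¹ (c • A)
    rw [smul_smul, inv_mul_cancel₀ hc, one_smul, norm_inv] at h1
    have h2 : 0 < ‖c‖ := norm_pos_iff.2 hc
    rwa [← div_eq_inv_mul, le_div_iff₀ h2, mul_comm] at h1

/-- Homogeneity (the state `(x/‖x‖, f)`). -/
theorem num_le (A : X [×k]→L[ℂ] X) {x : X} {f : StrongDual ℂ X} (hx : x ≠ 0) (hf : ‖f‖ = 1)
    (hfx : f x = ((‖x‖ : ℝ) : ℂ)) : ‖f (A fun _ => x)‖ ≤ numRadius ℂ X A * ‖x‖ ^ k := by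
  have hn : 0 < ‖x‖ := norm_pos_iff.2 hx
  have h1 := le_numRadius A (x := ((‖x‖⁻¹ : ℝ) : ℂ) • x) (f := f) (by
    rw [norm_smul, Complex.norm_real, Real.norm_eq_abs, abs_of_pos (inv_pos.2 hn),
      inv_mul_cancel₀ hn.ne']) hf (by
    rw [map_smul, hfx, smul_eq_mul, ← Complex.ofReal_mul, inv_mul_cancel₀ hn.ne',
      Complex.ofReal_one])
  rw [apply_smul, map_smul, norm_smul, norm_pow, Complex.norm_real, Real.norm_eq_abs,
    abs_of_pos (inv_pos.2 hn), inv_pow] at h1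
  rwa [inv_mul_le_iff₀ (by positivity), mul_comm] at h1

theorem numIndex_nonneg : 0 ≤ numIndex ℂ X k := by
  exact MP_a7c449_an.numIndex_nonneg k

/-- Scale (`polyNorm A = 0` separately). -/
theorem numIndex_mul_le (A : X [×k]→L[ℂ] X) : numIndex ℂ X k * polyNorm ℂ X A ≤ numRadius ℂ X A := by
  rcases (polyNorm_nonneg A).eq_or_lt with h0 | h0
  · rw [← h0, mul_zero]
    exact numRadius_nonneg A
  · have h1 : polyNorm ℂ X ((((polyNorm ℂ X A)⁻¹ : ℝ) : ℂ) • A) = 1 := by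
      rw [polyNorm_smul, Complex.norm_real, Real.norm_eq_abs, abs_of_pos (inv_pos.2 h0),
        inv_mul_cancel₀ h0.ne']
    have h2 := MP_a7c449_an.numIndex_le _ h1
    rw [numRadius_smul, Complex.norm_real, Real.norm_eq_abs, abs_of_pos (inv_pos.2 h0),
      ← div_eq_inv_mul, le_div_iff₀ h0] at h2
    exact h2

/-- There are polynomials of norm one: `x ↦ f(x)^k x₀` with `f(x₀) = 1 = ‖x₀‖ = ‖f‖`
(`ContinuousMultilinearMap.mkPiAlgebra`, `compContinuousLinearMap`, `smulRight`). -/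
theorem exists_polyNorm_one [Nontrivial X] : ∃ A : X [×k]→L[ℂ] X, polyNorm ℂ X A = 1 := by
  exact MP_a7c449_an.exists_polyNorm_one k

theorem le_numIndex [Nontrivial X] {c : ℝ}
    (h : ∀ A : X [×k]→L[ℂ] X, polyNorm ℂ X A = 1 → c ≤ numRadius ℂ X A) : c ≤ numIndex ℂ X k := by
  exact MP_a7c449_an.le_numIndex k c h

theorem numIndex_le_one [Nontrivial X] : numIndex ℂ X k ≤ 1 := by
  exact MP_a7c449_an.numIndex_le_one k

private theorem conj_le {Y : Type*} [NormedAddCommGroup Y] [NormedSpace ℂ Y] (T : X ≃ₗᵢ[ℂ] Y)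
    (A : X [×k]→L[ℂ] X) (B : Y [×k]→L[ℂ] Y) (h : ∀ x, (A fun _ => x) = T.symm (B fun _ => T x)) :
    polyNorm ℂ X A ≤ polyNorm ℂ Y B ∧ numRadius ℂ X A ≤ numRadius ℂ Y B := by
  constructor
  · refine polyNorm_le _ fun x hx => ?_
    rw [h, LinearIsometryEquiv.norm_map]
    exact le_polyNorm B (by rwa [LinearIsometryEquiv.norm_map])
  · refine numRadius_le _ (numRadius_nonneg B) fun x f hx hf hfx => ?_
    have h1 : ‖f.comp (T.symm : Y →L[ℂ] X)‖ ≤ 1 := by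
      refine ContinuousLinearMap.opNorm_le_bound _ zero_le_one fun y => ?_
      have h2 := f.le_opNorm (T.symm y)
      rw [hf, LinearIsometryEquiv.norm_map] at h2
      exact h2
    have h3 := MP_a7c449_an.le_numRadius' B (T x) (f.comp (T.symm : Y →L[ℂ] X))
      (by rw [LinearIsometryEquiv.norm_map]; exact hx.le) h1 (by
        show f (T.symm (T x)) = 1
        rw [LinearIsometryEquiv.symm_apply_apply, hfx])
    rw [h]
    exact h3

private theorem congr_le {Y : Type*} [NormedAddCommGroup Y] [NormedSpace ℂ Y] (T : X ≃ₗᵢ[ℂ] Y) :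
    {s : ℝ | ∃ A : Y [×k]→L[ℂ] Y, polyNorm ℂ Y A = 1 ∧ s = numRadius ℂ Y A} ⊆
      {s : ℝ | ∃ A : X [×k]→L[ℂ] X, polyNorm ℂ X A = 1 ∧ s = numRadius ℂ X A} := by
  rintro s ⟨B, hB, rfl⟩
  let A : X [×k]→L[ℂ] X := (T.symm : Y →L[ℂ] X).compContinuousMultilinearMap
    (B.compContinuousLinearMap fun _ => (T : X →L[ℂ] Y))
  have hA : ∀ x, (A fun _ => x) = T.symm (B fun _ => T x) := fun x => rfl
  have hB' : ∀ y, (B fun _ => y) = T.symm.symm (A fun _ => T.symm y) := by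
    intro y
    rw [hA]
    simp
  obtain ⟨h1, h2⟩ := conj_le T A B hA
  obtain ⟨h3, h4⟩ := conj_le T.symm B A hB'
  exact ⟨A, by rw [le_antisymm h1 h3, hB], le_antisymm h4 h2⟩

theorem numIndex_congr {Y : Type*} [NormedAddCommGroup Y] [NormedSpace ℂ Y] (T : X ≃ₗᵢ[ℂ] Y) :
    numIndex ℂ X k = numIndex ℂ Y k := by
  unfold numIndex
  rw [Set.Subset.antisymm (congr_le T) (congr_le T.symm)]

end Pool.Agent.Lib.MP_a7c449_an.Range
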