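import Pool.Agent.Lib.MP_a7c449_an.Range.Basic

/-! The numerical radius as a derivative of the norm of `x + z P(x)`. -/

set_option autoImplicit false
set_option maxSynthPendingDepth 3

namespace Pool.Agent.Lib.MP_a7c449_an.Range

variable {X : Type*} [NormedAddCommGroup X] [NormedSpace ℂ X] {k : ℕ}

private theorem Growth_diff (A : X [×k]→L[ℂ] X) : Differentiable ℂ fun v : X => A fun _ => v := by
  have h1 : Differentiable ℂ fun m : Fin k → X => A m :=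
    fun m => (A.hasFDerivAt m).differentiableAt
  have h2 : Differentiable ℂ fun v : X => (fun _ : Fin k => v) := by fun_prop
  exact h1.comp h2

private theorem Growth_le (A : X [×k]→L[ℂ] X) (hA : polyNorm ℂ X A ≤ 1) {x : X} {M : ℝ}
    (hx : ‖x‖ ≤ M) : ‖A fun _ => x‖ ≤ M ^ k := by
  calc ‖A fun _ => x‖ ≤ polyNorm ℂ X A * ‖x‖ ^ k := norm_apply_le A x
    _ ≤ 1 * ‖x‖ ^ k := by gcongr
    _ = ‖x‖ ^ k := one_mul _
    _ ≤ M ^ k := by gcongr

/-- For `d = y - x ≠ 0` the function `φ w = A fun _ => x + (w / ‖d‖) • d` is differentiable and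
`‖φ w‖ ≤ (‖x‖ + 1)^k ≤ 3^k` for `‖w‖ < 1` (`norm_apply_le`), so by the Schwarz lemma
(`Complex.dist_le_div_mul_dist_of_mapsTo_ball`, with radii `1` and `2 * 3^k + ε`, or the closed ball version)
`‖φ w - φ 0‖ ≤ 2 * 3^k * ‖w‖`; take `w = ‖d‖ < 1`. -/
theorem lip (A : X [×k]→L[ℂ] X) (hA : polyNorm ℂ X A ≤ 1) {x y : X} (hx : ‖x‖ ≤ 2) (hxy : ‖y - x‖ < 1) :
    ‖(A fun _ => x) - A fun _ => y‖ ≤ 2 * 3 ^ k * ‖y - x‖ := by
  have hd : DifferentiableOn ℂ (fun v : X => A fun _ => v) (Metric.ball x 1) :=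
    (Growth_diff A).differentiableOn
  have hm : Set.MapsTo (fun v : X => A fun _ => v) (Metric.ball x 1)
      (Metric.closedBall ((fun v : X => A fun _ => v) x) (2 * 3 ^ k)) := by
    intro v hv
    rw [Metric.mem_ball, dist_eq_norm] at hv
    rw [Metric.mem_closedBall, dist_eq_norm]
    have h1 : ‖v‖ ≤ 3 := by
      calc ‖v‖ = ‖x + (v - x)‖ := by congr 1; abel
        _ ≤ ‖x‖ + ‖v - x‖ := norm_add_le _ _
        _ ≤ 3 := by linarith
    have h2 : ‖x‖ ≤ 3 := by linarith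
    calc ‖(A fun _ => v) - A fun _ => x‖ ≤ ‖A fun _ => v‖ + ‖A fun _ => x‖ := norm_sub_le _ _
      _ ≤ 3 ^ k + 3 ^ k := add_le_add (Growth_le A hA h1) (Growth_le A hA h2)
      _ = 2 * 3 ^ k := by ring
  have hz : y ∈ Metric.ball x 1 := by
    rw [Metric.mem_ball, dist_eq_norm]
    exact hxy
  have h := Complex.dist_le_div_mul_dist_of_mapsTo_ball hd hm hz
  rw [dist_eq_norm, dist_eq_norm, div_one] at h
  rw [norm_sub_rev]
  exact h

/-- Let `y = x + z P(x)` (if `y = 0` the claim is trivial) and `f` with `‖f‖ = 1`, `f y = ‖y‖` (`exists_dual_vector`).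
Then `‖y‖ = Re f y ≤ ρ + ‖z‖ ‖f (P x)‖`, `‖f (P x)‖ ≤ ‖f (P y)‖ + ‖P x - P y‖`,
`‖f (P y)‖ ≤ numRadius A * ‖y‖^k` (`num_le`), `‖y‖ ≤ ρ + ‖z‖ 2^k`, and `‖P x - P y‖ ≤ 2 * 3^k * ‖z‖ 2^k` by `lip`. -/
theorem growth (A : X [×k]→L[ℂ] X) (hA : polyNorm ℂ X A ≤ 1) {ρ : ℝ} (h1 : 1 ≤ ρ) (h2 : ρ ≤ 2) {x : X}
    (hx : ‖x‖ ≤ ρ) {z : ℂ} (hz : ‖z‖ * 2 ^ k ≤ 1 / 2) :
    ‖x + z • A fun _ => x‖ ≤ ρ + ‖z‖ * (numRadius ℂ X A * (ρ + ‖z‖ * 2 ^ k) ^ k + 2 * 6 ^ k * ‖z‖) := by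
  have hv := numRadius_nonneg A
  set y : X := x + z • A fun _ => x with hy
  by_cases hy0 : y = 0
  · rw [hy0, norm_zero]
    have : 0 ≤ ρ := by linarith
    positivity
  obtain ⟨f, hf, hfy⟩ := exists_dual_vector ℂ y (norm_ne_zero_iff.2 hy0)
  have hx2 : ‖x‖ ≤ 2 := hx.trans h2
  have hPx : ‖A fun _ => x‖ ≤ 2 ^ k := Growth_le A hA hx2
  have hyx : y - x = z • A fun _ => x := by rw [hy]; abel
  have hd : ‖y - x‖ ≤ ‖z‖ * 2 ^ k := by
    rw [hyx, norm_smul]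
    gcongr
  have hyn : ‖y‖ ≤ ρ + ‖z‖ * 2 ^ k := by
    calc ‖y‖ = ‖x + (y - x)‖ := by congr 1; abel
      _ ≤ ‖x‖ + ‖y - x‖ := norm_add_le _ _
      _ ≤ ρ + ‖z‖ * 2 ^ k := add_le_add hx hd
  have hl : ‖(A fun _ => x) - A fun _ => y‖ ≤ 2 * 6 ^ k * ‖z‖ := by
    calc ‖(A fun _ => x) - A fun _ => y‖ ≤ 2 * 3 ^ k * ‖y - x‖ := lip A hA hx2 (by linarith)
      _ ≤ 2 * 3 ^ k * (‖z‖ * 2 ^ k) := by gcongr
      _ = 2 * 6 ^ k * ‖z‖ := by
        rw [show (6 : ℝ) = 3 * 2 by norm_num, mul_pow]; ring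
  have hfP : ‖f (A fun _ => x)‖ ≤ numRadius ℂ X A * (ρ + ‖z‖ * 2 ^ k) ^ k + 2 * 6 ^ k * ‖z‖ := by
    have e1 : f (A fun _ => x) = f (A fun _ => y) + f ((A fun _ => x) - A fun _ => y) := by
      rw [map_sub]; ring
    rw [e1]
    refine (norm_add_le _ _).trans (add_le_add ?_ ?_)
    · refine (num_le A hy0 hf hfy).trans ?_
      gcongr
    · refine (f.le_opNorm _).trans ?_
      rw [hf, one_mul]
      exact hl
  have e2 : ‖y‖ = ‖f y‖ := by rw [hfy]; simp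
  rw [e2, hy, map_add, map_smul, smul_eq_mul]
  refine (norm_add_le _ _).trans (add_le_add ?_ ?_)
  · refine (f.le_opNorm _).trans ?_
    rw [hf, one_mul]
    exact hx
  · rw [norm_mul]
    gcongr

/-- For a state `(x, f)` choose `z`, `‖z‖ = δ`, with `z f(P x) = δ ‖f (P x)‖`: then `‖x + z P x‖ ≥ 1 + δ ‖f (P x)‖`.
Also `g ≥ 1` (there is a unit vector `x`, and `2 ‖x‖ ≤ ‖x + z P x‖ + ‖x - z P x‖`). Use `numRadius_le`. -/
theorem state_bound [Nontrivial X] (A : X [×k]→L[ℂ] X) {δ g : ℝ} (hδ : 0 < δ)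
    (hg : ∀ x : X, ‖x‖ ≤ 1 → ∀ z : ℂ, ‖z‖ = δ → ‖x + z • A fun _ => x‖ ≤ g) :
    δ * numRadius ℂ X A ≤ g - 1 := by
  have hg1 : 1 ≤ g := by
    obtain ⟨x, hx⟩ := exists_norm_eq X (c := 1) zero_le_one
    have hzn : ‖((δ : ℝ) : ℂ)‖ = δ := by
      rw [Complex.norm_real, Real.norm_eq_abs, abs_of_pos hδ]
    have a1 := hg x hx.le (δ : ℂ) hzn
    have a2 := hg x hx.le (-(δ : ℂ)) (by rw [norm_neg]; exact hzn)
    have a3 : ‖x + x‖ ≤ g + g := by
      have e : x + x = (x + (δ : ℂ) • A fun _ => x) + (x + (-(δ : ℂ)) • A fun _ => x) := by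
        rw [neg_smul]; abel
      rw [e]
      exact (norm_add_le _ _).trans (add_le_add a1 a2)
    have a4 : ‖x + x‖ = 2 := by
      rw [← two_smul ℂ x, norm_smul, hx]
      simp
    linarith
  have key : numRadius ℂ X A ≤ (g - 1) / δ := by
    refine numRadius_le A (div_nonneg (by linarith) hδ.le) fun x f hx hf hfx => ?_
    rw [le_div_iff₀ hδ]
    set c : ℂ := f (A fun _ => x) with hc
    obtain ⟨z, hz, hzc⟩ : ∃ z : ℂ, ‖z‖ = δ ∧ z * c = ((δ * ‖c‖ : ℝ) : ℂ) := by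
      by_cases h0 : c = 0
      · refine ⟨(δ : ℂ), ?_, ?_⟩
        · rw [Complex.norm_real, Real.norm_eq_abs, abs_of_pos hδ]
        · rw [h0]; simp
      · have hcn : ‖c‖ ≠ 0 := norm_ne_zero_iff.2 h0
        have hcn' : ((‖c‖ : ℝ) : ℂ) ≠ 0 := by exact_mod_cast hcn
        refine ⟨(δ : ℂ) * ((starRingEnd ℂ) c / ((‖c‖ : ℝ) : ℂ)), ?_, ?_⟩
        · rw [norm_mul, norm_div, RCLike.norm_conj, Complex.norm_real, Complex.norm_real,
            Real.norm_eq_abs, abs_of_pos hδ, norm_norm, div_self hcn, mul_one]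
        · have : (starRingEnd ℂ) c * c = ((‖c‖ : ℝ) : ℂ) * ((‖c‖ : ℝ) : ℂ) := by
            rw [mul_comm, Complex.mul_conj, Complex.normSq_eq_norm_sq]
            push_cast
            ring
          push_cast
          field_simp
          rw [mul_assoc, this]
          ring
    have h3 := hg x hx.le z hz
    have h4 : f (x + z • A fun _ => x) = ((1 + δ * ‖c‖ : ℝ) : ℂ) := by
      rw [map_add, map_smul, smul_eq_mul, hfx, ← hc, hzc]
      push_cast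
      ring
    have h5 : ‖f (x + z • A fun _ => x)‖ ≤ g := by
      refine (f.le_opNorm _).trans ?_
      rw [hf, one_mul]
      exact h3
    rw [h4, Complex.norm_real, Real.norm_eq_abs, abs_of_nonneg (by positivity)] at h5
    linarith
  rw [le_div_iff₀ hδ] at key
  linarith

end Pool.Agent.Lib.MP_a7c449_an.Range
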