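import Pool.Agent.Lib.MP_a7c449_an.Range.Red

/-! Symmetric multilinear maps. -/

set_option autoImplicit false
set_option maxSynthPendingDepth 3

namespace Pool.Agent.Lib.MP_a7c449_an.Range

variable {X : Type*} [NormedAddCommGroup X] [NormedSpace ℂ X]

/-- Induction on `n`. `b.curryLeft s` is invariant under a permutation `σ` of `Fin n` since `b` is invariant under the
permutation of `Fin (n+1)` fixing `0` and acting as `σ` on the rest (`Equiv.Perm.decomposeFin.symm (0, σ)`), and
`b (s, h, …) = b (h, s, …)` by the transposition of `0` and `1`. -/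
theorem isSym_of_perm {n : ℕ} (b : X [×n]→L[ℂ] ℂ)
    (h : ∀ (σ : Equiv.Perm (Fin n)) (v : Fin n → X), b (fun i => v (σ i)) = b v) : IsSym n b := by
  induction n with
  | zero => rw [IsSym]; trivial
  | succ n ih =>
    cases n with
    | zero => rw [IsSym]; trivial
    | succ n =>
      rw [IsSym]
      refine ⟨fun s => ih (b.curryLeft s) ?_, ?_⟩
      · intro σ v
        rw [ContinuousMultilinearMap.curryLeft_apply, ContinuousMultilinearMap.curryLeft_apply,
          ← h (Equiv.Perm.decomposeFin.symm (0, σ)) (Fin.cons s v)]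
        congr 1
        funext i
        refine Fin.cases ?_ (fun i => ?_) i
        · simp
        · simp
      · intro s t
        ext v
        rw [ContinuousMultilinearMap.curryLeft_apply, ContinuousMultilinearMap.curryLeft_apply,
          ContinuousMultilinearMap.curryLeft_apply, ContinuousMultilinearMap.curryLeft_apply,
          ← h (Equiv.swap 0 1) (Fin.cons s (Fin.cons t v))]
        congr 1
        funext i
        refine Fin.cases ?_ (fun i => ?_) i
        · rw [Equiv.swap_apply_left]
          rfl
        · refine Fin.cases ?_ (fun j => ?_) i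
          · rw [show (Fin.succ (0 : Fin (n + 1))) = (1 : Fin (n + 2)) from rfl,
              Equiv.swap_apply_right]
            rfl
          · have hne : j.succ.succ ≠ (1 : Fin (n + 1 + 1)) :=
              fun hh => Fin.succ_ne_zero j (Fin.succ_injective _ hh)
            rw [Equiv.swap_apply_of_ne_of_ne (Fin.succ_ne_zero _) hne]
            rfl

/-- `A' = (1/k!) ∑_σ A ∘ σ` (`ContinuousMultilinearMap.domDomCongr`). -/
theorem exists_symm {k : ℕ} (A : X [×k]→L[ℂ] X) : ∃ A' : X [×k]→L[ℂ] X,
    (∀ x, (A' fun _ => x) = A fun _ => x) ∧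
    ∀ φ : StrongDual ℂ X, IsSym k (φ.compContinuousMultilinearMap A') := by
  refine ⟨((k.factorial : ℂ))⁻¹ • ∑ σ : Equiv.Perm (Fin k), A.domDomCongr σ, ?_, ?_⟩
  · intro x
    have hk : ((k.factorial : ℂ)) ≠ 0 := Nat.cast_ne_zero.2 (Nat.factorial_ne_zero k)
    rw [ContinuousMultilinearMap.smul_apply, ContinuousMultilinearMap.sum_apply]
    simp only [ContinuousMultilinearMap.domDomCongr_apply, Finset.sum_const, Finset.card_univ,
      Fintype.card_perm, Fintype.card_fin]
    rw [← Nat.cast_smul_eq_nsmul ℂ, smul_smul, inv_mul_cancel₀ hk, one_smul]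
  · intro φ
    refine isSym_of_perm _ ?_
    intro τ v
    have key : (((k.factorial : ℂ))⁻¹ • ∑ σ : Equiv.Perm (Fin k), A.domDomCongr σ)
        (fun i => v (τ i)) =
        (((k.factorial : ℂ))⁻¹ • ∑ σ : Equiv.Perm (Fin k), A.domDomCongr σ) v := by
      rw [ContinuousMultilinearMap.smul_apply, ContinuousMultilinearMap.smul_apply,
        ContinuousMultilinearMap.sum_apply, ContinuousMultilinearMap.sum_apply]
      congr 1
      simp only [ContinuousMultilinearMap.domDomCongr_apply]
      exact Fintype.sum_equiv (Equiv.mulLeft τ) _ _ fun σ => rfl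
    exact congrArg φ key

end Pool.Agent.Lib.MP_a7c449_an.Range
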