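import Pool.Agent.Lib.MP_a7c449_an.Range.DG
import Pool.Agent.Lib.MP_a7c449_an.Range.Symm
import Pool.Agent.Lib.MP_a7c449_an.Range.Growth

/-! The index of the bidual is at most the index of the space. -/

set_option autoImplicit false
set_option maxSynthPendingDepth 3

namespace Pool.Agent.Lib.MP_a7c449_an.Range

variable {X : Type*} [NormedAddCommGroup X] [NormedSpace ℂ X]

/-- The extension of `A` to the bidual: `bidExt A (y₁, …) φ = extL k (φ ∘ A) (y₁, …)`. -/
noncomputable def bidExt {k : ℕ} (A : X [×k]→L[ℂ] X) : Bid X [×k]→L[ℂ] Bid X :=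
  ((extL X k).comp
    ((ContinuousLinearMap.compContinuousMultilinearMapL ℂ (fun _ : Fin k => X) X ℂ).flip A)).flipMultilinear

theorem bidExt_apply {k : ℕ} (A : X [×k]→L[ℂ] X) (v : Fin k → Bid X) (φ : StrongDual ℂ X) :
    bidExt A v φ = extL X k (φ.compContinuousMultilinearMap A) v := by
  rfl

/-- By `extL_J`. -/
theorem bidExt_J {k : ℕ} (A : X [×k]→L[ℂ] X) (x : X) :
    (bidExt A fun _ => NormedSpace.inclusionInDoubleDual ℂ X x) =
      NormedSpace.inclusionInDoubleDual ℂ X (A fun _ => x) := by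
  ext φ
  rw [bidExt_apply, extL_J, NormedSpace.dual_def]
  rfl

private theorem BidExt_norm_J (x : X) : ‖NormedSpace.inclusionInDoubleDual ℂ X x‖ = ‖x‖ :=
  (NormedSpace.inclusionInDoubleDualLi (E := X) ℂ).norm_map x

/-- From `bidExt_J` (the inclusion is an isometry). -/
theorem polyNorm_le_bidExt {k : ℕ} (A : X [×k]→L[ℂ] X) : polyNorm ℂ X A ≤ polyNorm ℂ (Bid X) (bidExt A) := by
  refine polyNorm_le A fun x hx => ?_
  rw [← BidExt_norm_J (A fun _ => x), ← bidExt_J]
  refine le_polyNorm (bidExt A) ?_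
  rw [BidExt_norm_J]
  exact hx

/-- For `φ` apply `davie_gamelin` with `b = φ ∘ A`: `(y + z • bidExt A (y, …)) φ` is close to `φ (x + z • A (x, …))`. -/
theorem growth_bidExt {k : ℕ} (A : X [×k]→L[ℂ] X)
    (hA : ∀ φ : StrongDual ℂ X, IsSym k (φ.compContinuousMultilinearMap A)) {z : ℂ} {g : ℝ}
    (hg : ∀ x : X, ‖x‖ ≤ 1 → ‖x + z • A fun _ => x‖ ≤ g) {y : Bid X} (hy : ‖y‖ ≤ 1) :
    ‖y + z • bidExt A fun _ => y‖ ≤ g := by
  have hg0 : 0 ≤ g := (norm_nonneg _).trans (hg 0 (by simp))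
  refine ContinuousLinearMap.opNorm_le_bound _ hg0 fun φ => ?_
  refine le_of_forall_pos_le_add fun ε hε => ?_
  have hz1 : 0 < 1 + ‖z‖ := by positivity
  obtain ⟨x, hx, h1, h2⟩ := davie_gamelin y hy (hA φ) φ (ε := ε / (1 + ‖z‖)) (by positivity)
  have e0 : (y + z • bidExt A fun _ => y) φ =
      y φ + z * extL X k (φ.compContinuousMultilinearMap A) fun _ => y := by
    rw [← bidExt_apply]
    rfl
  have e1 : (φ.compContinuousMultilinearMap A) (fun _ => x) = φ (A fun _ => x) := rfl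
  rw [e1] at h2
  set E : ℂ := extL X k (φ.compContinuousMultilinearMap A) fun _ => y with hE
  have e2 : y φ + z * E = φ (x + z • A fun _ => x) - (φ x - y φ) - z * (φ (A fun _ => x) - E) := by
    rw [map_add, map_smul, smul_eq_mul]
    ring
  rw [e0, e2]
  calc ‖φ (x + z • A fun _ => x) - (φ x - y φ) - z * (φ (A fun _ => x) - E)‖
      ≤ ‖φ (x + z • A fun _ => x)‖ + ‖φ x - y φ‖ + ‖z * (φ (A fun _ => x) - E)‖ :=
        (norm_sub_le _ _).trans (by gcongr; exact norm_sub_le _ _)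
    _ ≤ ‖φ‖ * g + ε / (1 + ‖z‖) + ‖z‖ * (ε / (1 + ‖z‖)) := by
        rw [norm_mul]
        gcongr
        exact (φ.le_opNorm _).trans (by gcongr; exact hg x hx)
    _ = g * ‖φ‖ + ε := by field_simp; ring

/-- For `polyNorm A = 1`, `v = numRadius A` take `A'` from `exists_symm` (same `polyNorm`, same `numRadius`).
`growth` (with `ρ = 1`), `growth_bidExt` and `state_bound` give, for small `δ > 0`,
`numRadius (bidExt A') ≤ v (1 + δ 2^k)^k + 2 * 6^k δ`; let `δ → 0`. `polyNorm_le_bidExt`, `numIndex_mul_le`,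
`le_numIndex`. (`Bid X` is nontrivial.) -/
theorem numIndex_bid_le (k : ℕ) [Nontrivial X] : numIndex ℂ (Bid X) k ≤ numIndex ℂ X k := by
  have hnt : Nontrivial (Bid X) := by
    obtain ⟨x, hx⟩ := exists_ne (0 : X)
    refine ⟨NormedSpace.inclusionInDoubleDual ℂ X x, 0, ?_⟩
    rw [← norm_ne_zero_iff, BidExt_norm_J]
    exact norm_ne_zero_iff.2 hx
  refine le_numIndex fun A hA => ?_
  obtain ⟨A', hd, hsym⟩ := exists_symm A
  have hpn : polyNorm ℂ X A' = 1 := by
    rw [← hA]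
    simp only [polyNorm, hd]
  have hnr : numRadius ℂ X A' = numRadius ℂ X A := by
    simp only [numRadius, hd]
  have hle : numIndex ℂ (Bid X) k ≤ numRadius ℂ (Bid X) (bidExt A') := by
    have h1 := numIndex_mul_le (bidExt A')
    have h2 : 1 ≤ polyNorm ℂ (Bid X) (bidExt A') := hpn ▸ polyNorm_le_bidExt A'
    have h3 : 0 ≤ numIndex ℂ (Bid X) k := numIndex_nonneg
    nlinarith
  refine hle.trans ?_
  rw [← hnr]
  have hbd : ∀ δ : ℝ, 0 < δ → δ * 2 ^ k ≤ 1 / 2 → numRadius ℂ (Bid X) (bidExt A') ≤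
      numRadius ℂ X A' * (1 + δ * 2 ^ k) ^ k + 2 * 6 ^ k * δ := by
    intro δ hδ hδk
    have h1 := state_bound (bidExt A') (δ := δ)
      (g := 1 + δ * (numRadius ℂ X A' * (1 + δ * 2 ^ k) ^ k + 2 * 6 ^ k * δ)) hδ (fun y hy z hz => by
        refine growth_bidExt A' hsym (fun x hx => ?_) hy
        have := growth A' hpn.le (ρ := 1) le_rfl (by norm_num) hx (z := z) (by rw [hz]; exact hδk)
        rwa [hz] at this)
    rw [add_sub_cancel_left] at h1
    exact le_of_mul_le_mul_left h1 hδ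
  have hlim : Filter.Tendsto (fun δ : ℝ => numRadius ℂ X A' * (1 + δ * 2 ^ k) ^ k + 2 * 6 ^ k * δ)
      (nhdsWithin 0 (Set.Ioi 0)) (nhds (numRadius ℂ X A')) := by
    have hc : Continuous fun δ : ℝ => numRadius ℂ X A' * (1 + δ * 2 ^ k) ^ k + 2 * 6 ^ k * δ := by
      fun_prop
    have := (hc.tendsto 0).mono_left (nhdsWithin_le_nhds (s := Set.Ioi 0))
    simpa using this
  refine ge_of_tendsto hlim ?_
  have hev : ∀ᶠ δ : ℝ in nhdsWithin 0 (Set.Ioi 0), δ < 1 / (2 * 2 ^ k) :=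
    (eventually_lt_nhds (by positivity)).filter_mono nhdsWithin_le_nhds
  filter_upwards [hev, self_mem_nhdsWithin] with δ h1 h2
  refine hbd δ h2 ?_
  rw [lt_div_iff₀ (by positivity)] at h1
  linarith

end Pool.Agent.Lib.MP_a7c449_an.Range
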