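import Pool.Agent.Lib.MP_a7c449_an.Range.Basic

/-! The second transpose of an operator. -/

set_option autoImplicit false
set_option maxSynthPendingDepth 3

namespace Pool.Agent.Lib.MP_a7c449_an.Range

variable {X Y : Type*} [NormedAddCommGroup X] [NormedSpace ℂ X] [NormedAddCommGroup Y] [NormedSpace ℂ Y]

/-- The second transpose. -/
noncomputable def bidMap (T : X →L[ℂ] Y) : Bid X →L[ℂ] Bid Y :=
  (ContinuousLinearMap.compL ℂ (StrongDual ℂ Y) (StrongDual ℂ X) ℂ).flip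
    ((ContinuousLinearMap.compL ℂ X Y ℂ).flip T)

theorem bidMap_apply (T : X →L[ℂ] Y) (y : Bid X) (φ : StrongDual ℂ Y) : bidMap T y φ = y (φ.comp T) := rfl

theorem bidMap_le (T : X →L[ℂ] Y) {c : ℝ} (hc : 0 ≤ c) (hT : ∀ x, ‖T x‖ ≤ c * ‖x‖) (y : Bid X) :
    ‖bidMap T y‖ ≤ c * ‖y‖ := by
  refine ContinuousLinearMap.opNorm_le_bound _ (by positivity) fun φ => ?_
  rw [bidMap_apply]
  have hn : ‖T‖ ≤ c := ContinuousLinearMap.opNorm_le_bound _ hc hT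
  calc ‖y (φ.comp T)‖ ≤ ‖y‖ * ‖φ.comp T‖ := y.le_opNorm _
    _ ≤ ‖y‖ * (‖φ‖ * ‖T‖) := mul_le_mul_of_nonneg_left (φ.opNorm_comp_le T) (norm_nonneg _)
    _ ≤ ‖y‖ * (‖φ‖ * c) := mul_le_mul_of_nonneg_left
        (mul_le_mul_of_nonneg_left hn (norm_nonneg _)) (norm_nonneg _)
    _ = c * ‖y‖ * ‖φ‖ := by ring

/-- `bidMap T` with inverse `bidMap T⁻¹` (`ContinuousLinearEquiv.equivOfInverse`); the lower bound from `bidMap_le` for
`T⁻¹`. -/
theorem exists_bidEquiv (T : X ≃L[ℂ] Y) {a b : ℝ} (ha : 0 < a) (hb : 0 ≤ b) (h1 : ∀ x, a * ‖x‖ ≤ ‖T x‖)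
    (h2 : ∀ x, ‖T x‖ ≤ b * ‖x‖) :
    ∃ S : Bid X ≃L[ℂ] Bid Y, ∀ y, a * ‖y‖ ≤ ‖S y‖ ∧ ‖S y‖ ≤ b * ‖y‖ := by
  have l : ∀ y : Bid X, bidMap (T.symm : Y →L[ℂ] X) (bidMap (T : X →L[ℂ] Y) y) = y := by
    intro y
    ext φ
    rw [bidMap_apply, bidMap_apply]
    congr 1
    ext x
    simp
  have r : ∀ y : Bid Y, bidMap (T : X →L[ℂ] Y) (bidMap (T.symm : Y →L[ℂ] X) y) = y := by
    intro y
    ext φ
    rw [bidMap_apply, bidMap_apply]
    congr 1
    ext x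
    simp
  refine ⟨ContinuousLinearEquiv.equivOfInverse (bidMap (T : X →L[ℂ] Y))
    (bidMap (T.symm : Y →L[ℂ] X)) l r, fun y => ?_⟩
  rw [ContinuousLinearEquiv.equivOfInverse_apply]
  constructor
  · have h3 : ∀ z : Y, ‖(T.symm : Y →L[ℂ] X) z‖ ≤ a⁻¹ * ‖z‖ := by
      intro z
      have h := h1 (T.symm z)
      rw [ContinuousLinearEquiv.apply_symm_apply] at h
      rw [← div_eq_inv_mul, le_div_iff₀ ha, mul_comm]
      exact h
    have h4 := bidMap_le (T.symm : Y →L[ℂ] X) (inv_nonneg.mpr ha.le) h3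
      (bidMap (T : X →L[ℂ] Y) y)
    rw [l, ← div_eq_inv_mul, le_div_iff₀ ha, mul_comm] at h4
    exact h4
  · exact bidMap_le (T : X →L[ℂ] Y) hb h2 y

/-- The second transpose of an isometry is an isometry (`exists_bidEquiv` with `a = b = 1`); `numIndex_congr`. -/
theorem numIndex_bid_congr (T : X ≃ₗᵢ[ℂ] Y) (k : ℕ) : numIndex ℂ (Bid X) k = numIndex ℂ (Bid Y) k := by
  obtain ⟨S, hS⟩ := exists_bidEquiv (X := X) (Y := Y) T.toContinuousLinearEquiv one_pos zero_le_one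
    (fun x => by
      rw [one_mul]
      exact (T.norm_map x).ge)
    (fun x => by
      rw [one_mul]
      exact (T.norm_map x).le)
  refine numIndex_congr (k := k) (X := Bid X) (Y := Bid Y) ⟨S.toLinearEquiv, fun y => ?_⟩
  have h := hS y
  rw [one_mul] at h
  exact le_antisymm h.2 h.1

end Pool.Agent.Lib.MP_a7c449_an.Range
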