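import Pool.Agent.Lib.MP_a7c449_an.Range.Prod

/-! The bidual of a product, and of a finite dimensional space. -/

set_option autoImplicit false
set_option maxSynthPendingDepth 3

namespace Pool.Agent.Lib.MP_a7c449_an.Range

variable {X Y : Type*} [NormedAddCommGroup X] [NormedSpace ℂ X] [NormedAddCommGroup Y] [NormedSpace ℂ Y]

private theorem unit_mul (z : ℂ) : ∃ c : ℂ, ‖c‖ = 1 ∧ c * z = ((‖z‖ : ℝ) : ℂ) := by
  by_cases hz : z = 0
  · exact ⟨1, by simp, by simp [hz]⟩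
  · have hn : ((‖z‖ : ℝ) : ℂ) ≠ 0 := by
      rw [Ne, Complex.ofReal_eq_zero, norm_eq_zero]
      exact hz
    refine ⟨((‖z‖ : ℝ) : ℂ) * z⁻¹, ?_, by field_simp⟩
    rw [norm_mul, norm_inv, Complex.norm_real, norm_norm, mul_inv_cancel₀ (norm_ne_zero_iff.2 hz)]

private theorem dual_prod_split (φ : StrongDual ℂ (X × Y)) (x : X) (y : Y) :
    φ (x, y) = φ.comp (ContinuousLinearMap.inl ℂ X Y) x +
      φ.comp (ContinuousLinearMap.inr ℂ X Y) y := by
  rw [ContinuousLinearMap.comp_apply, ContinuousLinearMap.comp_apply,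
    ContinuousLinearMap.inl_apply, ContinuousLinearMap.inr_apply, ← map_add, Prod.mk_add_mk,
    add_zero, zero_add]

private theorem dual_prod_key (φ : StrongDual ℂ (X × Y)) (x : X) (y : Y) :
    ‖φ.comp (ContinuousLinearMap.inl ℂ X Y) x‖ * ‖y‖ +
      ‖φ.comp (ContinuousLinearMap.inr ℂ X Y) y‖ * ‖x‖ ≤ ‖φ‖ * (‖x‖ * ‖y‖) := by
  obtain ⟨c, hc, hcx⟩ := unit_mul (φ.comp (ContinuousLinearMap.inl ℂ X Y) x)
  obtain ⟨d, hd, hdy⟩ := unit_mul (φ.comp (ContinuousLinearMap.inr ℂ X Y) y)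
  have h1 := φ.le_opNorm ((c * ((‖y‖ : ℝ) : ℂ)) • x, (d * ((‖x‖ : ℝ) : ℂ)) • y)
  rw [dual_prod_split, map_smul, map_smul, smul_eq_mul, smul_eq_mul] at h1
  have e1 : c * ((‖y‖ : ℝ) : ℂ) * φ.comp (ContinuousLinearMap.inl ℂ X Y) x +
      d * ((‖x‖ : ℝ) : ℂ) * φ.comp (ContinuousLinearMap.inr ℂ X Y) y =
      ((‖φ.comp (ContinuousLinearMap.inl ℂ X Y) x‖ * ‖y‖ +
      ‖φ.comp (ContinuousLinearMap.inr ℂ X Y) y‖ * ‖x‖ : ℝ) : ℂ) := by
    rw [Complex.ofReal_add, Complex.ofReal_mul, Complex.ofReal_mul, ← hcx, ← hdy]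
    ring
  have e2 : ‖((c * ((‖y‖ : ℝ) : ℂ)) • x, (d * ((‖x‖ : ℝ) : ℂ)) • y)‖ = ‖x‖ * ‖y‖ := by
    rw [Prod.norm_mk, norm_smul, norm_smul, norm_mul, norm_mul, hc, hd, one_mul, one_mul,
      Complex.norm_real, Complex.norm_real, norm_norm, norm_norm, mul_comm ‖y‖ ‖x‖, max_self]
  rw [e1, e2, Complex.norm_real] at h1
  exact (le_abs_self _).trans h1

/-- `≤`: `φ (x, y) = φ (x, 0) + φ (0, y)`; `≥`: for `‖x‖, ‖y‖ ≤ 1` rotate `x` and `y` so that `φ (x, 0), φ (0, y) ≥ 0`. -/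
theorem norm_dual_prod (φ : StrongDual ℂ (X × Y)) :
    ‖φ‖ = ‖φ.comp (ContinuousLinearMap.inl ℂ X Y)‖ + ‖φ.comp (ContinuousLinearMap.inr ℂ X Y)‖ := by
  have n1 : ‖φ.comp (ContinuousLinearMap.inl ℂ X Y)‖ ≤ ‖φ‖ := by
    refine ContinuousLinearMap.opNorm_le_bound _ (norm_nonneg _) fun x => ?_
    have h1 := φ.le_opNorm (x, (0 : Y))
    rw [Prod.norm_mk, norm_zero, max_eq_left (norm_nonneg _)] at h1
    exact h1
  refine le_antisymm ?_ ?_
  · refine ContinuousLinearMap.opNorm_le_bound _ (by positivity) fun p => ?_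
    obtain ⟨x, y⟩ := p
    rw [dual_prod_split]
    refine (norm_add_le _ _).trans ?_
    rw [add_mul]
    refine add_le_add ?_ ?_
    · refine (ContinuousLinearMap.le_opNorm _ _).trans ?_
      exact mul_le_mul_of_nonneg_left (norm_fst_le (x, y)) (norm_nonneg _)
    · refine (ContinuousLinearMap.le_opNorm _ _).trans ?_
      exact mul_le_mul_of_nonneg_left (norm_snd_le (x, y)) (norm_nonneg _)
  · have h2 : ‖φ.comp (ContinuousLinearMap.inr ℂ X Y)‖ ≤
        ‖φ‖ - ‖φ.comp (ContinuousLinearMap.inl ℂ X Y)‖ := by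
      refine ContinuousLinearMap.opNorm_le_bound _ (by linarith) fun y => ?_
      rcases (norm_nonneg y).eq_or_lt with h0 | h0
      · have hy : y = 0 := norm_eq_zero.1 h0.symm
        rw [hy, map_zero, norm_zero, norm_zero, mul_zero]
      have h3 : ‖φ.comp (ContinuousLinearMap.inl ℂ X Y)‖ ≤
          ‖φ‖ - ‖φ.comp (ContinuousLinearMap.inr ℂ X Y) y‖ / ‖y‖ := by
        have hb : ‖φ.comp (ContinuousLinearMap.inr ℂ X Y) y‖ ≤ ‖φ‖ * ‖y‖ := by
          have h1 := φ.le_opNorm ((0 : X), y)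
          rw [Prod.norm_mk, norm_zero, max_eq_right (norm_nonneg _)] at h1
          exact h1
        refine ContinuousLinearMap.opNorm_le_bound _ ?_ fun x => ?_
        · rw [sub_nonneg, div_le_iff₀ h0]
          exact hb
        · have h4 := dual_prod_key φ x y
          have h5 : (‖φ‖ - ‖φ.comp (ContinuousLinearMap.inr ℂ X Y) y‖ / ‖y‖) * ‖x‖ =
              (‖φ‖ * (‖x‖ * ‖y‖) - ‖φ.comp (ContinuousLinearMap.inr ℂ X Y) y‖ * ‖x‖) / ‖y‖ := by
            field_simp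
          rw [h5, le_div_iff₀ h0]
          linarith
      have h6 : ‖φ.comp (ContinuousLinearMap.inr ℂ X Y) y‖ / ‖y‖ ≤
          ‖φ‖ - ‖φ.comp (ContinuousLinearMap.inl ℂ X Y)‖ := by linarith
      rwa [div_le_iff₀ h0] at h6
    linarith

private theorem comp_fst_le (g : StrongDual ℂ X) : ‖g.comp (ContinuousLinearMap.fst ℂ X Y)‖ ≤ ‖g‖ := by
  refine ContinuousLinearMap.opNorm_le_bound _ (norm_nonneg _) fun p => ?_
  refine (g.le_opNorm p.1).trans ?_
  exact mul_le_mul_of_nonneg_left (norm_fst_le p) (norm_nonneg _)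

private theorem comp_snd_le (g : StrongDual ℂ Y) : ‖g.comp (ContinuousLinearMap.snd ℂ X Y)‖ ≤ ‖g‖ := by
  refine ContinuousLinearMap.opNorm_le_bound _ (norm_nonneg _) fun p => ?_
  refine (g.le_opNorm p.2).trans ?_
  exact mul_le_mul_of_nonneg_left (norm_snd_le p) (norm_nonneg _)

private theorem dual_decomp (φ : StrongDual ℂ (X × Y)) :
    φ = (φ.comp (ContinuousLinearMap.inl ℂ X Y)).comp (ContinuousLinearMap.fst ℂ X Y) +
      (φ.comp (ContinuousLinearMap.inr ℂ X Y)).comp (ContinuousLinearMap.snd ℂ X Y) := by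
  have h0 : φ ((0 : X), (0 : Y)) = 0 := φ.map_zero
  ext p
  · rw [ContinuousLinearMap.comp_apply, ContinuousLinearMap.comp_apply]
    simp [h0]
  · rw [ContinuousLinearMap.comp_apply, ContinuousLinearMap.comp_apply]
    simp [h0]

/-- `pr y = (g ↦ y (g ∘ fst))`, `inj ψ = (φ ↦ ψ (φ ∘ inl))`; `swap` by `norm_dual_prod`. -/
noncomputable def bidFst (X Y : Type*) [NormedAddCommGroup X] [NormedSpace ℂ X] [NormedAddCommGroup Y]
    [NormedSpace ℂ Y] : Summand (Bid (X × Y)) (Bid X) where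
  pr := (ContinuousLinearMap.compL ℂ (X →L[ℂ] ℂ) ((X × Y) →L[ℂ] ℂ) ℂ).flip
    ((ContinuousLinearMap.compL ℂ (X × Y) X ℂ).flip (ContinuousLinearMap.fst ℂ X Y))
  inj := (ContinuousLinearMap.compL ℂ ((X × Y) →L[ℂ] ℂ) (X →L[ℂ] ℂ) ℂ).flip
    ((ContinuousLinearMap.compL ℂ X (X × Y) ℂ).flip (ContinuousLinearMap.inl ℂ X Y))
  pr_le := by
    intro y
    refine ContinuousLinearMap.opNorm_le_bound _ (norm_nonneg _) fun g => ?_
    refine (y.le_opNorm (g.comp (ContinuousLinearMap.fst ℂ X Y))).trans ?_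
    exact mul_le_mul_of_nonneg_left (comp_fst_le g) (norm_nonneg _)
  pr_inj := by
    intro ψ
    ext g
    show ψ ((g.comp (ContinuousLinearMap.fst ℂ X Y)).comp (ContinuousLinearMap.inl ℂ X Y)) = ψ g
    congr 1
  swap := by
    intro y ψ M hy hψ
    have hM : 0 ≤ M := (norm_nonneg _).trans hy
    refine ContinuousLinearMap.opNorm_le_bound _ hM fun φ => ?_
    have e1 : y φ - y ((φ.comp (ContinuousLinearMap.inl ℂ X Y)).comp
        (ContinuousLinearMap.fst ℂ X Y)) + ψ (φ.comp (ContinuousLinearMap.inl ℂ X Y)) =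
        y ((φ.comp (ContinuousLinearMap.inr ℂ X Y)).comp (ContinuousLinearMap.snd ℂ X Y)) +
          ψ (φ.comp (ContinuousLinearMap.inl ℂ X Y)) := by
      rw [← map_sub]
      congr 2
      exact sub_eq_of_eq_add' (dual_decomp φ)
    show ‖y φ - y ((φ.comp (ContinuousLinearMap.inl ℂ X Y)).comp
        (ContinuousLinearMap.fst ℂ X Y)) + ψ (φ.comp (ContinuousLinearMap.inl ℂ X Y))‖ ≤ M * ‖φ‖
    rw [e1, norm_dual_prod φ, mul_add, add_comm (M * _)]
    refine (norm_add_le _ _).trans (add_le_add ?_ ?_)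
    · refine (y.le_opNorm _).trans ?_
      exact mul_le_mul hy (comp_snd_le _) (norm_nonneg _) hM
    · refine (ψ.le_opNorm _).trans ?_
      exact mul_le_mul_of_nonneg_right hψ (norm_nonneg _)

/-- As `bidFst`. -/
noncomputable def bidSnd (X Y : Type*) [NormedAddCommGroup X] [NormedSpace ℂ X] [NormedAddCommGroup Y]
    [NormedSpace ℂ Y] : Summand (Bid (X × Y)) (Bid Y) where
  pr := (ContinuousLinearMap.compL ℂ (Y →L[ℂ] ℂ) ((X × Y) →L[ℂ] ℂ) ℂ).flip
    ((ContinuousLinearMap.compL ℂ (X × Y) Y ℂ).flip (ContinuousLinearMap.snd ℂ X Y))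
  inj := (ContinuousLinearMap.compL ℂ ((X × Y) →L[ℂ] ℂ) (Y →L[ℂ] ℂ) ℂ).flip
    ((ContinuousLinearMap.compL ℂ Y (X × Y) ℂ).flip (ContinuousLinearMap.inr ℂ X Y))
  pr_le := by
    intro y
    refine ContinuousLinearMap.opNorm_le_bound _ (norm_nonneg _) fun g => ?_
    refine (y.le_opNorm (g.comp (ContinuousLinearMap.snd ℂ X Y))).trans ?_
    exact mul_le_mul_of_nonneg_left (comp_snd_le g) (norm_nonneg _)
  pr_inj := by
    intro ψ
    ext g
    show ψ ((g.comp (ContinuousLinearMap.snd ℂ X Y)).comp (ContinuousLinearMap.inr ℂ X Y)) = ψ g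
    congr 1
  swap := by
    intro y ψ M hy hψ
    have hM : 0 ≤ M := (norm_nonneg _).trans hy
    refine ContinuousLinearMap.opNorm_le_bound _ hM fun φ => ?_
    have e1 : y φ - y ((φ.comp (ContinuousLinearMap.inr ℂ X Y)).comp
        (ContinuousLinearMap.snd ℂ X Y)) + ψ (φ.comp (ContinuousLinearMap.inr ℂ X Y)) =
        y ((φ.comp (ContinuousLinearMap.inl ℂ X Y)).comp (ContinuousLinearMap.fst ℂ X Y)) +
          ψ (φ.comp (ContinuousLinearMap.inr ℂ X Y)) := by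
      rw [← map_sub]
      congr 2
      exact sub_eq_of_eq_add (dual_decomp φ)
    show ‖y φ - y ((φ.comp (ContinuousLinearMap.inr ℂ X Y)).comp
        (ContinuousLinearMap.snd ℂ X Y)) + ψ (φ.comp (ContinuousLinearMap.inr ℂ X Y))‖ ≤ M * ‖φ‖
    rw [e1, norm_dual_prod φ, mul_add]
    refine (norm_add_le _ _).trans (add_le_add ?_ ?_)
    · refine (y.le_opNorm _).trans ?_
      exact mul_le_mul hy (comp_fst_le _) (norm_nonneg _) hM
    · refine (ψ.le_opNorm _).trans ?_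
      exact mul_le_mul_of_nonneg_right hψ (norm_nonneg _)

/-- `y φ = (pr₁ y) (φ ∘ inl) + (pr₂ y) (φ ∘ inr)` and `norm_dual_prod`. -/
theorem bid_prod_norm (y : Bid (X × Y)) {M : ℝ} (h1 : ‖(bidFst X Y).pr y‖ ≤ M)
    (h2 : ‖(bidSnd X Y).pr y‖ ≤ M) : ‖y‖ ≤ M := by
  have hM : 0 ≤ M := (norm_nonneg _).trans h1
  refine ContinuousLinearMap.opNorm_le_bound _ hM fun φ => ?_
  have e1 : y φ = (bidFst X Y).pr y (φ.comp (ContinuousLinearMap.inl ℂ X Y)) +
      (bidSnd X Y).pr y (φ.comp (ContinuousLinearMap.inr ℂ X Y)) := by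
    show y φ = y ((φ.comp (ContinuousLinearMap.inl ℂ X Y)).comp (ContinuousLinearMap.fst ℂ X Y)) +
      y ((φ.comp (ContinuousLinearMap.inr ℂ X Y)).comp (ContinuousLinearMap.snd ℂ X Y))
    rw [← map_add, ← dual_decomp φ]
  rw [e1, norm_dual_prod φ, mul_add]
  refine (norm_add_le _ _).trans (add_le_add ?_ ?_)
  · refine (ContinuousLinearMap.le_opNorm _ _).trans ?_
    exact mul_le_mul_of_nonneg_right h1 (norm_nonneg _)
  · refine (ContinuousLinearMap.le_opNorm _ _).trans ?_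
    exact mul_le_mul_of_nonneg_right h2 (norm_nonneg _)

/-- As `numIndex_prod`. -/
theorem numIndex_bid_prod (k : ℕ) [Nontrivial X] [Nontrivial Y] :
    numIndex ℂ (Bid (X × Y)) k = min (numIndex ℂ (Bid X) k) (numIndex ℂ (Bid Y) k) := by
  have hX : Nontrivial (Bid X) := inferInstance
  have hY : Nontrivial (Bid Y) := inferInstance
  have hXY : Nontrivial (Bid (X × Y)) := inferInstance
  refine le_antisymm (le_min (bidFst X Y).numIndex_le (bidSnd X Y).numIndex_le) ?_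
  refine le_numIndex fun A hA => ?_
  by_contra hcon
  push Not at hcon
  set m := min (numIndex ℂ (Bid X) k) (numIndex ℂ (Bid Y) k) with hm
  have hm0 : 0 < m := lt_of_le_of_lt (numRadius_nonneg A) hcon
  have hc : numRadius ℂ (Bid (X × Y)) A / m < polyNorm ℂ (Bid (X × Y)) A := by
    rw [hA, div_lt_one hm0]
    exact hcon
  obtain ⟨x, hx, hxA⟩ := MP_a7c449_an.exists_lt_norm_poly A _ hc
  have h3 : ∀ r : ℝ, m * r ≤ numRadius ℂ (Bid (X × Y)) A → r ≤ numRadius ℂ (Bid (X × Y)) A / m := by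
    intro r hr
    rw [le_div_iff₀ hm0, mul_comm]
    exact hr
  have h1 := (bidFst X Y).loc A x hx
  have h2 := (bidSnd X Y).loc A x hx
  have h4 := bid_prod_norm (A fun _ => x)
    (h3 _ (le_trans (mul_le_mul_of_nonneg_right (min_le_left _ _) (norm_nonneg _)) h1))
    (h3 _ (le_trans (mul_le_mul_of_nonneg_right (min_le_right _ _) (norm_nonneg _)) h2))
  exact absurd hxA (not_lt.2 h4)

/-- The canonical isometry `E → E**` (`NormedSpace.inclusionInDoubleDualLi`) is onto by dimensions;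
`numIndex_congr`. -/
theorem numIndex_bid_fd (k : ℕ) [FiniteDimensional ℂ X] : numIndex ℂ (Bid X) k = numIndex ℂ X k := by
  have hd : ∀ (Z : Type _) [NormedAddCommGroup Z] [NormedSpace ℂ Z] [FiniteDimensional ℂ Z],
      Module.finrank ℂ (StrongDual ℂ Z) = Module.finrank ℂ Z := by
    intro Z _ _ _
    have h1 := (LinearMap.toContinuousLinearMap (𝕜 := ℂ) (E := Z) (F' := ℂ)).finrank_eq
    rw [← h1]
    exact Subspace.dual_finrank_eq
  have h2 : Module.finrank ℂ X = Module.finrank ℂ (Bid X) := by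
    rw [hd, hd]
  exact (numIndex_congr ((NormedSpace.inclusionInDoubleDualLi ℂ (E := X)).toLinearIsometryEquiv h2)).symm

end Pool.Agent.Lib.MP_a7c449_an.Range
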