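import Pool.Agent.Lib.MP_a7c449_an.Range.Defs
import Pool.Agent.Lib.MP_a7c449_an.C0

/-! The space `c_0` is linearly homeomorphic to its square. -/

set_option autoImplicit false
set_option maxSynthPendingDepth 3

namespace Pool.Agent.Lib.MP_a7c449_an.Range

open scoped ZeroAtInfty

private theorem c0two_join (z w : C₀(ℕ, ℂ)) :
    ∃ f : C₀(ℕ, ℂ), ∀ n, f n = Sum.elim (fun m => z m) (fun m => w m) (Equiv.natSumNatEquivNat.symm n) := by
  apply exists_c0
  rw [← Nat.cofinite_eq_atTop]
  have h : Filter.Tendsto (Sum.elim (fun m => z m) (fun m => w m)) Filter.cofinite (nhds 0) := by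
    rw [Metric.tendsto_nhds]
    intro ε hε
    have hz := c0_tendsto z
    have hw := c0_tendsto w
    rw [← Nat.cofinite_eq_atTop, Metric.tendsto_nhds] at hz hw
    have h1 := hz ε hε
    have h2 := hw ε hε
    rw [Filter.eventually_cofinite] at h1 h2 ⊢
    refine ((h1.image Sum.inl).union (h2.image Sum.inr)).subset ?_
    rintro (a | a) ha
    · left; exact ⟨a, ha, rfl⟩
    · right; exact ⟨a, ha, rfl⟩
  exact h.comp Equiv.natSumNatEquivNat.symm.injective.tendsto_cofinite

private theorem c0two_part (e : ℕ → ℕ) (he : Function.Injective e) (f : C₀(ℕ, ℂ)) :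
    ∃ z : C₀(ℕ, ℂ), ∀ n, z n = f (e n) := by
  apply exists_c0
  have hf := c0_tendsto f
  rw [← Nat.cofinite_eq_atTop] at hf ⊢
  exact hf.comp he.tendsto_cofinite

private noncomputable def c0twoPart (e : ℕ → ℕ) (he : Function.Injective e) :
    C₀(ℕ, ℂ) →L[ℂ] C₀(ℕ, ℂ) :=
  LinearMap.mkContinuous
    { toFun := fun f => (c0two_part e he f).choose
      map_add' := fun f g => by
        ext n
        simp [(c0two_part e he (f + g)).choose_spec n, (c0two_part e he f).choose_spec n,
          (c0two_part e he g).choose_spec n]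
      map_smul' := fun c f => by
        ext n
        simp [(c0two_part e he (c • f)).choose_spec n, (c0two_part e he f).choose_spec n] } 1
    (fun f => by
      rw [one_mul]
      refine c0_norm_le _ _ (norm_nonneg _) (fun n => ?_)
      simp only [LinearMap.coe_mk, AddHom.coe_mk]
      rw [(c0two_part e he f).choose_spec n]
      exact norm_coord_le f _)

private theorem c0twoPart_apply (e : ℕ → ℕ) (he : Function.Injective e) (f : C₀(ℕ, ℂ)) (n : ℕ) :
    c0twoPart e he f n = f (e n) := (c0two_part e he f).choose_spec n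

private noncomputable def c0twoJoin : (C₀(ℕ, ℂ) × C₀(ℕ, ℂ)) →L[ℂ] C₀(ℕ, ℂ) :=
  LinearMap.mkContinuous
    { toFun := fun p => (c0two_join p.1 p.2).choose
      map_add' := fun p q => by
        ext n
        rw [ZeroAtInftyContinuousMap.add_apply, (c0two_join (p + q).1 (p + q).2).choose_spec n,
          (c0two_join p.1 p.2).choose_spec n, (c0two_join q.1 q.2).choose_spec n]
        rcases Equiv.natSumNatEquivNat.symm n with a | a <;> simp
      map_smul' := fun c p => by
        ext n
        rw [RingHom.id_apply, ZeroAtInftyContinuousMap.smul_apply,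
          (c0two_join (c • p).1 (c • p).2).choose_spec n, (c0two_join p.1 p.2).choose_spec n]
        rcases Equiv.natSumNatEquivNat.symm n with a | a <;> simp } 1
    (fun p => by
      rw [one_mul]
      refine c0_norm_le _ _ (norm_nonneg _) (fun n => ?_)
      simp only [LinearMap.coe_mk, AddHom.coe_mk]
      rw [(c0two_join p.1 p.2).choose_spec n]
      rcases Equiv.natSumNatEquivNat.symm n with a | a
      · exact (norm_coord_le p.1 a).trans (norm_fst_le p)
      · exact (norm_coord_le p.2 a).trans (norm_snd_le p))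

private theorem c0twoJoin_apply (p : C₀(ℕ, ℂ) × C₀(ℕ, ℂ)) (n : ℕ) :
    c0twoJoin p n = Sum.elim (fun m => p.1 m) (fun m => p.2 m) (Equiv.natSumNatEquivNat.symm n) :=
  (c0two_join p.1 p.2).choose_spec n

/-- `(z, w) ↦ (z 0, w 0, z 1, w 1, …)` is a linear isometry of `C₀(ℕ, ℂ) × C₀(ℕ, ℂ)` onto `C₀(ℕ, ℂ)` (`exists_c0`,
`norm_coord_le`, `c0_norm_le`, `c0_tendsto`; or compose with `Equiv.natSumNatEquivNat`). -/
theorem c0_two : Nonempty ((C₀(ℕ, ℂ) × C₀(ℕ, ℂ)) ≃L[ℂ] C₀(ℕ, ℂ)) := by
  have hl : Function.Injective (fun n : ℕ => Equiv.natSumNatEquivNat (Sum.inl n)) :=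
    Equiv.natSumNatEquivNat.injective.comp Sum.inl_injective
  have hr : Function.Injective (fun n : ℕ => Equiv.natSumNatEquivNat (Sum.inr n)) :=
    Equiv.natSumNatEquivNat.injective.comp Sum.inr_injective
  refine ⟨ContinuousLinearEquiv.equivOfInverse c0twoJoin
    ((c0twoPart _ hl).prod (c0twoPart _ hr)) ?_ ?_⟩
  · rintro ⟨z, w⟩
    ext n
    · simp only [ContinuousLinearMap.prod_apply]
      rw [c0twoPart_apply, c0twoJoin_apply]
      simp
    · simp only [ContinuousLinearMap.prod_apply]
      rw [c0twoPart_apply, c0twoJoin_apply]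
      simp
  · intro f
    ext n
    rw [c0twoJoin_apply]
    obtain ⟨s, rfl⟩ := Equiv.natSumNatEquivNat.surjective n
    rw [Equiv.symm_apply_apply]
    rcases s with a | a
    · simp only [Sum.elim_inl, ContinuousLinearMap.prod_apply]
      rw [c0twoPart_apply]
    · simp only [Sum.elim_inr, ContinuousLinearMap.prod_apply]
      rw [c0twoPart_apply]

end Pool.Agent.Lib.MP_a7c449_an.Range
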