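import Pool.Agent.Lib.MP_a7c449_an.Range.Defs

/-! Goldstine's theorem for finitely many functionals. -/

set_option autoImplicit false
set_option maxSynthPendingDepth 3

namespace Pool.Agent.Lib.MP_a7c449_an.Range

variable {X : Type*} [NormedAddCommGroup X] [NormedSpace ℂ X]

/-- Let `T x = (φ i x)_i` in `Fin n → ℂ`. If `(y (φ i))_i` is not in the closure of the image of the ball, separate
(`RCLike.geometric_hahn_banach_closed_point` or the real version for the closed convex set): there are `λ i` with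
`Re ∑ λ i z i ≤ 1 < Re ∑ λ i y (φ i)` for `z` in the image; with `φ = ∑ λ i • φ i` this gives `‖φ‖ ≤ 1` (rotate `x`), while
`‖y φ‖ ≤ ‖φ‖`. -/
theorem goldstine (y : Bid X) (hy : ‖y‖ ≤ 1) {n : ℕ} (φ : Fin n → StrongDual ℂ X) {ε : ℝ} (hε : 0 < ε) :
    ∃ x : X, ‖x‖ ≤ 1 ∧ ∀ i, ‖φ i x - y (φ i)‖ ≤ ε := by
  classical
  let T : X →L[ℂ] (Fin n → ℂ) := ContinuousLinearMap.pi φ
  let w : Fin n → ℂ := fun i => y (φ i)
  have hw : w ∈ closure (T '' Metric.closedBall 0 1) := by
    by_contra hw
    have hconv : Convex ℝ (closure (T '' Metric.closedBall (0 : X) 1)) := by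
      refine Convex.closure ?_
      have h1 : Convex ℝ (Metric.closedBall (0 : X) 1) := convex_closedBall _ _
      exact h1.linear_image (T.toLinearMap.restrictScalars ℝ)
    obtain ⟨f, u, hf, hu⟩ := RCLike.geometric_hahn_banach_closed_point (𝕜 := ℂ) hconv
      isClosed_closure hw
    have hball : ∀ x : X, ‖x‖ ≤ 1 → ‖f (T x)‖ ≤ u := by
      intro x hx
      by_cases h0 : f (T x) = 0
      · rw [h0, norm_zero]
        have := hf (T 0) (subset_closure ⟨0, by simp, rfl⟩)
        simp only [map_zero] at this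
        exact le_of_lt this
      · let c : ℂ := (starRingEnd ℂ) (f (T x)) / ‖f (T x)‖
        have hn : (‖f (T x)‖ : ℂ) ≠ 0 := by
          simpa using h0
        have hc : ‖c‖ = 1 := by
          simp only [c, norm_div, RCLike.norm_conj, Complex.norm_real, norm_norm]
          exact div_self (norm_ne_zero_iff.2 h0)
        have h1 := hf (T (c • x)) (subset_closure ⟨c • x, by
          rw [Metric.mem_closedBall, dist_zero_right, norm_smul, hc, one_mul]
          exact hx, rfl⟩)
        rw [map_smul, map_smul, smul_eq_mul] at h1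
        have h2 : c * f (T x) = (‖f (T x)‖ : ℂ) := by
          simp only [c]
          rw [div_mul_eq_mul_div, mul_comm, Complex.mul_conj, Complex.normSq_eq_norm_sq]
          rw [div_eq_iff hn]
          push_cast
          ring
        rw [h2] at h1
        have h3 : (RCLike.re ((‖f (T x)‖ : ℝ) : ℂ) : ℝ) = ‖f (T x)‖ := by simp
        rw [h3] at h1
        exact le_of_lt h1
    have hu0 : 0 ≤ u := (norm_nonneg _).trans (hball 0 (by simp))
    have hnorm : ‖f.comp T‖ ≤ u := by
      refine ContinuousLinearMap.opNorm_le_bound _ hu0 fun x => ?_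
      by_cases hx : x = 0
      · rw [hx]
        simp
      · have hxn : (‖x‖ : ℝ) ≠ 0 := norm_ne_zero_iff.2 hx
        have h1 := hball (((‖x‖ : ℝ) : ℂ)⁻¹ • x) (by
          rw [norm_smul, norm_inv, Complex.norm_real, norm_norm, inv_mul_cancel₀ hxn])
        rw [map_smul, map_smul, norm_smul, norm_inv, Complex.norm_real, norm_norm] at h1
        rw [ContinuousLinearMap.comp_apply]
        rw [inv_mul_le_iff₀ (lt_of_le_of_ne (norm_nonneg _) (Ne.symm hxn))] at h1
        linarith [mul_comm ‖x‖ u]
    have hcomp : f.comp T = ∑ i, (f (Pi.single i 1)) • φ i := by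
      ext x
      rw [ContinuousLinearMap.comp_apply, ContinuousLinearMap.sum_apply]
      have h1 := LinearMap.pi_apply_eq_sum_univ (f.toLinearMap) (T x)
      have h2 : f (T x) = ∑ i, T x i • f (fun j => if i = j then 1 else 0) := h1
      rw [h2]
      refine Finset.sum_congr rfl fun i _ => ?_
      rw [ContinuousLinearMap.smul_apply, smul_eq_mul, smul_eq_mul, mul_comm]
      have h3 : (fun j => if i = j then (1 : ℂ) else 0) = Pi.single i 1 := by
        ext j
        by_cases hij : i = j
        · subst hij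
          simp
        · rw [if_neg hij, Pi.single_eq_of_ne (Ne.symm hij)]
      rw [h3]
      rfl
    have hyf : y (f.comp T) = f w := by
      rw [hcomp, map_sum]
      have h1 := LinearMap.pi_apply_eq_sum_univ (f.toLinearMap) w
      have h2 : f w = ∑ i, w i • f (fun j => if i = j then 1 else 0) := h1
      rw [h2]
      refine Finset.sum_congr rfl fun i _ => ?_
      rw [map_smul, smul_eq_mul, smul_eq_mul, mul_comm]
      have h3 : (fun j => if i = j then (1 : ℂ) else 0) = Pi.single i 1 := by
        ext j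
        by_cases hij : i = j
        · subst hij
          simp
        · rw [if_neg hij, Pi.single_eq_of_ne (Ne.symm hij)]
      rw [h3]
    have h1 : ‖f w‖ ≤ u := by
      rw [← hyf]
      calc ‖y (f.comp T)‖ ≤ ‖y‖ * ‖f.comp T‖ := y.le_opNorm _
        _ ≤ 1 * u := mul_le_mul hy hnorm (norm_nonneg _) zero_le_one
        _ = u := one_mul _
    have h2 : RCLike.re (f w) ≤ ‖f w‖ := RCLike.re_le_norm _
    linarith
  obtain ⟨z, ⟨x, hx, rfl⟩, hz⟩ := Metric.mem_closure_iff.1 hw ε hε
  refine ⟨x, by simpa using hx, fun i => ?_⟩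
  have h1 : dist (w i) (T x i) ≤ dist w (T x) := dist_le_pi_dist _ _ i
  have h2 : dist (T x i) (w i) ≤ ε := by
    rw [dist_comm]
    exact h1.trans hz.le
  rw [dist_eq_norm] at h2
  exact h2

theorem goldstine_list (y : Bid X) (hy : ‖y‖ ≤ 1) (l : List (StrongDual ℂ X)) {ε : ℝ} (hε : 0 < ε) :
    ∃ x : X, ‖x‖ ≤ 1 ∧ ∀ φ ∈ l, ‖φ x - y φ‖ ≤ ε := by
  obtain ⟨x, hx, h⟩ := goldstine y hy (fun i : Fin l.length => l.get i) hε
  refine ⟨x, hx, fun φ hφ => ?_⟩
  obtain ⟨i, rfl⟩ := List.mem_iff_get.1 hφ
  exact h i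

end Pool.Agent.Lib.MP_a7c449_an.Range
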