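import Pool.Agent.Lib.MP_a7c449_an.Range.Euler
import Pool.Agent.Lib.MP_a7c449_an.Range.Gold

/-! The polynomial version of Goldstine's theorem (Davie and Gamelin). -/

set_option autoImplicit false
set_option maxSynthPendingDepth 3

namespace Pool.Agent.Lib.MP_a7c449_an.Range

variable {X : Type*} [NormedAddCommGroup X] [NormedSpace ℂ X]

/-- Take `C` from `euler_claim`, `ε'` and `N` with `C (ε' + ‖b‖/N) < ε`, `ε' < ε`. Choose `h j` by `goldstine_list` for the list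
`φ :: fl y (s j) n b` (a recursion: `s (j+1) = s j + (1/N) h j`, `h j` depends on `s j`), so `Good` holds
(`good_of_fl`) and `‖φ (h j) - y φ‖ ≤ ε'`. Take `x = s N`: `‖x‖ ≤ 1`, `φ x` is the mean of the `φ (h j)`, `j < N`. -/
theorem davie_gamelin (y : Bid X) (hy : ‖y‖ ≤ 1) {n : ℕ} {b : X [×n]→L[ℂ] ℂ} (hb : IsSym n b)
    (φ : StrongDual ℂ X) {ε : ℝ} (hε : 0 < ε) :
    ∃ x : X, ‖x‖ ≤ 1 ∧ ‖φ x - y φ‖ < ε ∧ ‖(b fun _ => x) - extL X n b fun _ => y‖ < ε := by
  obtain ⟨C, hC, hE⟩ := euler_claim (X := X) n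
  have hC1 : 0 < C + 1 := by linarith
  obtain ⟨ε', hε'⟩ : ∃ ε' : ℝ, ε' = ε / (2 * (C + 1)) := ⟨_, rfl⟩
  have hε'0 : 0 < ε' := by rw [hε']; positivity
  have hε'C : (C + 1) * ε' = ε / 2 := by rw [hε']; field_simp
  have hε'1 : ε' < ε := by nlinarith
  obtain ⟨N, hN⟩ := exists_nat_gt (2 * (C + 1) * (‖b‖ + 1) / ε)
  have hNpos : (0 : ℝ) < N := lt_trans (by positivity) hN
  have hN0 : 0 < N := by exact_mod_cast hNpos
  have hNb : (C + 1) * (‖b‖ / N) < ε / 2 := by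
    rw [div_lt_iff₀ hε] at hN
    have h1 : (C + 1) * (‖b‖ / N) = ((C + 1) * ‖b‖) / N := by ring
    rw [h1, div_lt_iff₀ hNpos]
    nlinarith
  choose H hH1 hH2 using fun s : X => goldstine_list y hy (φ :: fl y s n b) hε'0
  let s : ℕ → X := fun j => Nat.rec (motive := fun _ => X) 0 (fun _ x => x + ((1 : ℂ) / N) • H x) j
  have hs0 : s 0 = 0 := rfl
  have hs1 : ∀ j, s (j + 1) = s j + ((1 : ℂ) / N) • H (s j) := fun j => rfl
  have hN1 : ‖((1 : ℂ) / N)‖ = 1 / N := by simp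
  have hNC : (N : ℂ) ≠ 0 := by exact_mod_cast hN0.ne'
  have hsn : ∀ j, ‖s j‖ ≤ j / N := by
    intro j
    induction j with
    | zero => rw [hs0]; simp
    | succ j ih =>
      rw [hs1]
      calc ‖s j + ((1 : ℂ) / N) • H (s j)‖ ≤ ‖s j‖ + ‖((1 : ℂ) / N) • H (s j)‖ := norm_add_le _ _
        _ ≤ j / N + 1 / N * 1 := by
            rw [norm_smul, hN1]
            exact add_le_add ih (mul_le_mul_of_nonneg_left (hH1 _) (by positivity))
        _ = ((j + 1 : ℕ) : ℝ) / N := by push_cast; ring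
  have hsφ : ∀ j, ‖φ (s j) - ((j : ℂ) / N) * y φ‖ ≤ j / N * ε' := by
    intro j
    induction j with
    | zero => rw [hs0]; simp
    | succ j ih =>
      rw [hs1, map_add, map_smul]
      have e1 : φ (s j) + ((1 : ℂ) / N) • φ (H (s j)) - (((j + 1 : ℕ) : ℂ) / N) * y φ =
          (φ (s j) - ((j : ℂ) / N) * y φ) + ((1 : ℂ) / N) * (φ (H (s j)) - y φ) := by
        rw [smul_eq_mul]; push_cast; ring
      rw [e1]
      have h2 : ‖φ (H (s j)) - y φ‖ ≤ ε' := hH2 (s j) φ List.mem_cons_self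
      calc ‖(φ (s j) - ((j : ℂ) / N) * y φ) + ((1 : ℂ) / N) * (φ (H (s j)) - y φ)‖
          ≤ ‖φ (s j) - ((j : ℂ) / N) * y φ‖ + ‖((1 : ℂ) / N) * (φ (H (s j)) - y φ)‖ := norm_add_le _ _
        _ ≤ j / N * ε' + 1 / N * ε' := by
            rw [norm_mul, hN1]
            exact add_le_add ih (mul_le_mul_of_nonneg_left h2 (by positivity))
        _ = ((j + 1 : ℕ) : ℝ) / N * ε' := by push_cast; ring
  have hNN : (N : ℝ) / N = 1 := div_self hNpos.ne'
  have hNNC : (N : ℂ) / N = 1 := div_self hNC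
  refine ⟨s N, ?_, ?_, ?_⟩
  · have := hsn N
    rwa [hNN] at this
  · have := hsφ N
    rw [hNN, hNNC, one_mul, one_mul] at this
    exact lt_of_le_of_lt this hε'1
  · have h3 := hE y hy b hb N hN0 ε' hε'0.le s (fun j => H (s j)) hs0 hs1 (fun j => hH1 _)
      (fun j _ => good_of_fl y (s j) (H (s j)) ε' b
        (fun ψ hψ => hH2 (s j) ψ (List.mem_cons_of_mem _ hψ))) N le_rfl
    rw [hNNC, one_pow, one_mul] at h3
    refine lt_of_le_of_lt h3 ?_
    have hb0 : 0 ≤ ‖b‖ / N := by positivity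
    nlinarith [norm_nonneg b]

end Pool.Agent.Lib.MP_a7c449_an.Range
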