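import Pool.Agent.Lib.MP_a7c449_an.Defs

/-! Definitions for the exact range of the polynomial numerical indices of a space and its bidual. -/

set_option autoImplicit false
set_option maxSynthPendingDepth 3

namespace Pool.Agent.Lib.MP_a7c449_an.Range

/-- The bidual. -/
abbrev Bid (X : Type*) [NormedAddCommGroup X] [NormedSpace ℂ X] : Type _ := StrongDual ℂ (StrongDual ℂ X)

/-- `G` is a summand of `Y` in the sense of maximum norms: the component `pr y` can be replaced by any other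
element of the ball. -/
structure Summand (Y G : Type*) [NormedAddCommGroup Y] [NormedSpace ℂ Y] [NormedAddCommGroup G]
    [NormedSpace ℂ G] where
  /-- the projection -/
  pr : Y →L[ℂ] G
  /-- the injection -/
  inj : G →L[ℂ] Y
  pr_le : ∀ y, ‖pr y‖ ≤ ‖y‖
  pr_inj : ∀ g, pr (inj g) = g
  swap : ∀ (y : Y) (g : G) (M : ℝ), ‖y‖ ≤ M → ‖g‖ ≤ M → ‖y - inj (pr y) + inj g‖ ≤ M

/-- `X` is (isometrically) the space of all `(z, f)`, `z` in `c_0`, `f` in `F`, with the norm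
`sup_n |z_n + ω_n(f)|`, where `ω_n` are functionals of norm at most one on `F` with
`limsup |ω_n(f)| = ‖f‖` for every `f`. Here `ev n` is `(z, f) ↦ z_n + ω_n(f)`, `q` is `(z, f) ↦ f`,
`J f = (0, f)` and `e n` is the unit vector of `c_0`. -/
structure MF (X F : Type*) [NormedAddCommGroup X] [NormedSpace ℂ X] [NormedAddCommGroup F]
    [NormedSpace ℂ F] where
  /-- the coordinates -/
  ev : ℕ → (X →L[ℂ] ℂ)
  /-- the unit vectors -/
  e : ℕ → X
  /-- the quotient map -/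
  q : X →L[ℂ] F
  /-- the lifting -/
  J : F →L[ℂ] X
  ev_le : ∀ n x, ‖ev n x‖ ≤ ‖x‖
  q_le : ∀ x, ‖q x‖ ≤ ‖x‖
  norm_le : ∀ (x : X) (M : ℝ), 0 ≤ M → (∀ n, ‖ev n x‖ ≤ M) → ‖x‖ ≤ M
  ev_e : ∀ m n, ev m (e n) = if m = n then 1 else 0
  q_e : ∀ n, q (e n) = 0
  q_J : ∀ f, q (J f) = f
  norm_J : ∀ f, ‖J f‖ ≤ ‖f‖
  tend : ∀ x, Filter.Tendsto (fun n => ev n (x - J (q x))) Filter.atTop (nhds 0)

end Pool.Agent.Lib.MP_a7c449_an.Range
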