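import Pool.Agent.Lib.MP_a7c449_an.Range.NkProp

/-! A path of norms on `ℂ²` from the maximum norm to the norm of Harris. -/

set_option autoImplicit false
set_option maxSynthPendingDepth 3

namespace Pool.Agent.Lib.MP_a7c449_an.Range

/-- The norms. -/
noncomputable def Nt (m : ℕ) (τ : ℝ) (x : ℂ × ℂ) : ℝ :=
  (1 - τ) * max ‖x.1‖ ‖x.2‖ + τ * Nk m ‖x.1‖ ‖x.2‖

/-- `ℂ²` with the norm `Nt m τ`. -/
def En (_m : ℕ) (_τ : unitInterval) : Type := ℂ × ℂ

variable (m : ℕ) (τ : unitInterval)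

instance : AddCommGroup (En m τ) := inferInstanceAs (AddCommGroup (ℂ × ℂ))

instance : Module ℂ (En m τ) := inferInstanceAs (Module ℂ (ℂ × ℂ))

noncomputable instance : Norm (En m τ) := ⟨fun x => Nt m τ (x : ℂ × ℂ)⟩

theorem En.norm_def (x : En m τ) : ‖x‖ = Nt m τ (x : ℂ × ℂ) := rfl

private theorem En_nonneg (x : ℂ × ℂ) : 0 ≤ Nt m τ x := by
  have h0 := τ.2.1
  have h1 := τ.2.2
  have h2 := max_le_Nk m (norm_nonneg x.1) (norm_nonneg x.2)
  have h3 : 0 ≤ max ‖x.1‖ ‖x.2‖ := (norm_nonneg x.1).trans (le_max_left _ _)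
  unfold Nt
  exact add_nonneg (mul_nonneg (by linarith) h3) (mul_nonneg h0 (h3.trans h2))

private theorem En_ge (x : ℂ × ℂ) : max ‖x.1‖ ‖x.2‖ ≤ Nt m τ x := by
  have h0 := τ.2.1
  have h2 := max_le_Nk m (norm_nonneg x.1) (norm_nonneg x.2)
  unfold Nt
  have := mul_le_mul_of_nonneg_left h2 h0
  linarith

private theorem En_smul (c : ℂ) (x : ℂ × ℂ) : Nt m τ (c • x) = ‖c‖ * Nt m τ x := by
  unfold Nt
  rw [Prod.smul_fst, Prod.smul_snd, norm_smul, norm_smul,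
    Nk_mul m (norm_nonneg x.1) (norm_nonneg x.2) (norm_nonneg c),
    ← mul_max_of_nonneg _ _ (norm_nonneg c)]
  ring

private theorem En_add (x y : ℂ × ℂ) : Nt m τ (x + y) ≤ Nt m τ x + Nt m τ y := by
  have h0 := τ.2.1
  have h1 := τ.2.2
  have ha : ‖(x + y).1‖ ≤ ‖x.1‖ + ‖y.1‖ := norm_add_le _ _
  have hb : ‖(x + y).2‖ ≤ ‖x.2‖ + ‖y.2‖ := norm_add_le _ _
  have h2 : Nk m ‖(x + y).1‖ ‖(x + y).2‖ ≤ Nk m ‖x.1‖ ‖x.2‖ + Nk m ‖y.1‖ ‖y.2‖ :=
    (Nk_mono m (norm_nonneg _) (norm_nonneg _) ha hb).trans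
      (Nk_add m (norm_nonneg _) (norm_nonneg _) (norm_nonneg _) (norm_nonneg _))
  have h3 : max ‖(x + y).1‖ ‖(x + y).2‖ ≤ max ‖x.1‖ ‖x.2‖ + max ‖y.1‖ ‖y.2‖ :=
    max_le (ha.trans (add_le_add (le_max_left _ _) (le_max_left _ _)))
      (hb.trans (add_le_add (le_max_right _ _) (le_max_right _ _)))
  unfold Nt
  have h4 := mul_le_mul_of_nonneg_left h2 h0
  have h5 := mul_le_mul_of_nonneg_left h3 (sub_nonneg.2 h1)
  linarith

/-- From `Nk_add`, `Nk_mono`, `Nk_mul`, `max_le_Nk`. -/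
theorem En.core : NormedSpace.Core ℂ (En m τ) where
  norm_nonneg x := En_nonneg m τ x
  norm_smul c x := En_smul m τ c x
  norm_triangle x y := En_add m τ x y
  norm_eq_zero_iff x := by
    refine ⟨fun h => ?_, fun h => ?_⟩
    · have h1 : max ‖(x : ℂ × ℂ).1‖ ‖(x : ℂ × ℂ).2‖ ≤ 0 := (En_ge m τ x).trans h.le
      have h2 := (le_max_left ‖(x : ℂ × ℂ).1‖ ‖(x : ℂ × ℂ).2‖).trans h1
      have h3 := (le_max_right ‖(x : ℂ × ℂ).1‖ ‖(x : ℂ × ℂ).2‖).trans h1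
      exact Prod.ext (norm_le_zero_iff.1 h2) (norm_le_zero_iff.1 h3)
    · subst h
      have h1 := En_smul m τ 0 0
      rw [norm_zero, zero_mul, smul_zero] at h1
      exact h1

noncomputable instance : NormedAddCommGroup (En m τ) := NormedAddCommGroup.ofCore (En.core m τ)

noncomputable instance : NormedSpace ℂ (En m τ) := NormedSpace.ofCore (En.core m τ)

instance : FiniteDimensional ℂ (En m τ) := inferInstanceAs (FiniteDimensional ℂ (ℂ × ℂ))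

instance : Nontrivial (En m τ) := inferInstanceAs (Nontrivial (ℂ × ℂ))

instance : CompleteSpace (En m τ) := FiniteDimensional.complete ℂ (En m τ)

/-- The identity. -/
def En.id : En m τ ≃ₗ[ℂ] (ℂ × ℂ) := LinearEquiv.refl ℂ (ℂ × ℂ)

/-- The identity between two of the spaces. -/
def En.id₂ (m : ℕ) (τ σ : unitInterval) : En m τ ≃ₗ[ℂ] En m σ := LinearEquiv.refl ℂ (ℂ × ℂ)

end Pool.Agent.Lib.MP_a7c449_an.Range
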