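import Pool.Agent.Lib.MP_a7c449_an.Range.En

/-! The index of Harris' plane. -/

set_option autoImplicit false
set_option maxSynthPendingDepth 3

namespace Pool.Agent.Lib.MP_a7c449_an.Range

private theorem EnOne_norm (m : ℕ) (x : En m 1) : ‖x‖ = Nk m ‖(x : ℂ × ℂ).1‖ ‖(x : ℂ × ℂ).2‖ := by
  have h3 : ‖x‖ = Nt m (1 : unitInterval) (x : ℂ × ℂ) := rfl
  rw [h3]
  unfold Nt
  simp

/-- Let `(x, f)` be a state of `En m 1` (`Nt m 1 x = Nk ‖x.1‖ ‖x.2‖`), `u = ‖x.1‖`, `v = ‖x.2‖`, `f₁ = f (1, 0)`.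
For `0 < d` choose `ω`, `‖ω‖ = 1`, with `ω f₁ = ‖f₁‖`; then `1 + d ‖f₁‖ = Re f (x + d ω (1, 0)) ≤ Nk (u + d) v`
(`Nk_mono`), so by `Nk_diff` (`Nk u v = 1`) `v^k ‖f₁‖ ≤ c Nk (u+d) v ^ k ≤ c (1 + d)^k` (`Nk_add`, `Nk d 0 ≤ d`).
Let `d → 0`. -/
theorem En.state_le (m : ℕ) {x : En m 1} {f : StrongDual ℂ (En m 1)} (hx : ‖x‖ = 1) (hf : ‖f‖ = 1) (hfx : f x = 1) :
    ‖(x : ℂ × ℂ).2‖ ^ (m + 2) * ‖f (((1, 0) : ℂ × ℂ) : En m 1)‖ ≤ cc m := by
  set e : En m 1 := ((1, 0) : ℂ × ℂ) with he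
  set u := ‖(x : ℂ × ℂ).1‖ with hu
  set v := ‖(x : ℂ × ℂ).2‖ with hv
  have hu0 : 0 ≤ u := norm_nonneg _
  have hv0 : 0 ≤ v := norm_nonneg _
  have hN : Nk m u v = 1 := by rw [← hx, EnOne_norm]
  have hc := cc_pos m
  have key : ∀ d : ℝ, 0 < d → v ^ (m + 2) * ‖f e‖ ≤ cc m * (1 + d) ^ (m + 2) := by
    intro d hd
    obtain ⟨ω, hω, hω2⟩ : ∃ ω : ℂ, ‖ω‖ = 1 ∧ ω * f e = ((‖f e‖ : ℝ) : ℂ) := by
      by_cases h0 : f e = 0
      · exact ⟨1, by simp, by simp [h0]⟩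
      · refine ⟨((‖f e‖ : ℝ) : ℂ) / f e, ?_, ?_⟩
        · have : ‖f e‖ ≠ 0 := by simpa using h0
          rw [norm_div, Complex.norm_real, norm_norm, div_self this]
        · rw [div_mul_cancel₀ _ h0]
    have h1 : f (x + ((d : ℂ) * ω) • e) = ((1 + d * ‖f e‖ : ℝ) : ℂ) := by
      rw [map_add, map_smul, hfx, smul_eq_mul, mul_assoc, hω2]
      push_cast
      ring
    have h2 : 1 + d * ‖f e‖ ≤ ‖x + ((d : ℂ) * ω) • e‖ := by
      have h3 := f.le_opNorm (x + ((d : ℂ) * ω) • e)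
      rw [h1, hf, one_mul, Complex.norm_real, Real.norm_eq_abs] at h3
      exact (le_abs_self _).trans h3
    have h4 : ‖x + ((d : ℂ) * ω) • e‖ ≤ Nk m (u + d) v := by
      rw [EnOne_norm]
      have e1 : ((x + ((d : ℂ) * ω) • e : En m 1) : ℂ × ℂ).1 = (x : ℂ × ℂ).1 + ((d : ℂ) * ω) * 1 := rfl
      have e2 : ((x + ((d : ℂ) * ω) • e : En m 1) : ℂ × ℂ).2 = (x : ℂ × ℂ).2 + ((d : ℂ) * ω) * 0 := rfl
      rw [e1, e2, mul_one, mul_zero, add_zero]
      refine Nk_mono m (norm_nonneg _) hv0 ?_ le_rfl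
      refine (norm_add_le _ _).trans ?_
      rw [norm_mul, hω, mul_one, Complex.norm_real, Real.norm_eq_abs, abs_of_pos hd]
    have h5 : Nk m (u + d) v ≤ 1 + d := by
      have h6 := Nk_add m hu0 hv0 hd.le le_rfl
      have h7 := Nk_le_add m hd.le (le_refl (0 : ℝ))
      rw [add_zero] at h6 h7
      linarith
    have h8 : 0 ≤ Nk m (u + d) v := by
      have := max_le_Nk m (add_nonneg hu0 hd.le) hv0
      exact ((add_nonneg hu0 hd.le).trans (le_max_left _ _)).trans this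
    have h9 := Nk_diff m hu0 hv0 hd.le
    rw [hN] at h9
    have h10 : v ^ (m + 2) * (d * ‖f e‖) ≤ v ^ (m + 2) * (Nk m (u + d) v - 1) :=
      mul_le_mul_of_nonneg_left (by linarith) (by positivity)
    have h11 : cc m * d * Nk m (u + d) v ^ (m + 2) ≤ cc m * d * (1 + d) ^ (m + 2) := by
      gcongr
    have h12 : d * (v ^ (m + 2) * ‖f e‖) ≤ d * (cc m * (1 + d) ^ (m + 2)) := by
      nlinarith [h9, h10, h11]
    exact le_of_mul_le_mul_left h12 hd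
  have hlim : Filter.Tendsto (fun d : ℝ => cc m * (1 + d) ^ (m + 2)) (nhdsWithin 0 (Set.Ioi 0)) (nhds (cc m)) := by
    have h1 : Continuous fun d : ℝ => cc m * (1 + d) ^ (m + 2) := by fun_prop
    have h2 := h1.tendsto 0
    simp only [add_zero, one_pow, mul_one] at h2
    exact h2.mono_left nhdsWithin_le_nhds
  refine ge_of_tendsto hlim ?_
  filter_upwards [self_mem_nhdsWithin] with d hd
  exact key d hd

/-- The polynomial `P x = (x₂^k, 0)`, `k = m + 2` (from `ContinuousMultilinearMap.mkPiAlgebra`, composed with the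
continuous linear functional `x ↦ x₂`, and `smulRight`). Its norm is at least `1` (at `(0, 1)`, whose norm is at most
`1` by `Nk_le_add`), and `‖f (P x)‖ = ‖x₂‖^k ‖f (1, 0)‖ ≤ c` for every state (`En.state_le`). `numIndex_mul_le`. -/
theorem En.one (m : ℕ) : numIndex ℂ (En m 1) (m + 2) ≤ cc m := by
  let e : En m 1 := ((1, 0) : ℂ × ℂ)
  let s : En m 1 →L[ℂ] ℂ :=
    LinearMap.toContinuousLinearMap ((LinearMap.snd ℂ ℂ ℂ).comp (En.id m 1).toLinearMap)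
  let A : (En m 1) [×(m + 2)]→L[ℂ] (En m 1) :=
    ((ContinuousMultilinearMap.mkPiAlgebra ℂ (Fin (m + 2)) ℂ).compContinuousLinearMap fun _ => s).smulRight e
  have hA : ∀ x : En m 1, (A fun _ => x) = ((x : ℂ × ℂ).2) ^ (m + 2) • e := by
    intro x
    have : (A fun _ => x) = (∏ _i : Fin (m + 2), (x : ℂ × ℂ).2) • e := rfl
    rw [this, Finset.prod_const, Finset.card_univ, Fintype.card_fin]
  have h1 : 1 ≤ polyNorm ℂ (En m 1) A := by
    let y : En m 1 := ((0, 1) : ℂ × ℂ)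
    have hy : ‖y‖ ≤ 1 := by
      rw [EnOne_norm]
      have h2 := Nk_le_add m (norm_nonneg ((0 : ℂ))) (norm_nonneg (1 : ℂ))
      have e1 : ‖(0 : ℂ)‖ + ‖(1 : ℂ)‖ = 1 := by simp
      rw [e1] at h2
      exact h2
    refine le_trans ?_ (le_polyNorm A hy)
    rw [hA, EnOne_norm]
    have e1 : (((y : ℂ × ℂ).2) ^ (m + 2) • e : En m 1) = ((((1 : ℂ) ^ (m + 2) * 1, (1 : ℂ) ^ (m + 2) * 0) : ℂ × ℂ) : En m 1) := rfl
    rw [e1]
    have h2 := max_le_Nk m (norm_nonneg ((1 : ℂ) ^ (m + 2) * 1)) (norm_nonneg ((1 : ℂ) ^ (m + 2) * 0))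
    refine le_trans ?_ ((le_max_left _ _).trans h2)
    simp
  have h2 : numRadius ℂ (En m 1) A ≤ cc m := by
    refine numRadius_le A (cc_pos m).le ?_
    intro x f hx hf hfx
    rw [hA, map_smul, smul_eq_mul, norm_mul, norm_pow]
    exact En.state_le m hx hf hfx
  have h3 := numIndex_mul_le A
  have h4 : 0 ≤ numIndex ℂ (En m 1) (m + 2) := numIndex_nonneg
  nlinarith [mul_le_mul_of_nonneg_left h1 h4]

end Pool.Agent.Lib.MP_a7c449_an.Range
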