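import Pool.Agent.Lib.MP_a7c449_an.Range.EnPath
import Pool.Agent.Lib.MP_a7c449_an.Range.EnOne

/-! The index along the path takes all values between `c_k` and `1`. -/

set_option autoImplicit false
set_option maxSynthPendingDepth 3

namespace Pool.Agent.Lib.MP_a7c449_an.Range

/-- Intermediate value theorem: `τ ↦ numIndex ℂ (En m τ) k` is continuous on the unit interval (`En.near`), `= 1` at
`0`, `≤ c` at `1`. -/
theorem En.exists_eq (m : ℕ) {s : ℝ} (h1 : cc m ≤ s) (h2 : s ≤ 1) :
    ∃ τ : unitInterval, numIndex ℂ (En m τ) (m + 2) = s := by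
  have hc : Continuous fun τ : unitInterval => numIndex ℂ (En m τ) (m + 2) := by
    rw [Metric.continuous_iff]
    intro τ η hη
    obtain ⟨ε, h0, h⟩ := En.near m (m + 2) (half_pos hη)
    refine ⟨ε, h0, fun σ hσ => ?_⟩
    rw [Real.dist_eq]
    have h3 : |(σ : ℝ) - τ| ≤ ε := by
      have : dist σ τ = |(σ : ℝ) - τ| := by
        rw [Subtype.dist_eq, Real.dist_eq]
      rw [← this]
      exact hσ.le
    exact (h σ τ h3).trans_lt (half_lt_self hη)
  have h3 : s ∈ Set.Icc (numIndex ℂ (En m 1) (m + 2)) (numIndex ℂ (En m 0) (m + 2)) :=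
    ⟨(En.one m).trans h1, by rw [En.zero]; exact h2⟩
  exact mem_range_of_exists_le_of_exists_ge hc ⟨1, h3.1⟩ ⟨0, h3.2⟩

end Pool.Agent.Lib.MP_a7c449_an.Range
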