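import Pool.Agent.Lib.MP_a7c449_an.Range.Growth

/-! Continuity of the index with respect to the Banach-Mazur distance. -/

set_option autoImplicit false
set_option maxSynthPendingDepth 3

namespace Pool.Agent.Lib.MP_a7c449_an.Range

/-- The bound of `near_one`. -/
noncomputable def nb (k : ℕ) (ε δ v : ℝ) : ℝ :=
  (1 + ε) ^ k / (1 - ε) * (((1 + ε) / (1 - ε) - 1) / δ +
    (1 + ε) * (v * (1 / (1 - ε) + δ * 2 ^ k) ^ k + 2 * 6 ^ k * δ))

/-- Let `v = numRadius A`, `B = T ∘ A ∘ (T⁻¹, …, T⁻¹)`. For `‖y‖ ≤ 1` let `x = T⁻¹ y`, `‖x‖ ≤ ρ = 1/(1-ε) ≤ 2`: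
`y + z B y … = T (x + z A x …)`, so by `growth`, for `‖z‖ = δ`,
`‖y + z B y …‖ ≤ (1+ε) (ρ + δ (v (ρ + δ 2^k)^k + 2 * 6^k δ)) =: g`, and `state_bound` gives `δ * numRadius B ≤ g - 1`.
Moreover `(1-ε)/(1+ε)^k ≤ polyNorm B` (test `y = T x / (1+ε)`, `‖x‖ ≤ 1`), and
`numIndex Y * polyNorm B ≤ numRadius B` by `numIndex_mul_le`. -/
theorem near_one {X Y : Type*} [NormedAddCommGroup X] [NormedSpace ℂ X] [NormedAddCommGroup Y] [NormedSpace ℂ Y]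
    [Nontrivial Y] {k : ℕ} (T : X ≃L[ℂ] Y) {ε δ : ℝ} (h0 : 0 ≤ ε) (h1 : ε ≤ 1 / 2) (hδ : 0 < δ)
    (hδ' : δ * 2 ^ k ≤ 1 / 2) (hl : ∀ x, (1 - ε) * ‖x‖ ≤ ‖T x‖) (hu : ∀ x, ‖T x‖ ≤ (1 + ε) * ‖x‖)
    (A : X [×k]→L[ℂ] X) (hA : polyNorm ℂ X A = 1) :
    numIndex ℂ Y k ≤ nb k ε δ (numRadius ℂ X A) := by
  have he : 0 < 1 - ε := by linarith
  set ρ : ℝ := 1 / (1 - ε) with hρ
  have hρ1 : 1 ≤ ρ := by rw [hρ, le_div_iff₀ he]; linarith
  have hρ2 : ρ ≤ 2 := by rw [hρ, div_le_iff₀ he]; linarith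
  have hρ0 : 0 ≤ ρ := by linarith
  set v : ℝ := numRadius ℂ X A with hv
  have hv0 : 0 ≤ v := numRadius_nonneg A
  set B : Y [×k]→L[ℂ] Y := (T : X →L[ℂ] Y).compContinuousMultilinearMap
    (A.compContinuousLinearMap (fun _ => (T.symm : Y →L[ℂ] X))) with hB
  have hBy : ∀ y : Y, (B fun _ => y) = T (A fun _ => T.symm y) := fun y => rfl
  have hx : ∀ y : Y, ‖y‖ ≤ 1 → ‖T.symm y‖ ≤ ρ := by
    intro y hy
    have h2 := hl (T.symm y)
    rw [T.apply_symm_apply] at h2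
    rw [hρ, le_div_iff₀ he]
    linarith
  set w : ℝ := ρ + δ * (v * (ρ + δ * 2 ^ k) ^ k + 2 * 6 ^ k * δ) with hw
  have hsb := state_bound B (δ := δ) (g := (1 + ε) * w) hδ (by
    intro y hy z hz
    have h3 := growth A hA.le hρ1 hρ2 (hx y hy) (z := z) (by rw [hz]; exact hδ')
    rw [hz] at h3
    have h4 : y + z • (B fun _ => y) = T (T.symm y + z • A fun _ => T.symm y) := by
      rw [map_add, map_smul, T.apply_symm_apply, hBy]
    rw [h4]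
    exact (hu _).trans (mul_le_mul_of_nonneg_left h3 (by linarith)))
  have hpn : 1 ≤ (1 + ε) ^ k / (1 - ε) * polyNorm ℂ Y B := by
    suffices h : polyNorm ℂ X A ≤ (1 + ε) ^ k / (1 - ε) * polyNorm ℂ Y B by rwa [hA] at h
    refine polyNorm_le A fun x hx1 => ?_
    have he1 : (0 : ℝ) < 1 + ε := by linarith
    have hc : ((((1 + ε)⁻¹ : ℝ)) : ℂ) ≠ 0 := by
      rw [Complex.ofReal_ne_zero]; exact inv_ne_zero he1.ne'
    have hcn : ‖((((1 + ε)⁻¹ : ℝ)) : ℂ)‖ = (1 + ε)⁻¹ := by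
      rw [Complex.norm_real, Real.norm_eq_abs, abs_of_pos (inv_pos.mpr he1)]
    have h5 : ‖((((1 + ε)⁻¹ : ℝ)) : ℂ) • T x‖ ≤ 1 := by
      rw [norm_smul, hcn, inv_mul_le_iff₀ he1]
      have := hu x
      nlinarith
    have h6 := le_polyNorm B h5
    have h7 : (B fun _ => ((((1 + ε)⁻¹ : ℝ)) : ℂ) • T x) =
        ((((1 + ε)⁻¹ : ℝ)) : ℂ) ^ k • T (A fun _ => x) := by
      rw [apply_smul, hBy, T.symm_apply_apply]
    rw [h7, norm_smul, norm_pow, hcn] at h6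
    have h8 := hl (A fun _ => x)
    have h9 : (1 + ε)⁻¹ ^ k * ((1 - ε) * ‖A fun _ => x‖) ≤ polyNorm ℂ Y B :=
      (mul_le_mul_of_nonneg_left h8 (by positivity)).trans h6
    calc ‖A fun _ => x‖ = (1 + ε) ^ k / (1 - ε) * ((1 + ε)⁻¹ ^ k * ((1 - ε) * ‖A fun _ => x‖)) := by
          rw [inv_pow]
          have : (1 + ε) ^ k ≠ 0 := (pow_pos he1 k).ne'
          field_simp
      _ ≤ (1 + ε) ^ k / (1 - ε) * polyNorm ℂ Y B :=
          mul_le_mul_of_nonneg_left h9 (by positivity)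
  have hni := numIndex_mul_le B
  have hn0 : 0 ≤ numIndex ℂ Y k := numIndex_nonneg
  have hq : 0 ≤ (1 + ε) ^ k / (1 - ε) := by positivity
  have hsb' : numRadius ℂ Y B ≤ ((1 + ε) * w - 1) / δ := by
    rw [le_div_iff₀ hδ]; linarith
  calc numIndex ℂ Y k = numIndex ℂ Y k * 1 := (mul_one _).symm
    _ ≤ numIndex ℂ Y k * ((1 + ε) ^ k / (1 - ε) * polyNorm ℂ Y B) :=
        mul_le_mul_of_nonneg_left hpn hn0
    _ = (1 + ε) ^ k / (1 - ε) * (numIndex ℂ Y k * polyNorm ℂ Y B) := by ring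
    _ ≤ (1 + ε) ^ k / (1 - ε) * (((1 + ε) * w - 1) / δ) :=
        mul_le_mul_of_nonneg_left (hni.trans hsb') hq
    _ = nb k ε δ v := by
        have h10 : (1 + ε) / (1 - ε) = (1 + ε) * ρ := by rw [hρ]; ring
        unfold nb
        rw [← hρ, h10, hw]
        generalize (ρ + δ * 2 ^ k) ^ k = Q
        generalize (1 + ε) ^ k / (1 - ε) = E
        field_simp
        ring

/-- `nb k ε δ v - v = F ε δ + (G ε δ - 1) v ≤ F ε δ + |G ε δ - 1|` for `0 ≤ v ≤ 1`. For `ε → 0` (`δ > 0` fixed) the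
bound tends to `2 * 6^k δ + (1 + δ 2^k)^k - 1`, which tends to `0` for `δ → 0`. First choose `δ`, then `ε`. -/
theorem exists_nb (k : ℕ) {η : ℝ} (hη : 0 < η) : ∃ ε δ : ℝ, 0 < ε ∧ ε ≤ 1 / 2 ∧ 0 < δ ∧ δ * 2 ^ k ≤ 1 / 2 ∧
    ∀ v : ℝ, 0 ≤ v → v ≤ 1 → nb k ε δ v ≤ v + η := by
  have e1 : ∀ᶠ δ : ℝ in nhdsWithin 0 (Set.Ioi 0),
      2 * 6 ^ k * δ + |(1 + δ * 2 ^ k) ^ k - 1| < η / 2 := by
    have hc : ContinuousAt (fun δ : ℝ => 2 * 6 ^ k * δ + |(1 + δ * 2 ^ k) ^ k - 1|) 0 := by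
      fun_prop
    have := hc.tendsto
    simp only [mul_zero, zero_mul, add_zero, one_pow, sub_self, abs_zero] at this
    exact (this.mono_left nhdsWithin_le_nhds).eventually (gt_mem_nhds (by linarith))
  have e2 : ∀ᶠ δ : ℝ in nhdsWithin 0 (Set.Ioi 0), δ * 2 ^ k < 1 / 2 := by
    have hc : ContinuousAt (fun δ : ℝ => δ * 2 ^ k) 0 := by fun_prop
    have := hc.tendsto
    simp only [zero_mul] at this
    exact (this.mono_left nhdsWithin_le_nhds).eventually (gt_mem_nhds (by norm_num))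
  obtain ⟨δ, ⟨h1, h2⟩, h3⟩ := ((e1.and e2).and self_mem_nhdsWithin).exists
  have h3 : 0 < δ := h3
  have e3 : ∀ᶠ ε : ℝ in nhdsWithin 0 (Set.Ioi 0),
      (1 + ε) ^ k / (1 - ε) * (((1 + ε) / (1 - ε) - 1) / δ + (1 + ε) * (2 * 6 ^ k * δ)) +
      |(1 + ε) ^ k / (1 - ε) * ((1 + ε) * (1 / (1 - ε) + δ * 2 ^ k) ^ k) - 1| < η := by
    have hc : ContinuousAt (fun ε : ℝ => (1 + ε) ^ k / (1 - ε) *
        (((1 + ε) / (1 - ε) - 1) / δ + (1 + ε) * (2 * 6 ^ k * δ)) +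
      |(1 + ε) ^ k / (1 - ε) * ((1 + ε) * (1 / (1 - ε) + δ * 2 ^ k) ^ k) - 1|) 0 := by
      have hne : (1 : ℝ) - 0 ≠ 0 := by norm_num
      have c1 : ContinuousAt (fun ε : ℝ => (1 : ℝ) - ε) 0 := by fun_prop
      have c2 : ContinuousAt (fun ε : ℝ => (1 + ε) ^ k / (1 - ε)) 0 :=
        ContinuousAt.div (by fun_prop) c1 hne
      have c3 : ContinuousAt (fun ε : ℝ => (1 + ε) / (1 - ε)) 0 :=
        ContinuousAt.div (by fun_prop) c1 hne
      have c4 : ContinuousAt (fun ε : ℝ => 1 / (1 - ε)) 0 :=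
        ContinuousAt.div (by fun_prop) c1 hne
      have c5 : ContinuousAt (fun ε : ℝ => (1 / (1 - ε) + δ * 2 ^ k) ^ k) 0 :=
        (c4.add continuousAt_const).pow k
      have c6 : ContinuousAt (fun ε : ℝ => 1 + ε) 0 := by fun_prop
      exact (c2.mul (((c3.sub continuousAt_const).div_const δ).add
        (c6.mul continuousAt_const))).add ((c2.mul (c6.mul c5)).sub continuousAt_const).abs
    have := hc.tendsto
    simp only [add_zero, one_pow, sub_zero, div_one, sub_self, zero_div, zero_add, one_mul] at this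
    exact (this.mono_left nhdsWithin_le_nhds).eventually (gt_mem_nhds (by linarith))
  have e4 : ∀ᶠ ε : ℝ in nhdsWithin 0 (Set.Ioi 0), ε < 1 / 2 :=
    (Filter.Tendsto.mono_left (Filter.tendsto_id) nhdsWithin_le_nhds).eventually
      (gt_mem_nhds (by norm_num))
  obtain ⟨ε, ⟨h4, h5⟩, h6⟩ := ((e3.and e4).and self_mem_nhdsWithin).exists
  have h6 : 0 < ε := h6
  refine ⟨ε, δ, h6, h5.le, h3, h2.le, ?_⟩
  intro v hv0 hv1
  have h7 : nb k ε δ v = (1 + ε) ^ k / (1 - ε) *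
      (((1 + ε) / (1 - ε) - 1) / δ + (1 + ε) * (2 * 6 ^ k * δ)) +
      v * ((1 + ε) ^ k / (1 - ε) * ((1 + ε) * (1 / (1 - ε) + δ * 2 ^ k) ^ k)) := by
    unfold nb
    ring
  rw [h7]
  set G := (1 + ε) ^ k / (1 - ε) * ((1 + ε) * (1 / (1 - ε) + δ * 2 ^ k) ^ k) with hG
  have h8 : v * (G - 1) ≤ |G - 1| := by
    calc v * (G - 1) ≤ v * |G - 1| := mul_le_mul_of_nonneg_left (le_abs_self _) hv0
      _ ≤ 1 * |G - 1| := mul_le_mul_of_nonneg_right hv1 (abs_nonneg _)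
      _ = |G - 1| := one_mul _
  linarith [h8, h4]

/-- From `near_one`, `exists_nb` and `le_numIndex`. -/
theorem exists_near.{u, v} (k : ℕ) {η : ℝ} (hη : 0 < η) : ∃ ε : ℝ, 0 < ε ∧ ε ≤ 1 / 2 ∧
    ∀ (X : Type u) (Y : Type v) [NormedAddCommGroup X] [NormedSpace ℂ X] [NormedAddCommGroup Y] [NormedSpace ℂ Y]
      [Nontrivial X] [Nontrivial Y] (T : X ≃L[ℂ] Y), (∀ x, (1 - ε) * ‖x‖ ≤ ‖T x‖) →
      (∀ x, ‖T x‖ ≤ (1 + ε) * ‖x‖) → numIndex ℂ Y k ≤ numIndex ℂ X k + η := by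
  obtain ⟨ε, δ, h1, h2, h3, h4, h5⟩ := exists_nb k hη
  refine ⟨ε, h1, h2, ?_⟩
  intro X Y _ _ _ _ _ _ T hl hu
  have key : numIndex ℂ Y k - η ≤ numIndex ℂ X k := by
    refine le_numIndex fun A hA => ?_
    have h6 := near_one T h1.le h2 h3 h4 hl hu A hA
    have h7 := h5 (numRadius ℂ X A) (numRadius_nonneg A) (hA ▸ numRadius_le_polyNorm A)
    linarith
  linarith

end Pool.Agent.Lib.MP_a7c449_an.Range
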