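import Pool.Agent.Lib.MP_a7c449_an.Range.Basic

set_option autoImplicit false
set_option maxSynthPendingDepth 3

namespace Pool.Agent.Lib.MP_a7c449_an.Range

/-- For every `A : ℂ [×k]→L[ℂ] ℂ` one has `(A fun _ => x) = x ^ k * A fun _ => 1` (`apply_smul`), so
`numRadius A = polyNorm A = ‖A fun _ => 1‖` (use the state `(1, id)`; all states are `(u, f)` with `‖u‖ = 1`, and
`‖f z‖ = ‖z‖`). -/
theorem numIndex_complex (k : ℕ) : numIndex ℂ ℂ k = 1 := by
  refine le_antisymm numIndex_le_one (le_numIndex fun A hA => ?_)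
  have h1 : polyNorm ℂ ℂ A ≤ ‖A fun _ => (1 : ℂ)‖ := by
    refine polyNorm_le A fun x hx => ?_
    have h2 : (A fun _ => x) = x ^ k • A fun _ => (1 : ℂ) := by
      rw [← apply_smul A x 1, smul_eq_mul, mul_one]
    rw [h2, norm_smul, norm_pow]
    exact mul_le_of_le_one_left (norm_nonneg _) (pow_le_one₀ (norm_nonneg _) hx)
  have h3 := le_numRadius A (x := (1 : ℂ)) (f := ContinuousLinearMap.id ℂ ℂ) norm_one
    ContinuousLinearMap.norm_id rfl
  rw [hA] at h1
  exact h1.trans h3

end Pool.Agent.Lib.MP_a7c449_an.Range
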