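import Pool.Agent.Lib.MP_a7c449_an.Range.Basic

/-! The index of a space and of its summands: upper bound. -/

set_option autoImplicit false
set_option maxSynthPendingDepth 3

namespace Pool.Agent.Lib.MP_a7c449_an.Range

variable {Y G : Type*} [NormedAddCommGroup Y] [NormedSpace ℂ Y] [NormedAddCommGroup G] [NormedSpace ℂ G] {k : ℕ}

theorem Summand.norm_inj_le (S : Summand Y G) (g : G) : ‖S.inj g‖ ≤ ‖g‖ := by
  have h := S.swap 0 g ‖g‖ (by simp) le_rfl
  simpa using h

theorem Summand.norm_inj (S : Summand Y G) (g : G) : ‖S.inj g‖ = ‖g‖ := by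
  refine le_antisymm (S.norm_inj_le g) ?_
  have h := S.pr_le (S.inj g)
  rwa [S.pr_inj] at h

/-- Let `(y, f)` be a state of `Y`, `a = ‖f ∘ inj‖ ≠ 0`. For `‖g'‖ ≤ 1` we have `‖y - inj (pr y) + inj g'‖ ≤ 1` by
`swap`, so `Re f (y - inj (pr y)) + Re f (inj g') ≤ 1 = Re f (y - inj (pr y)) + Re f (inj (pr y))`; taking the supremum
over `g'` (rotate `g'`): `a ≤ Re f (inj (pr y)) ≤ ‖f (inj (pr y))‖ ≤ a ‖pr y‖ ≤ a`. So `f (inj (pr y)) = a`, `‖pr y‖ = 1`. -/
theorem Summand.state (S : Summand Y G) {y : Y} {f : StrongDual ℂ Y} (hy : ‖y‖ = 1) (hf : ‖f‖ = 1) (hfy : f y = 1)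
    (ha : f.comp S.inj ≠ 0) : ‖S.pr y‖ = 1 ∧ f (S.inj (S.pr y)) = ((‖f.comp S.inj‖ : ℝ) : ℂ) ∧
      ‖f.comp S.inj‖ ≤ 1 := by
  have hpy : ‖S.pr y‖ ≤ 1 := hy ▸ S.pr_le y
  -- real parts
  have hre : ∀ g : G, ‖g‖ ≤ 1 → (f (S.inj g)).re ≤ (f (S.inj (S.pr y))).re := by
    intro g hg
    have h1 := S.swap y g 1 hy.le hg
    have h2 : ‖f (y - S.inj (S.pr y) + S.inj g)‖ ≤ 1 := by
      refine (f.le_opNorm _).trans ?_
      rw [hf, one_mul]
      exact h1
    have h3 : (f (y - S.inj (S.pr y) + S.inj g)).re ≤ 1 := (Complex.re_le_norm _).trans h2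
    rw [map_add, map_sub, hfy] at h3
    simp only [Complex.add_re, Complex.sub_re, Complex.one_re] at h3
    linarith
  -- rotate
  have hno : ∀ g : G, ‖g‖ ≤ 1 → ‖f (S.inj g)‖ ≤ (f (S.inj (S.pr y))).re := by
    intro g hg
    by_cases h0 : f (S.inj g) = 0
    · rw [h0, norm_zero]
      have := hre 0 (by simp)
      simpa using this
    · have hn : ‖f (S.inj g)‖ ≠ 0 := by simpa using h0
      have hn' : ((‖f (S.inj g)‖ : ℝ) : ℂ) ≠ 0 := by exact_mod_cast hn
      set c : ℂ := (starRingEnd ℂ) (f (S.inj g)) / ((‖f (S.inj g)‖ : ℝ) : ℂ) with hc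
      have hcn : ‖c‖ = 1 := by
        rw [hc, norm_div, RCLike.norm_conj, Complex.norm_real, Real.norm_eq_abs, abs_norm, div_self hn]
      have hcf : c * f (S.inj g) = ((‖f (S.inj g)‖ : ℝ) : ℂ) := by
        rw [hc, div_mul_eq_mul_div, mul_comm, Complex.mul_conj, Complex.normSq_eq_norm_sq]
        push_cast
        rw [pow_two, mul_div_assoc, div_self hn', mul_one]
      have h1 := hre (c • g) (by rw [norm_smul, hcn, one_mul]; exact hg)
      rw [map_smul, map_smul, smul_eq_mul, hcf, Complex.ofReal_re] at h1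
      exact h1
  have hr0 : 0 ≤ (f (S.inj (S.pr y))).re := by
    have := hre 0 (by simp)
    simpa using this
  have ha_le : ‖f.comp S.inj‖ ≤ (f (S.inj (S.pr y))).re := by
    refine ContinuousLinearMap.opNorm_le_bound _ hr0 ?_
    intro x
    by_cases hx : x = 0
    · simp [hx]
    · have hxn : ‖x‖ ≠ 0 := by simpa using hx
      have hxn' : ((‖x‖ : ℝ) : ℂ) ≠ 0 := by exact_mod_cast hxn
      have h1 := hno (((‖x‖ : ℝ) : ℂ)⁻¹ • x) (by
        rw [norm_smul, norm_inv, Complex.norm_real, Real.norm_eq_abs, abs_norm, inv_mul_cancel₀ hxn])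
      rw [map_smul, map_smul, norm_smul, norm_inv, Complex.norm_real, Real.norm_eq_abs, abs_norm] at h1
      have hxp : 0 < ‖x‖ := lt_of_le_of_ne (norm_nonneg _) (Ne.symm hxn)
      rw [inv_mul_le_iff₀ hxp] at h1
      rw [ContinuousLinearMap.comp_apply]
      linarith [h1, mul_comm ‖x‖ (f (S.inj (S.pr y))).re]
  have hap : 0 < ‖f.comp S.inj‖ := norm_pos_iff.2 ha
  have hle : ‖f (S.inj (S.pr y))‖ ≤ ‖f.comp S.inj‖ * ‖S.pr y‖ := (f.comp S.inj).le_opNorm _
  have hre_le : (f (S.inj (S.pr y))).re ≤ ‖f (S.inj (S.pr y))‖ := Complex.re_le_norm _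
  have hmul : ‖f.comp S.inj‖ * ‖S.pr y‖ ≤ ‖f.comp S.inj‖ := mul_le_of_le_one_right hap.le hpy
  have hp1 : ‖S.pr y‖ = 1 := by
    refine le_antisymm hpy ?_
    have : ‖f.comp S.inj‖ * 1 ≤ ‖f.comp S.inj‖ * ‖S.pr y‖ := by
      rw [mul_one]; linarith
    exact le_of_mul_le_mul_left this hap
  have hree : (f (S.inj (S.pr y))).re = ‖f.comp S.inj‖ := by
    rw [hp1, mul_one] at hle
    linarith
  have hnoe : ‖f (S.inj (S.pr y))‖ = ‖f.comp S.inj‖ := by
    rw [hp1, mul_one] at hle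
    linarith
  refine ⟨hp1, ?_, ?_⟩
  · have h1 : (f (S.inj (S.pr y))).re = ‖f (S.inj (S.pr y))‖ := by rw [hree, hnoe]
    have h2 : (f (S.inj (S.pr y))).im = 0 := by
      have h3 := Complex.sq_norm (f (S.inj (S.pr y)))
      rw [Complex.normSq_apply, ← h1] at h3
      nlinarith
    apply Complex.ext
    · rw [hree, Complex.ofReal_re]
    · rw [h2, Complex.ofReal_im]
  · refine ContinuousLinearMap.opNorm_le_bound _ zero_le_one ?_
    intro x
    rw [ContinuousLinearMap.comp_apply, one_mul]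
    refine (f.le_opNorm _).trans ?_
    rw [hf, one_mul]
    exact S.norm_inj_le x

/-- For `C : G [×k]→L[ℂ] G` put `A = inj ∘ C ∘ (pr, …, pr)`
(`(S.inj.compContinuousMultilinearMap C).compContinuousLinearMap (fun _ => S.pr)`): `polyNorm A = polyNorm C`
(`‖inj g‖ = ‖g‖` by `swap` with `y = 0` and by `pr_le`), and `numRadius A ≤ numRadius C` by `Summand.state` (state
`(pr y, a⁻¹ • f ∘ inj)` of `G`, `a ≤ 1`; if `f ∘ inj = 0` the value is zero). Use `numIndex_mul_le`, `le_numIndex`. -/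
theorem Summand.numIndex_le (S : Summand Y G) [Nontrivial G] : numIndex ℂ Y k ≤ numIndex ℂ G k := by
  refine le_numIndex ?_
  intro C hC
  set A : Y [×k]→L[ℂ] Y :=
    (S.inj.compContinuousMultilinearMap C).compContinuousLinearMap (fun _ => S.pr) with hA
  have hAv : ∀ y : Y, (A fun _ => y) = S.inj (C fun _ => S.pr y) := by
    intro y
    rw [hA]
    rfl
  have hpn : polyNorm ℂ Y A = 1 := by
    refine le_antisymm ?_ ?_
    · refine polyNorm_le A ?_
      intro y hy
      rw [hAv, S.norm_inj, ← hC]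
      exact le_polyNorm C ((S.pr_le y).trans hy)
    · rw [← hC]
      refine polyNorm_le C ?_
      intro g hg
      have h1 := le_polyNorm A (x := S.inj g) ((S.norm_inj_le g).trans hg)
      rw [hAv, S.norm_inj, S.pr_inj] at h1
      exact h1
  have h1 := numIndex_mul_le A
  rw [hpn, mul_one] at h1
  refine h1.trans ?_
  refine numRadius_le A (numRadius_nonneg C) ?_
  intro y f hy hf hfy
  rw [hAv]
  by_cases ha : f.comp S.inj = 0
  · have : f (S.inj (C fun _ => S.pr y)) = (f.comp S.inj) (C fun _ => S.pr y) := rfl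
    rw [this, ha]
    simpa using numRadius_nonneg C
  · obtain ⟨hp, hfe, ha1⟩ := S.state hy hf hfy ha
    have hap : 0 < ‖f.comp S.inj‖ := norm_pos_iff.2 ha
    have han : ((‖f.comp S.inj‖ : ℝ) : ℂ) ≠ 0 := by exact_mod_cast hap.ne'
    set h : StrongDual ℂ G := ((‖f.comp S.inj‖ : ℝ) : ℂ)⁻¹ • f.comp S.inj with hh
    have hhn : ‖h‖ = 1 := by
      rw [hh, norm_smul, norm_inv, Complex.norm_real, Real.norm_eq_abs, abs_norm, inv_mul_cancel₀ hap.ne']
    have hhv : h (S.pr y) = 1 := by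
      rw [hh, smul_apply, ContinuousLinearMap.comp_apply, hfe, smul_eq_mul, inv_mul_cancel₀ han]
    have h2 := le_numRadius C hp hhn hhv
    have h3 : ‖h (C fun _ => S.pr y)‖ = ‖f.comp S.inj‖⁻¹ * ‖f (S.inj (C fun _ => S.pr y))‖ := by
      rw [hh, smul_apply, ContinuousLinearMap.comp_apply, norm_smul, norm_inv, Complex.norm_real,
        Real.norm_eq_abs, abs_norm]
    rw [h3, inv_mul_le_iff₀ hap] at h2
    refine h2.trans ?_
    exact mul_le_of_le_one_left (numRadius_nonneg C) ha1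

end Pool.Agent.Lib.MP_a7c449_an.Range
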