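import Pool.Agent.Lib.MP_a7c449_an.Range.SumLoc
import Pool.Agent.Lib.MP_a7c449_an.Range.SumLe
import Pool.Agent.Lib.MP_a7c449_an.Range.Scalar

/-! Products and spaces with coordinates. -/

set_option autoImplicit false
set_option maxSynthPendingDepth 3

namespace Pool.Agent.Lib.MP_a7c449_an.Range

/-- The first factor. -/
noncomputable def fstS (Y G : Type*) [NormedAddCommGroup Y] [NormedSpace ℂ Y] [NormedAddCommGroup G]
    [NormedSpace ℂ G] : Summand (Y × G) Y where
  pr := ContinuousLinearMap.fst ℂ Y G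
  inj := ContinuousLinearMap.inl ℂ Y G
  pr_le := by
    intro y
    exact norm_fst_le y
  pr_inj := by
    intro g
    simp
  swap := by
    intro y g M hy hg
    have h : y - (ContinuousLinearMap.inl ℂ Y G) ((ContinuousLinearMap.fst ℂ Y G) y) +
        (ContinuousLinearMap.inl ℂ Y G) g = (g, y.2) := by
      ext <;> simp
    rw [h, Prod.norm_def]
    exact max_le hg ((norm_snd_le y).trans hy)

/-- The second factor. -/
noncomputable def sndS (Y G : Type*) [NormedAddCommGroup Y] [NormedSpace ℂ Y] [NormedAddCommGroup G]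
    [NormedSpace ℂ G] : Summand (Y × G) G where
  pr := ContinuousLinearMap.snd ℂ Y G
  inj := ContinuousLinearMap.inr ℂ Y G
  pr_le := by
    intro y
    exact norm_snd_le y
  pr_inj := by
    intro g
    simp
  swap := by
    intro y g M hy hg
    have h : y - (ContinuousLinearMap.inr ℂ Y G) ((ContinuousLinearMap.snd ℂ Y G) y) +
        (ContinuousLinearMap.inr ℂ Y G) g = (y.1, g) := by
      ext <;> simp
    rw [h, Prod.norm_def]
    exact max_le ((norm_fst_le y).trans hy) hg

variable {Y G : Type*} [NormedAddCommGroup Y] [NormedSpace ℂ Y] [NormedAddCommGroup G] [NormedSpace ℂ G]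

/-- `≤` by `Summand.numIndex_le`, `≥` by `Summand.loc` and `‖p‖ = max ‖p.1‖ ‖p.2‖` (`le_numIndex`: for
`polyNorm A = 1` and `c < 1` there is `x` with `‖x‖ ≤ 1`, `‖A x …‖ > c`). -/
theorem numIndex_prod (k : ℕ) [Nontrivial Y] [Nontrivial G] :
    numIndex ℂ (Y × G) k = min (numIndex ℂ Y k) (numIndex ℂ G k) := by
  refine le_antisymm (le_min ((fstS Y G).numIndex_le) ((sndS Y G).numIndex_le)) ?_
  refine le_numIndex ?_
  intro A hA
  obtain ⟨m, hm⟩ : ∃ m : ℝ, m = min (numIndex ℂ Y k) (numIndex ℂ G k) := ⟨_, rfl⟩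
  rw [← hm]
  have hm0 : 0 ≤ m := by rw [hm]; exact le_min numIndex_nonneg numIndex_nonneg
  rcases hm0.eq_or_lt with h0 | h0
  · rw [← h0]
    exact numRadius_nonneg A
  · have h1 : polyNorm ℂ (Y × G) A ≤ numRadius ℂ (Y × G) A / m := by
      refine polyNorm_le A ?_
      intro x hx
      rw [le_div_iff₀ h0, Prod.norm_def]
      have hY := (fstS Y G).loc A x hx
      have hG := (sndS Y G).loc A x hx
      have hY' : m * ‖(A fun _ => x).1‖ ≤ numRadius ℂ (Y × G) A :=
        (mul_le_mul_of_nonneg_right (by rw [hm]; exact min_le_left _ _) (norm_nonneg _)).trans hY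
      have hG' : m * ‖(A fun _ => x).2‖ ≤ numRadius ℂ (Y × G) A :=
        (mul_le_mul_of_nonneg_right (by rw [hm]; exact min_le_right _ _) (norm_nonneg _)).trans hG
      rcases max_cases ‖(A fun _ => x).1‖ ‖(A fun _ => x).2‖ with h | h
      · rw [h.1, mul_comm]; exact hY'
      · rw [h.1, mul_comm]; exact hG'
    rw [hA, le_div_iff₀ h0, one_mul] at h1
    exact h1

/-- A functional `ev` and a vector `e` with `ev e = 1` such that the coordinate can be changed. -/
noncomputable def coordS (ev : StrongDual ℂ Y) (e : Y) (h1 : ∀ y, ‖ev y‖ ≤ ‖y‖) (h2 : ev e = 1)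
    (h3 : ∀ (y : Y) (w : ℂ) (M : ℝ), ‖y‖ ≤ M → ‖w‖ ≤ M → ‖y - ev y • e + w • e‖ ≤ M) : Summand Y ℂ where
  pr := ev
  inj := ContinuousLinearMap.toSpanSingleton ℂ e
  pr_le := h1
  pr_inj := by
    intro g
    rw [ContinuousLinearMap.toSpanSingleton_apply, map_smul, h2, smul_eq_mul, mul_one]
  swap := by
    intro y g M hy hg
    rw [ContinuousLinearMap.toSpanSingleton_apply, ContinuousLinearMap.toSpanSingleton_apply]
    exact h3 y g M hy hg

/-- A space whose norm is the supremum of the moduli of coordinates `ev i` which can be changed one by one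
(`e i` is the unit vector). `≤ 1` by `numIndex_le_one`; `≥ 1` by `coordS`, `Summand.loc`, `numIndex_complex`. -/
theorem numIndex_coord (k : ℕ) [Nontrivial Y] {I : Type*} (ev : I → StrongDual ℂ Y) (e : I → Y)
    (h1 : ∀ i y, ‖ev i y‖ ≤ ‖y‖) (h2 : ∀ i, ev i (e i) = 1) (h3 : ∀ i j, i ≠ j → ev i (e j) = 0)
    (h4 : ∀ (y : Y) (M : ℝ), 0 ≤ M → (∀ i, ‖ev i y‖ ≤ M) → ‖y‖ ≤ M) : numIndex ℂ Y k = 1 := by
  refine le_antisymm numIndex_le_one (le_numIndex ?_)
  intro A hA
  rw [← hA]
  refine polyNorm_le A ?_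
  intro x hx
  refine h4 _ _ (numRadius_nonneg A) ?_
  intro i
  have h5 : ∀ (y : Y) (w : ℂ) (M : ℝ), ‖y‖ ≤ M → ‖w‖ ≤ M → ‖y - ev i y • e i + w • e i‖ ≤ M := by
    intro y w M hy hw
    refine h4 _ _ ((norm_nonneg y).trans hy) ?_
    intro j
    rw [map_add, map_sub, map_smul, map_smul, smul_eq_mul, smul_eq_mul]
    by_cases hij : j = i
    · subst hij
      rw [h2, mul_one, mul_one, sub_self, zero_add]
      exact hw
    · rw [h3 j i hij, mul_zero, mul_zero, sub_zero, add_zero]
      exact (h1 j y).trans hy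
  have h6 := (coordS (ev i) (e i) (h1 i) (h2 i) h5).loc A x hx
  rw [numIndex_complex, one_mul] at h6
  exact h6

end Pool.Agent.Lib.MP_a7c449_an.Range
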