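import Pool.Agent.Lib.MP_a7c449_an.Range.En
import Pool.Agent.Lib.MP_a7c449_an.Range.Near
import Pool.Agent.Lib.MP_a7c449_an.Range.Prod

/-! The index along the path takes all values between `c_k` and `1`, `k = m + 2`. -/

set_option autoImplicit false
set_option maxSynthPendingDepth 3

namespace Pool.Agent.Lib.MP_a7c449_an.Range

/-- With `M = max ‖x.1‖ ‖x.2‖` one has `M ≤ Nt τ x` and `M ≤ Nk ≤ 2M` (`max_le_Nk`, `Nk_le_add`), so
`|Nt τ x - Nt σ x| ≤ |τ - σ| M`. -/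
theorem Nt_near (m : ℕ) (τ σ : unitInterval) (x : ℂ × ℂ) : |Nt m τ x - Nt m σ x| ≤ |(τ : ℝ) - σ| * Nt m τ x := by
  have hu := norm_nonneg x.1
  have hv := norm_nonneg x.2
  have h1 := max_le_Nk m hu hv
  have h2 := Nk_le_add m hu hv
  have h3 : ‖x.1‖ + ‖x.2‖ ≤ 2 * max ‖x.1‖ ‖x.2‖ := by
    have := le_max_left ‖x.1‖ ‖x.2‖
    have := le_max_right ‖x.1‖ ‖x.2‖
    linarith
  have hτ0 : 0 ≤ (τ : ℝ) := τ.2.1
  have e : Nt m τ x - Nt m σ x = ((τ : ℝ) - σ) * (Nk m ‖x.1‖ ‖x.2‖ - max ‖x.1‖ ‖x.2‖) := by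
    unfold Nt
    ring
  have e2 : Nt m τ x = max ‖x.1‖ ‖x.2‖ + (τ : ℝ) * (Nk m ‖x.1‖ ‖x.2‖ - max ‖x.1‖ ‖x.2‖) := by
    unfold Nt
    ring
  rw [e, abs_mul]
  refine mul_le_mul_of_nonneg_left ?_ (abs_nonneg _)
  rw [abs_of_nonneg (by linarith), e2]
  have : 0 ≤ (τ : ℝ) * (Nk m ‖x.1‖ ‖x.2‖ - max ‖x.1‖ ‖x.2‖) := mul_nonneg hτ0 (by linarith)
  linarith

/-- The map `(En.id₂ m τ σ).toContinuousLinearEquiv` and `exists_near`, `Nt_near` (in both directions). -/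
theorem En.near (m k : ℕ) {η : ℝ} (hη : 0 < η) : ∃ ε : ℝ, 0 < ε ∧ ∀ τ σ : unitInterval, |(τ : ℝ) - σ| ≤ ε →
    |numIndex ℂ (En m τ) k - numIndex ℂ (En m σ) k| ≤ η := by
  obtain ⟨ε, h0, h1, h⟩ := exists_near k hη
  have key : ∀ τ σ : unitInterval, |(τ : ℝ) - σ| ≤ ε →
      numIndex ℂ (En m σ) k ≤ numIndex ℂ (En m τ) k + η := by
    intro τ σ hts
    have hb : ∀ x : En m τ, |Nt m τ (x : ℂ × ℂ) - Nt m σ (x : ℂ × ℂ)| ≤ ε * ‖x‖ := by
      intro x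
      refine (Nt_near m τ σ x).trans ?_
      exact mul_le_mul_of_nonneg_right hts (norm_nonneg x)
    refine h (En m τ) (En m σ) (En.id₂ m τ σ).toContinuousLinearEquiv ?_ ?_
    · intro x
      have := (abs_le.1 (hb x)).2
      have h2 : ‖(En.id₂ m τ σ).toContinuousLinearEquiv x‖ = Nt m σ (x : ℂ × ℂ) := rfl
      have h3 : ‖x‖ = Nt m τ (x : ℂ × ℂ) := rfl
      rw [h2]
      rw [h3] at this ⊢
      linarith
    · intro x
      have := (abs_le.1 (hb x)).1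
      have h2 : ‖(En.id₂ m τ σ).toContinuousLinearEquiv x‖ = Nt m σ (x : ℂ × ℂ) := rfl
      have h3 : ‖x‖ = Nt m τ (x : ℂ × ℂ) := rfl
      rw [h2]
      rw [h3] at this ⊢
      linarith
  refine ⟨ε, h0, fun τ σ hts => abs_le.2 ⟨?_, ?_⟩⟩
  · have := key τ σ hts
    linarith
  · have := key σ τ (by rwa [abs_sub_comm])
    linarith

/-- `Nt m 0 x = max ‖x.1‖ ‖x.2‖`, so `En m 0` is isometric to `ℂ × ℂ`; `numIndex_congr`, `numIndex_prod`,
`numIndex_complex`. -/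
theorem En.zero (m k : ℕ) : numIndex ℂ (En m 0) k = 1 := by
  have T : En m 0 ≃ₗᵢ[ℂ] (ℂ × ℂ) :=
    { En.id m 0 with
      norm_map' := by
        intro x
        have h3 : ‖x‖ = Nt m (0 : unitInterval) (x : ℂ × ℂ) := rfl
        rw [h3]
        unfold Nt
        simp only [Set.Icc.coe_zero, sub_zero, one_mul, zero_mul, add_zero]
        rfl }
  rw [numIndex_congr T, numIndex_prod, numIndex_complex, min_self]

end Pool.Agent.Lib.MP_a7c449_an.Range
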