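import Pool.Agent.Lib.MP_a7c449_an.Range.Red

/-! Second order estimate for symmetric forms. -/

set_option autoImplicit false
set_option maxSynthPendingDepth 3

namespace Pool.Agent.Lib.MP_a7c449_an.Range

variable {X : Type*} [NormedAddCommGroup X] [NormedSpace ℂ X]

private lemma Taylor_diag {n : ℕ} (b : X [×(n + 1)]→L[ℂ] ℂ) (x : X) :
    (b fun _ => x) = b.curryLeft x fun _ => x := by
  rw [ContinuousMultilinearMap.curryLeft_apply]
  congr 1
  funext i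
  refine Fin.cases ?_ (fun j => ?_) i
  · rfl
  · rfl

private lemma Taylor_curry_norm {n : ℕ} (b : X [×(n + 1)]→L[ℂ] ℂ) (x : X) :
    ‖b.curryLeft x‖ ≤ ‖b‖ * ‖x‖ := by
  have h := b.curryLeft.le_opNorm x
  rwa [ContinuousMultilinearMap.curryLeft_norm] at h

private lemma Taylor_curry_le {n : ℕ} (b : X [×(n + 1)]→L[ℂ] ℂ) {x : X} (hx : ‖x‖ ≤ 1) :
    ‖b.curryLeft x‖ ≤ ‖b‖ :=
  (Taylor_curry_norm b x).trans (mul_le_of_le_one_right (norm_nonneg _) hx)

private lemma Taylor_split {n : ℕ} (b : X [×(n + 1)]→L[ℂ] ℂ) (s h : X) :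
    (b fun _ => s + h) = (b.curryLeft s fun _ => s + h) + b.curryLeft h fun _ => s + h := by
  rw [Taylor_diag, map_add]
  rfl

/-- Induction on `n`: `b ((s+h)^(n+1)) = b.curryLeft s ((s+h)^n) + b.curryLeft h ((s+h)^n)`. (Or
`ContinuousMultilinearMap.norm_image_sub_le`.) -/
theorem taylor_one {n : ℕ} (b : X [×n]→L[ℂ] ℂ) {s h : X} (hs : ‖s‖ ≤ 1) (hh : ‖h‖ ≤ 1) :
    ‖(b fun _ => s + h) - b fun _ => s‖ ≤ 2 ^ n * ‖b‖ * ‖h‖ := by
  induction n with
  | zero =>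
    have h1 : (fun _ : Fin 0 => s + h) = fun _ => s := Subsingleton.elim _ _
    rw [h1, sub_self, norm_zero]
    positivity
  | succ n ih =>
    have h1 : (b fun _ => s + h) - (b fun _ => s) =
        ((b.curryLeft s fun _ => s + h) - b.curryLeft s fun _ => s) +
          b.curryLeft h fun _ => s + h := by
      rw [Taylor_split, Taylor_diag b s]
      ring
    rw [h1]
    have h2 := ih (b.curryLeft s)
    have h3 : ‖b.curryLeft h fun _ => s + h‖ ≤ ‖b‖ * ‖h‖ * 2 ^ n := by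
      refine ((b.curryLeft h).le_opNorm _).trans ?_
      rw [Finset.prod_const, Finset.card_univ, Fintype.card_fin]
      have h4 : ‖s + h‖ ≤ 2 := (norm_add_le _ _).trans (by linarith)
      exact mul_le_mul (Taylor_curry_norm b h) (pow_le_pow_left₀ (norm_nonneg _) h4 n)
        (by positivity) (by positivity)
    have h5 : 2 ^ n * ‖b.curryLeft s‖ * ‖h‖ ≤ 2 ^ n * ‖b‖ * ‖h‖ := by
      have := Taylor_curry_le b hs
      gcongr
    calc ‖((b.curryLeft s fun _ => s + h) - b.curryLeft s fun _ => s) +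
          b.curryLeft h fun _ => s + h‖
        ≤ ‖(b.curryLeft s fun _ => s + h) - b.curryLeft s fun _ => s‖ +
          ‖b.curryLeft h fun _ => s + h‖ := norm_add_le _ _
      _ ≤ 2 ^ n * ‖b‖ * ‖h‖ + ‖b‖ * ‖h‖ * 2 ^ n := add_le_add (h2.trans h5) h3
      _ = 2 ^ (n + 1) * ‖b‖ * ‖h‖ := by ring

/-- Induction on `n`: `b ((s+h)^(n+1)) = b.curryLeft s ((s+h)^n) + b.curryLeft h ((s+h)^n)`; the first term by
induction (`b (s, h, s, …) = b (h, s, s, …)`), the second by `taylor_one`. -/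
theorem taylor_two {n : ℕ} {b : X [×(n + 1)]→L[ℂ] ℂ} (hb : IsSym (n + 1) b) {s h : X} (hs : ‖s‖ ≤ 1)
    (hh : ‖h‖ ≤ 1) :
    ‖(b fun _ => s + h) - (b fun _ => s) - ((n : ℂ) + 1) * b.curryLeft h fun _ => s‖ ≤
      4 ^ (n + 1) * ‖b‖ * ‖h‖ ^ 2 := by
  induction n with
  | zero =>
    have e1 : (fun _ : Fin 0 => s + h) = fun _ => s := Subsingleton.elim _ _
    have h1 : (b fun _ => s + h) - (b fun _ => s) -
        (((0 : ℕ) : ℂ) + 1) * (b.curryLeft h fun _ => s) = 0 := by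
      rw [Taylor_split, Taylor_diag b s, e1]
      push_cast
      ring
    rw [h1, norm_zero]
    positivity
  | succ n ih =>
    obtain ⟨hb1, hb2⟩ := hb
    have h1 : (b fun _ => s + h) - (b fun _ => s) -
        (((n + 1 : ℕ) : ℂ) + 1) * (b.curryLeft h fun _ => s) =
        (((b.curryLeft s) fun _ => s + h) - ((b.curryLeft s) fun _ => s) -
          ((n : ℂ) + 1) * ((b.curryLeft s).curryLeft h fun _ => s)) +
        (((b.curryLeft h) fun _ => s + h) - ((b.curryLeft h) fun _ => s)) := by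
      rw [hb2 s h, ← Taylor_diag (b.curryLeft h) s, Taylor_split b, Taylor_diag b s]
      push_cast
      ring
    rw [h1]
    have h2 := ih (hb1 s)
    have h3 := taylor_one (b.curryLeft h) hs hh
    have h4 : 4 ^ (n + 1) * ‖b.curryLeft s‖ * ‖h‖ ^ 2 ≤ 4 ^ (n + 1) * ‖b‖ * ‖h‖ ^ 2 := by
      have := Taylor_curry_le b hs
      gcongr
    have h5 : 2 ^ (n + 1) * ‖b.curryLeft h‖ * ‖h‖ ≤ 4 ^ (n + 1) * ‖b‖ * ‖h‖ ^ 2 := by
      have h6 := Taylor_curry_norm b h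
      have h7 : (2 : ℝ) ^ (n + 1) ≤ 4 ^ (n + 1) := by gcongr; norm_num
      calc 2 ^ (n + 1) * ‖b.curryLeft h‖ * ‖h‖ ≤ 4 ^ (n + 1) * (‖b‖ * ‖h‖) * ‖h‖ := by gcongr
        _ = 4 ^ (n + 1) * ‖b‖ * ‖h‖ ^ 2 := by ring
    refine (norm_add_le _ _).trans ((add_le_add (h2.trans h4) (h3.trans h5)).trans ?_)
    have h8 : 0 ≤ 4 ^ (n + 1) * ‖b‖ * ‖h‖ ^ 2 := by positivity
    have h9 : (4 : ℝ) ^ (n + 1 + 1) * ‖b‖ * ‖h‖ ^ 2 = 4 * (4 ^ (n + 1) * ‖b‖ * ‖h‖ ^ 2) := by ring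
    rw [h9]
    linarith

end Pool.Agent.Lib.MP_a7c449_an.Range
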