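import Pool.Agent.Lib.MP_a7c449_an.Range.Ext
import Pool.Agent.Lib.MP_a7c449_an.Range.Taylor

/-! The polynomial version of Goldstine's theorem (Davie and Gamelin): the choice of the points. -/

set_option autoImplicit false
set_option maxSynthPendingDepth 3

namespace Pool.Agent.Lib.MP_a7c449_an.Range

variable {X : Type*} [NormedAddCommGroup X] [NormedSpace ℂ X]

/-- `h` is a good direction at `s`: `b (h, s, …)` is close to `(redL b y) (s, …)`, and so on for `redL b y`. -/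
def Good (y : Bid X) (s h : X) (ε : ℝ) : (n : ℕ) → (X [×n]→L[ℂ] ℂ) → Prop
  | 0, _ => True
  | n + 1, b => ‖(b.curryLeft h fun _ => s) - (redL X n b y) fun _ => s‖ ≤ ε ∧ Good y s h ε n (redL X n b y)

/-- The functionals of `Good`. -/
noncomputable def fl (y : Bid X) (s : X) : (n : ℕ) → (X [×n]→L[ℂ] ℂ) → List (StrongDual ℂ X)
  | 0, _ => []
  | n + 1, b => (b.curryLeft.flipMultilinear fun _ => s) :: fl y s n (redL X n b y)

/-- Induction on `n` (`redL_apply`, `flip_apply`). -/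
theorem good_of_fl (y : Bid X) (s h : X) (ε : ℝ) {n : ℕ} (b : X [×n]→L[ℂ] ℂ)
    (H : ∀ φ ∈ fl y s n b, ‖φ h - y φ‖ ≤ ε) : Good y s h ε n b := by
  induction n with
  | zero => trivial
  | succ n ih =>
    refine ⟨?_, ih _ fun φ hφ => H φ (List.mem_cons_of_mem _ hφ)⟩
    exact H _ (List.mem_cons_self)

private theorem Euler_pow_one (n : ℕ) {a e : ℝ} (ha : 0 ≤ a) (he : 0 ≤ e) (hae : a + e ≤ 1) :
    0 ≤ (a + e) ^ n - a ^ n ∧ (a + e) ^ n - a ^ n ≤ 2 ^ n * e := by
  induction n with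
  | zero => simp [he]
  | succ n ih =>
    obtain ⟨h1, h2⟩ := ih
    have h3 : (a + e) ^ (n + 1) - a ^ (n + 1) = a * ((a + e) ^ n - a ^ n) + e * (a + e) ^ n := by ring
    have h4 : 0 ≤ (a + e) ^ n := by positivity
    have h5 : (a + e) ^ n ≤ 1 := pow_le_one₀ (by positivity) hae
    have h6 : (1 : ℝ) ≤ 2 ^ n := one_le_pow₀ (by norm_num)
    have ha1 : a ≤ 1 := by linarith
    rw [h3]
    refine ⟨by positivity, ?_⟩
    calc a * ((a + e) ^ n - a ^ n) + e * (a + e) ^ n ≤ 1 * (2 ^ n * e) + e * 1 := by gcongr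
      _ ≤ 1 * (2 ^ n * e) + 2 ^ n * e := by nlinarith
      _ = 2 ^ (n + 1) * e := by ring

/-- Induction on `n`: `(a+e)^(n+2) - a^(n+2) - (n+2) a^(n+1) e` is `a` times the previous one plus
`e ((a+e)^(n+1) - a^(n+1))`, and `0 ≤ (a+e)^(n+1) - a^(n+1) ≤ 2^(n+1) e`. -/
theorem pow_taylor (n : ℕ) {a e : ℝ} (ha : 0 ≤ a) (he : 0 ≤ e) (hae : a + e ≤ 1) :
    |(a + e) ^ (n + 1) - a ^ (n + 1) - (n + 1) * a ^ n * e| ≤ 4 ^ (n + 1) * e ^ 2 := by
  induction n with
  | zero =>
    have : (a + e) ^ (0 + 1) - a ^ (0 + 1) - ((0 : ℕ) + 1) * a ^ 0 * e = 0 := by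
      push_cast
      ring
    rw [this, abs_zero]
    positivity
  | succ n ih =>
    have h1 : (a + e) ^ (n + 1 + 1) - a ^ (n + 1 + 1) - ((n + 1 : ℕ) + 1) * a ^ (n + 1) * e =
        a * ((a + e) ^ (n + 1) - a ^ (n + 1) - (n + 1) * a ^ n * e) +
          e * ((a + e) ^ (n + 1) - a ^ (n + 1)) := by
      push_cast
      ring
    obtain ⟨h2, h3⟩ := Euler_pow_one (n + 1) ha he hae
    have ha1 : a ≤ 1 := by linarith
    have h4 : (2 : ℝ) ^ (n + 1) ≤ 4 ^ (n + 1) := by gcongr; norm_num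
    rw [h1]
    refine (abs_add_le _ _).trans ?_
    rw [abs_mul, abs_mul, abs_of_nonneg ha, abs_of_nonneg he, abs_of_nonneg h2]
    calc a * |(a + e) ^ (n + 1) - a ^ (n + 1) - (n + 1) * a ^ n * e| + e * ((a + e) ^ (n + 1) - a ^ (n + 1))
        ≤ 1 * (4 ^ (n + 1) * e ^ 2) + e * (2 ^ (n + 1) * e) := by gcongr
      _ ≤ 1 * (4 ^ (n + 1) * e ^ 2) + e * (4 ^ (n + 1) * e) := by gcongr
      _ ≤ 4 ^ (n + 1 + 1) * e ^ 2 := by
          have : (0 : ℝ) ≤ 4 ^ (n + 1) * e ^ 2 := by positivity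
          rw [pow_succ (4 : ℝ) (n + 1)]
          nlinarith

private theorem Euler_norm_s {N : ℕ} (s h : ℕ → X) (h0 : s 0 = 0)
    (hs : ∀ j, s (j + 1) = s j + ((1 : ℂ) / N) • h j) (hh : ∀ j, ‖h j‖ ≤ 1) (j : ℕ) :
    ‖s j‖ ≤ (j : ℝ) / N := by
  induction j with
  | zero => simp [h0]
  | succ j ih =>
    rw [hs]
    refine (norm_add_le _ _).trans ?_
    rw [norm_smul, norm_div, norm_one, Complex.norm_natCast]
    have h1 : 1 / (N : ℝ) * ‖h j‖ ≤ 1 / (N : ℝ) * 1 := by
      have := hh j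
      gcongr
    have h2 : (((j + 1 : ℕ) : ℝ)) / N = j / N + 1 / N := by
      push_cast
      ring
    rw [h2]
    linarith

private theorem Euler_curry_smul {n : ℕ} (b : X [×(n + 1)]→L[ℂ] ℂ) (c : ℂ) (h : X) (v : Fin n → X) :
    b.curryLeft (c • h) v = c * b.curryLeft h v := by
  rw [map_smul, ContinuousMultilinearMap.smul_apply, smul_eq_mul]

/-- Induction on `n`. Step: with `β = extL (n+1) b (y, …) = extL n (redL b y) (y, …)` (`extL_diag`), `|β| ≤ ‖b‖`
(`norm_extL_diag_le`), `b(s_{j+1}) - b(s_j) = (n+1)/N b(h_j, s_j^n) + O(4^(n+1) ‖b‖ / N²)` (`taylor_two` with `h = h_j / N`),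
`b(h_j, s_j^n) = (redL b y)(s_j^n) + O(ε)`, `(redL b y)(s_j^n) = (j/N)^n β + O(C_n (ε + ‖b‖/N))` (induction,
`norm_redL_le`), and `pow_taylor` for `(j/N)^n (n+1)/N`. Summing over `j < m ≤ N` gives the claim with
`C_{n+1} = (n+1)(1 + C_n) + 2 * 4^(n+1)`. -/
theorem euler_claim (n : ℕ) : ∃ C : ℝ, 0 ≤ C ∧ ∀ (y : Bid X), ‖y‖ ≤ 1 → ∀ (b : X [×n]→L[ℂ] ℂ), IsSym n b →
    ∀ (N : ℕ), 0 < N → ∀ (ε : ℝ), 0 ≤ ε → ∀ (s h : ℕ → X), s 0 = 0 → (∀ j, s (j + 1) = s j + ((1 : ℂ) / N) • h j) →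
    (∀ j, ‖h j‖ ≤ 1) → (∀ j < N, Good y (s j) (h j) ε n b) →
    ∀ m ≤ N, ‖(b fun _ => s m) - ((m : ℂ) / N) ^ n * extL X n b fun _ => y‖ ≤ C * (ε + ‖b‖ / N) := by
  induction n with
  | zero =>
    refine ⟨0, le_rfl, fun y _ b _ N _ ε _ s h _ _ _ _ m _ => ?_⟩
    rw [extL_zero, pow_zero, one_mul, zero_mul]
    have : (fun _ : Fin 0 => s m) = 0 := Subsingleton.elim _ _
    rw [this, sub_self, norm_zero]
  | succ n ih =>
    obtain ⟨C, hC0, hC⟩ := ih
    refine ⟨(n + 1) * (1 + C) + 2 * 4 ^ (n + 1), by positivity, ?_⟩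
    intro y hy b hb N hN ε hε s h hs0 hs hh hG m hm
    have hN' : (0 : ℝ) < N := by exact_mod_cast hN
    have hNc : (N : ℂ) ≠ 0 := by exact_mod_cast hN.ne'
    set b' := redL X n b y with hb'
    set β : ℂ := extL X n b' (fun _ => y) with hβ
    have hβ' : (extL X (n + 1) b fun _ => y) = β := extL_diag b y
    have hβn : ‖β‖ ≤ ‖b‖ := by
      rw [← hβ']
      exact norm_extL_diag_le b hy
    have hb'n : ‖b'‖ ≤ ‖b‖ := by
      refine (norm_redL_le b y).trans ?_
      calc ‖b‖ * ‖y‖ ≤ ‖b‖ * 1 := by gcongr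
        _ = ‖b‖ := mul_one _
    have hI := hC y hy b' (hb.red y) N hN ε hε s h hs0 hs hh (fun j hj => (hG j hj).2)
    have hsn := Euler_norm_s s h hs0 hs hh
    set E : ℝ := ε + ‖b‖ / N with hE
    have hE0 : 0 ≤ E := by positivity
    have hEε : ε ≤ E := by
      have : 0 ≤ ‖b‖ / N := by positivity
      linarith
    have hEb : ‖b‖ / N ≤ E := by linarith
    have hmain : ∀ j, j ≤ N → ‖(b fun _ => s j) - ((j : ℂ) / N) ^ (n + 1) * β‖ ≤
        (j : ℝ) / N * (((n + 1) * (1 + C) + 2 * 4 ^ (n + 1)) * E) := by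
      intro j
      induction j with
      | zero =>
        intro _
        rw [hs0]
        have h1 : (b fun _ => (0 : X)) = 0 := b.map_coord_zero 0 rfl
        rw [h1]
        simp
      | succ j ihj =>
        intro hj
        have hjN : j < N := hj
        have h1 := ihj hjN.le
        have hsj : ‖s j‖ ≤ 1 := by
          refine (hsn j).trans ?_
          rw [div_le_one hN']
          exact_mod_cast hjN.le
        have hd : ‖((1 : ℂ) / N) • h j‖ ≤ 1 / N := by
          rw [norm_smul, norm_div, norm_one, Complex.norm_natCast]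
          calc 1 / (N : ℝ) * ‖h j‖ ≤ 1 / (N : ℝ) * 1 := by
                have := hh j
                gcongr
            _ = _ := mul_one _
        have hN1 : 1 / (N : ℝ) ≤ 1 := by
          rw [div_le_one hN']
          exact_mod_cast hN
        have h2 := taylor_two hb hsj (hd.trans hN1)
        rw [← hs, Euler_curry_smul] at h2
        have h2' : ‖(b fun _ => s (j + 1)) - (b fun _ => s j) -
            ((n : ℂ) + 1) * (1 / N * b.curryLeft (h j) fun _ => s j)‖ ≤ 4 ^ (n + 1) * ‖b‖ * (1 / N) ^ 2 := by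
          refine h2.trans ?_
          gcongr
        have h3 := (hG j hjN).1
        rw [← hb'] at h3
        have h4 := hI j hjN.le
        have h4' : ‖(b' fun _ => s j) - ((j : ℂ) / N) ^ n * β‖ ≤ C * E := by
          refine h4.trans ?_
          rw [hE]
          gcongr
        have h5 := pow_taylor n (a := (j : ℝ) / N) (e := 1 / N) (by positivity) (by positivity) (by
          rw [← add_div, div_le_one hN']
          exact_mod_cast hj)
        set P : ℂ := b fun _ => s (j + 1) with hP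
        set Q : ℂ := b fun _ => s j with hQ
        set U : ℂ := b.curryLeft (h j) fun _ => s j with hU
        set V : ℂ := b' fun _ => s j with hV
        set x : ℂ := (j : ℂ) / N with hx
        have hdec : P - (((j + 1 : ℕ) : ℂ) / N) ^ (n + 1) * β =
            (Q - x ^ (n + 1) * β) + (P - Q - ((n : ℂ) + 1) * (1 / N * U)) +
            (((n : ℂ) + 1) * (1 / N)) * (U - V) + (((n : ℂ) + 1) * (1 / N)) * (V - x ^ n * β) -
            ((x + 1 / N) ^ (n + 1) - x ^ (n + 1) - (n + 1) * x ^ n * (1 / N)) * β := by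
          have : (((j + 1 : ℕ) : ℂ) / N) = x + 1 / N := by
            rw [hx]
            push_cast
            ring
          rw [this]
          ring
        have h5' : ‖(x + 1 / N) ^ (n + 1) - x ^ (n + 1) - (n + 1) * x ^ n * (1 / N)‖ ≤
            4 ^ (n + 1) * (1 / N : ℝ) ^ 2 := by
          have h6 : (x + 1 / N) ^ (n + 1) - x ^ (n + 1) - (n + 1) * x ^ n * (1 / N) =
              (((((j : ℝ) / N + 1 / N) ^ (n + 1) - ((j : ℝ) / N) ^ (n + 1) -
                (n + 1) * ((j : ℝ) / N) ^ n * (1 / N) : ℝ)) : ℂ) := by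
            rw [hx]
            push_cast
            ring
          rw [h6, Complex.norm_real, Real.norm_eq_abs]
          exact h5
        have hc : ‖((n : ℂ) + 1) * (1 / N)‖ = ((n : ℝ) + 1) * (1 / N) := by
          rw [norm_mul, norm_div, norm_one, Complex.norm_natCast]
          congr 1
          have : ((n : ℂ) + 1) = (((n : ℝ) + 1 : ℝ) : ℂ) := by push_cast; ring
          rw [this, Complex.norm_real, Real.norm_of_nonneg (by positivity)]
        rw [hdec]
        have ht : ‖(Q - x ^ (n + 1) * β) + (P - Q - ((n : ℂ) + 1) * (1 / N * U)) +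
            (((n : ℂ) + 1) * (1 / N)) * (U - V) + (((n : ℂ) + 1) * (1 / N)) * (V - x ^ n * β) -
            ((x + 1 / N) ^ (n + 1) - x ^ (n + 1) - (n + 1) * x ^ n * (1 / N)) * β‖ ≤
            (j : ℝ) / N * (((n + 1) * (1 + C) + 2 * 4 ^ (n + 1)) * E) + 4 ^ (n + 1) * ‖b‖ * (1 / N) ^ 2 +
            (((n : ℝ) + 1) * (1 / N)) * ε + (((n : ℝ) + 1) * (1 / N)) * (C * E) +
            4 ^ (n + 1) * (1 / N : ℝ) ^ 2 * ‖b‖ := by
          refine (norm_sub_le _ _).trans (add_le_add ?_ ?_)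
          · refine (norm_add_le _ _).trans (add_le_add ?_ ?_)
            · refine (norm_add_le _ _).trans (add_le_add ?_ ?_)
              · exact (norm_add_le _ _).trans (add_le_add h1 h2')
              · rw [norm_mul, hc]
                gcongr
            · rw [norm_mul, hc]
              gcongr
          · rw [norm_mul]
            gcongr
        refine ht.trans ?_
        have e1 : (((j + 1 : ℕ) : ℝ)) / N = j / N + 1 / N := by
          push_cast
          ring
        rw [e1]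
        have e2 : 4 ^ (n + 1) * ‖b‖ * (1 / N : ℝ) ^ 2 = 1 / N * (4 ^ (n + 1) * (‖b‖ / N)) := by ring
        have e3 : 4 ^ (n + 1) * (1 / N : ℝ) ^ 2 * ‖b‖ = 1 / N * (4 ^ (n + 1) * (‖b‖ / N)) := by ring
        rw [e2, e3]
        have e4 : 1 / (N : ℝ) * (4 ^ (n + 1) * (‖b‖ / N)) ≤ 1 / N * (4 ^ (n + 1) * E) := by gcongr
        have e5 : (((n : ℝ) + 1) * (1 / N)) * ε ≤ (((n : ℝ) + 1) * (1 / N)) * E := by gcongr
        calc _ ≤ (j : ℝ) / N * (((n + 1) * (1 + C) + 2 * 4 ^ (n + 1)) * E) + 1 / N * (4 ^ (n + 1) * E) +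
            (((n : ℝ) + 1) * (1 / N)) * E + (((n : ℝ) + 1) * (1 / N)) * (C * E) +
            1 / N * (4 ^ (n + 1) * E) := by gcongr
          _ = _ := by ring
    rw [hβ']
    refine (hmain m hm).trans ?_
    have hmN : (m : ℝ) / N ≤ 1 := by
      rw [div_le_one hN']
      exact_mod_cast hm
    calc (m : ℝ) / N * (((n + 1) * (1 + C) + 2 * 4 ^ (n + 1)) * E)
        ≤ 1 * (((n + 1) * (1 + C) + 2 * 4 ^ (n + 1)) * E) := by gcongr
      _ = _ := one_mul _

end Pool.Agent.Lib.MP_a7c449_an.Range
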