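import Pool.Agent.Lib.MP_a7c449_an.Range.Red

/-! The extension of a multilinear form to the bidual. -/

set_option autoImplicit false
set_option maxSynthPendingDepth 3

namespace Pool.Agent.Lib.MP_a7c449_an.Range

/-- `extL X (n+1) b (y, …) = extL X n (redL b y) (…)`. -/
noncomputable def extL (X : Type*) [NormedAddCommGroup X] [NormedSpace ℂ X] :
    (n : ℕ) → (X [×n]→L[ℂ] ℂ) →L[ℂ] (Bid X [×n]→L[ℂ] ℂ)
  | 0 => ((continuousMultilinearCurryFin0 ℂ (Bid X) ℂ).symm.toContinuousLinearEquiv :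
        ℂ →L[ℂ] (Bid X [×0]→L[ℂ] ℂ)).comp
      ((continuousMultilinearCurryFin0 ℂ X ℂ).toContinuousLinearEquiv : (X [×0]→L[ℂ] ℂ) →L[ℂ] ℂ)
  | n + 1 => (((continuousMultilinearCurryLeftEquiv ℂ (fun _ : Fin (n + 1) => Bid X) ℂ).symm.toContinuousLinearEquiv :
        (Bid X →L[ℂ] (Bid X [×n]→L[ℂ] ℂ)) →L[ℂ] (Bid X [×(n + 1)]→L[ℂ] ℂ)).comp
      (ContinuousLinearMap.compL ℂ (Bid X) (X [×n]→L[ℂ] ℂ) (Bid X [×n]→L[ℂ] ℂ) (extL X n))).comp (redL X n)

variable {X : Type*} [NormedAddCommGroup X] [NormedSpace ℂ X]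

theorem extL_zero (b : X [×0]→L[ℂ] ℂ) (v : Fin 0 → Bid X) : extL X 0 b v = b 0 := by
  rfl

theorem extL_succ {n : ℕ} (b : X [×(n + 1)]→L[ℂ] ℂ) (v : Fin (n + 1) → Bid X) :
    extL X (n + 1) b v = extL X n (redL X n b (v 0)) (Fin.tail v) := by
  rfl

theorem extL_diag {n : ℕ} (b : X [×(n + 1)]→L[ℂ] ℂ) (y : Bid X) :
    (extL X (n + 1) b fun _ => y) = extL X n (redL X n b y) fun _ => y := by
  rw [extL_succ]
  rfl

/-- Induction with `extL_succ`, `redL_J`. -/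
theorem extL_J {n : ℕ} (b : X [×n]→L[ℂ] ℂ) (x : X) :
    (extL X n b fun _ => NormedSpace.inclusionInDoubleDual ℂ X x) = b fun _ => x := by
  induction n with
  | zero =>
    rw [extL_zero]
    congr 1
    exact Subsingleton.elim _ _
  | succ n ih =>
    rw [extL_diag, redL_J, ih, ContinuousMultilinearMap.curryLeft_apply]
    congr 1
    funext i
    refine Fin.cases ?_ (fun j => ?_) i
    · rfl
    · rfl

/-- Induction with `extL_diag`, `norm_redL_le`. -/
theorem norm_extL_diag_le {n : ℕ} (b : X [×n]→L[ℂ] ℂ) {y : Bid X} (hy : ‖y‖ ≤ 1) :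
    ‖extL X n b fun _ => y‖ ≤ ‖b‖ := by
  induction n with
  | zero =>
    rw [extL_zero]
    have h := b.le_opNorm 0
    simpa using h
  | succ n ih =>
    rw [extL_diag]
    refine (ih (redL X n b y)).trans ((norm_redL_le b y).trans ?_)
    exact mul_le_of_le_one_right (norm_nonneg b) hy

end Pool.Agent.Lib.MP_a7c449_an.Range
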