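import Pool.Agent.Lib.MP_a7c449_an.Range.MFDual

/-! The bidual of the space `X_F`: `X** = ℓ_∞ ⊕_∞ F**`. -/

set_option autoImplicit false
set_option maxSynthPendingDepth 3

namespace Pool.Agent.Lib.MP_a7c449_an.Range

variable {X F : Type*} [NormedAddCommGroup X] [NormedSpace ℂ X] [NormedAddCommGroup F] [NormedSpace ℂ F]

private theorem MF.MFBid_norm_ev (m : MF X F) (n : ℕ) : ‖m.ev n‖ ≤ 1 :=
  ContinuousLinearMap.opNorm_le_bound _ zero_le_one fun x => by
    rw [one_mul]; exact m.ev_le n x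

private theorem MF.MFBid_norm_coord (m : MF X F) (n : ℕ) (φ : StrongDual ℂ X) :
    ‖φ - φ (m.e n) • m.ev n‖ + ‖φ (m.e n)‖ = ‖φ‖ := by
  rw [m.norm_eq φ, m.norm_eq (φ - φ (m.e n) • m.ev n)]
  have h1 : m.Gam (φ - φ (m.e n) • m.ev n) = m.Gam φ := by
    rw [map_sub, map_smul, m.Gam_ev, smul_zero, sub_zero]
  have h2 : ∀ j, ‖(φ - φ (m.e n) • m.ev n) (m.e j)‖ = if j = n then 0 else ‖φ (m.e j)‖ := by
    intro j
    rw [ContinuousLinearMap.sub_apply, ContinuousLinearMap.smul_apply, m.ev_e]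
    by_cases hj : j = n
    · rw [if_pos hj.symm, if_pos hj, hj]
      simp
    · rw [if_neg (fun h => hj h.symm), if_neg hj]
      simp
  rw [h1, tsum_congr h2, (m.summable φ).tsum_eq_add_tsum_ite n]
  ring

private theorem MF.MFBid_norm_F (m : MF X F) (φ : StrongDual ℂ X) :
    ‖φ - (m.Gam φ).comp m.q‖ + ‖m.Gam φ‖ = ‖φ‖ := by
  rw [m.norm_eq φ, m.norm_eq (φ - (m.Gam φ).comp m.q)]
  have h1 : m.Gam (φ - (m.Gam φ).comp m.q) = 0 := by
    rw [map_sub, m.Gam_comp, sub_self]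
  have h2 : ∀ j, ‖(φ - (m.Gam φ).comp m.q) (m.e j)‖ = ‖φ (m.e j)‖ := by
    intro j
    rw [ContinuousLinearMap.sub_apply, ContinuousLinearMap.comp_apply, m.q_e, map_zero, sub_zero]
  rw [h1, tsum_congr h2, norm_zero, add_zero]

/-- The coordinate `n` of the bidual. `swap`: for `φ ∈ X*` put `φ' = φ - φ (e n) • ev n`. Then
`(y - inj (pr y) + inj w) φ = y φ' + w * φ (e n)`, and `‖φ'‖ + ‖φ (e n)‖ = ‖φ‖` by `MF.norm_eq` (`φ' (e k) = φ (e k)` for
`k ≠ n`, `φ' (e n) = 0`, `Gam φ' = Gam φ`). -/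
noncomputable def MF.bidCoord (m : MF X F) (n : ℕ) : Summand (Bid X) ℂ where
  pr := ContinuousLinearMap.apply ℂ ℂ (m.ev n)
  inj := ContinuousLinearMap.toSpanSingleton ℂ (ContinuousLinearMap.apply ℂ ℂ (m.e n))
  pr_le := by
    intro y
    rw [ContinuousLinearMap.apply_apply]
    calc ‖y (m.ev n)‖ ≤ ‖y‖ * ‖m.ev n‖ := y.le_opNorm _
      _ ≤ ‖y‖ * 1 := by
          gcongr
          exact m.MFBid_norm_ev n
      _ = ‖y‖ := mul_one _
  pr_inj := by
    intro w
    rw [ContinuousLinearMap.apply_apply, ContinuousLinearMap.toSpanSingleton_apply,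
      ContinuousLinearMap.smul_apply, ContinuousLinearMap.apply_apply, m.ev_e, if_pos rfl]
    simp
  swap := by
    intro y w M hy hw
    have hM : 0 ≤ M := (norm_nonneg _).trans hy
    refine ContinuousLinearMap.opNorm_le_bound _ hM fun φ => ?_
    rw [ContinuousLinearMap.add_apply, ContinuousLinearMap.sub_apply, ContinuousLinearMap.toSpanSingleton_apply,
      ContinuousLinearMap.toSpanSingleton_apply, ContinuousLinearMap.smul_apply, ContinuousLinearMap.smul_apply,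
      ContinuousLinearMap.apply_apply, ContinuousLinearMap.apply_apply, smul_eq_mul, smul_eq_mul]
    have h1 : y φ - y (m.ev n) * φ (m.e n) + w * φ (m.e n) =
        y (φ - φ (m.e n) • m.ev n) + w * φ (m.e n) := by
      rw [map_sub, map_smul, smul_eq_mul]
      ring
    rw [h1, ← m.MFBid_norm_coord n φ, mul_add]
    refine (norm_add_le _ _).trans (add_le_add ?_ ?_)
    · calc ‖y (φ - φ (m.e n) • m.ev n)‖ ≤ ‖y‖ * ‖φ - φ (m.e n) • m.ev n‖ := y.le_opNorm _
        _ ≤ _ := by gcongr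
    · rw [norm_mul]
      gcongr

/-- The component in `F**`: `pr y = (g ↦ y (g ∘ q))`, `inj ψ = (φ ↦ ψ (Gam φ))`. `swap`:
`(y - inj (pr y) + inj ψ) φ = y (φ - (Gam φ) ∘ q) + ψ (Gam φ)`, and `‖φ - (Gam φ) ∘ q‖ = ∑ ‖φ (e n)‖` by `MF.norm_eq`,
`MF.Gam_comp`, `q_e`. -/
noncomputable def MF.bidF (m : MF X F) : Summand (Bid X) (Bid F) where
  pr := (ContinuousLinearMap.compL ℂ (F →L[ℂ] ℂ) (X →L[ℂ] ℂ) ℂ).flip
    ((ContinuousLinearMap.compL ℂ X F ℂ).flip m.q)
  inj := (ContinuousLinearMap.compL ℂ (X →L[ℂ] ℂ) (F →L[ℂ] ℂ) ℂ).flip m.Gam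
  pr_le := by
    intro y
    refine ContinuousLinearMap.opNorm_le_bound _ (norm_nonneg _) fun g => ?_
    show ‖y (g.comp m.q)‖ ≤ ‖y‖ * ‖g‖
    refine (y.le_opNorm _).trans ?_
    gcongr
    refine ContinuousLinearMap.opNorm_le_bound _ (norm_nonneg _) fun x => ?_
    rw [ContinuousLinearMap.comp_apply]
    refine (g.le_opNorm _).trans ?_
    gcongr
    exact m.q_le x
  pr_inj := by
    intro ψ
    refine ContinuousLinearMap.ext fun g => ?_
    show ψ (m.Gam (g.comp m.q)) = ψ g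
    rw [m.Gam_comp]
  swap := by
    intro y ψ M hy hψ
    have hM : 0 ≤ M := (norm_nonneg _).trans hy
    refine ContinuousLinearMap.opNorm_le_bound _ hM fun φ => ?_
    show ‖y φ - y ((m.Gam φ).comp m.q) + ψ (m.Gam φ)‖ ≤ M * ‖φ‖
    rw [← map_sub, ← m.MFBid_norm_F φ, mul_add]
    refine (norm_add_le _ _).trans (add_le_add ?_ ?_)
    · refine (y.le_opNorm _).trans ?_
      gcongr
    · refine (ψ.le_opNorm _).trans ?_
      gcongr

/-- `φ = ∑ φ (e n) • ev n + (Gam φ) ∘ q` with a norm convergent series (by `MF.decomp`, `MF.summable`), so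
`y φ = ∑ φ (e n) y (ev n) + (pr y) (Gam φ)`, and `MF.norm_eq`. -/
theorem MF.bid_norm (m : MF X F) (y : Bid X) {M : ℝ} (hM : 0 ≤ M) (h1 : ∀ n, ‖(m.bidCoord n).pr y‖ ≤ M)
    (h2 : ‖m.bidF.pr y‖ ≤ M) : ‖y‖ ≤ M := by
  refine ContinuousLinearMap.opNorm_le_bound _ hM fun φ => ?_
  have hs : Summable (fun n => φ (m.e n) • m.ev n) := by
    refine Summable.of_norm_bounded (m.summable φ) fun n => ?_
    rw [norm_smul]
    calc ‖φ (m.e n)‖ * ‖m.ev n‖ ≤ ‖φ (m.e n)‖ * 1 := by
          gcongr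
          exact m.MFBid_norm_ev n
      _ = _ := mul_one _
  have hS : ∑' n, φ (m.e n) • m.ev n = φ - (m.Gam φ).comp m.q := by
    refine ContinuousLinearMap.ext fun x => ?_
    have h3 : (∑' n, φ (m.e n) • m.ev n) x = ∑' n, φ (m.e n) * m.ev n x := by
      have := (ContinuousLinearMap.apply ℂ ℂ x).hasSum hs.hasSum
      exact this.tsum_eq.symm
    rw [h3, ContinuousLinearMap.sub_apply, ContinuousLinearMap.comp_apply, m.Gam_apply, m.decomp φ x]
    ring
  have hy : y φ = ∑' n, φ (m.e n) * y (m.ev n) + y ((m.Gam φ).comp m.q) := by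
    have h4 := y.hasSum hs.hasSum
    rw [hS, map_sub] at h4
    have h5 := h4.tsum_eq
    have h6 : ∑' n, y (φ (m.e n) • m.ev n) = ∑' n, φ (m.e n) * y (m.ev n) :=
      tsum_congr fun n => by rw [map_smul, smul_eq_mul]
    rw [← h6, h5]
    ring
  have h7 : y ((m.Gam φ).comp m.q) = (m.bidF.pr y) (m.Gam φ) := rfl
  rw [hy, m.norm_eq φ, mul_add]
  refine (norm_add_le _ _).trans (add_le_add ?_ ?_)
  · have hle : ∀ n, ‖φ (m.e n) * y (m.ev n)‖ ≤ ‖φ (m.e n)‖ * M := by
      intro n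
      rw [norm_mul]
      gcongr
      exact h1 n
    have h8 : Summable fun n => ‖φ (m.e n) * y (m.ev n)‖ :=
      Summable.of_nonneg_of_le (fun _ => norm_nonneg _) hle ((m.summable φ).mul_right M)
    refine (norm_tsum_le_tsum_norm h8).trans ?_
    rw [mul_comm M, ← tsum_mul_right]
    exact h8.tsum_le_tsum hle ((m.summable φ).mul_right M)
  · rw [h7]
    refine ((m.bidF.pr y).le_opNorm _).trans ?_
    gcongr

private theorem MFBid_nontrivial (F : Type*) [NormedAddCommGroup F] [NormedSpace ℂ F] [Nontrivial F] :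
    Nontrivial (Bid F) := by
  obtain ⟨f, hf⟩ := exists_ne (0 : F)
  refine ⟨⟨NormedSpace.inclusionInDoubleDualLi ℂ (E := F) f, 0, fun h => hf ?_⟩⟩
  have := (NormedSpace.inclusionInDoubleDualLi ℂ (E := F)).norm_map f
  rw [h, norm_zero] at this
  exact norm_eq_zero.1 this.symm

private theorem MF.MFBid_nontrivial_self (m : MF X F) : Nontrivial X := by
  refine ⟨⟨m.e 0, 0, fun h => ?_⟩⟩
  have := m.ev_e 0 0
  rw [h] at this
  simp at this

/-- `≤` by `Summand.numIndex_le`; `≥`: `numIndex (Bid F) ≤ 1 = numIndex ℂ`, `Summand.loc` for `bidCoord n` and `bidF`,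
`MF.bid_norm` (as in `numIndex_prod`). -/
theorem MF.numIndex_bid (m : MF X F) [Nontrivial F] (k : ℕ) : numIndex ℂ (Bid X) k = numIndex ℂ (Bid F) k := by
  have i1 : Nontrivial (Bid F) := MFBid_nontrivial F
  have i2 : Nontrivial X := m.MFBid_nontrivial_self
  have i3 : Nontrivial (Bid X) := MFBid_nontrivial X
  refine le_antisymm m.bidF.numIndex_le (le_numIndex fun A hA => ?_)
  rcases (numIndex_nonneg (X := Bid F) (k := k)).eq_or_lt with h0 | h0
  · rw [← h0]
    exact numRadius_nonneg A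
  · have h1 : polyNorm ℂ (Bid X) A ≤ numRadius ℂ (Bid X) A / numIndex ℂ (Bid F) k := by
      refine polyNorm_le A fun x hx => ?_
      refine m.bid_norm _ (div_nonneg (numRadius_nonneg A) h0.le) (fun n => ?_) ?_
      · rw [le_div_iff₀ h0, mul_comm]
        refine le_trans ?_ ((m.bidCoord n).loc A x hx)
        rw [numIndex_complex]
        gcongr
        exact numIndex_le_one
      · rw [le_div_iff₀ h0, mul_comm]
        exact m.bidF.loc A x hx
    rw [hA, le_div_iff₀ h0, one_mul] at h1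
    exact h1

/-- `numIndex_coord` (`X` is nontrivial since `ev 0 (e 0) = 1`). -/
theorem MF.numIndex_self (m : MF X F) (k : ℕ) : numIndex ℂ X k = 1 := by
  have i2 : Nontrivial X := m.MFBid_nontrivial_self
  refine numIndex_coord k m.ev m.e m.ev_le (fun i => ?_) (fun i j hij => ?_) m.norm_le
  · rw [m.ev_e, if_pos rfl]
  · rw [m.ev_e, if_neg hij]

end Pool.Agent.Lib.MP_a7c449_an.Range
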