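import Pool.Agent.Lib.MP_a7c449_an.Range.XFDef

/-! Norming sequences of functionals. -/

set_option autoImplicit false
set_option maxSynthPendingDepth 3

namespace Pool.Agent.Lib.MP_a7c449_an.Range

/-- Let `d k` be a dense sequence (`TopologicalSpace.denseSeq`), `g k` a functional of norm at most one with
`g k (d k) = ‖d k‖` (`exists_dual_vector''`), and `ω n = g (Nat.unpair n).1`, so that every `g k` occurs infinitely
often. For `f` choose `k` with `‖f - d k‖ < ε / 2`: `‖g k f‖ ≥ ‖d k‖ - ‖f - d k‖ > ‖f‖ - ε`. -/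
theorem exists_Om (F : Type*) [NormedAddCommGroup F] [NormedSpace ℂ F] [TopologicalSpace.SeparableSpace F] :
    Nonempty (Om F) := by
  have hex : ∀ k : ℕ, ∃ g : StrongDual ℂ F, ‖g‖ ≤ 1 ∧
      g (TopologicalSpace.denseSeq F k) = (‖TopologicalSpace.denseSeq F k‖ : ℂ) := fun k =>
    exists_dual_vector'' ℂ (TopologicalSpace.denseSeq F k)
  choose g hg1 hg2 using hex
  refine ⟨⟨fun n => g (Nat.unpair n).1, fun n => hg1 _, ?_⟩⟩
  intro f ε hε N
  obtain ⟨k, hk⟩ := (TopologicalSpace.denseRange_denseSeq F).exists_dist_lt f (half_pos hε)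
  refine ⟨Nat.pair k N, Nat.right_le_pair k N, ?_⟩
  simp only [Nat.unpair_pair]
  rw [dist_eq_norm] at hk
  set d := TopologicalSpace.denseSeq F k with hd
  have h1 : ‖g k (f - d)‖ ≤ ‖f - d‖ := by
    calc ‖g k (f - d)‖ ≤ ‖g k‖ * ‖f - d‖ := (g k).le_opNorm _
      _ ≤ 1 * ‖f - d‖ := mul_le_mul_of_nonneg_right (hg1 k) (norm_nonneg _)
      _ = ‖f - d‖ := one_mul _
  have h2 : ‖g k d‖ = ‖d‖ := by
    rw [hg2 k]
    simp [hd]
  have h3 : ‖g k d‖ ≤ ‖g k f‖ + ‖g k (f - d)‖ := by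
    have e : g k d = g k f - g k (f - d) := by
      rw [map_sub]; abel
    rw [e]
    exact norm_sub_le _ _
  have h4 : ‖f‖ ≤ ‖d‖ + ‖f - d‖ := by
    have e : f = d + (f - d) := by abel
    calc ‖f‖ = ‖d + (f - d)‖ := by rw [← e]
      _ ≤ ‖d‖ + ‖f - d‖ := norm_add_le _ _
  linarith

end Pool.Agent.Lib.MP_a7c449_an.Range
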