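import Pool.Agent.Lib.MP_a7c449_an.Range.XFDef

/-! The space `X_F`. -/

set_option autoImplicit false
set_option maxSynthPendingDepth 3

namespace Pool.Agent.Lib.MP_a7c449_an.Range

open scoped ZeroAtInfty

universe u

variable {F : Type u} [NormedAddCommGroup F] [NormedSpace ℂ F]

/-- `c_0 × F` with the norm `nX O`. -/
def XT (_O : Om F) : Type u := C₀(ℕ, ℂ) × F

variable (O : Om F)

noncomputable instance : AddCommGroup (XT O) := inferInstanceAs (AddCommGroup (C₀(ℕ, ℂ) × F))

noncomputable instance : Module ℂ (XT O) := inferInstanceAs (Module ℂ (C₀(ℕ, ℂ) × F))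

noncomputable instance : Norm (XT O) := ⟨fun x => nX O (x : C₀(ℕ, ℂ) × F)⟩

theorem XT.norm_def (x : XT O) : ‖x‖ = nX O (x : C₀(ℕ, ℂ) × F) := rfl

/-- From `nX_add`, `nX_smul`, `snd_le_nX`, `fst_le_nX`. -/
theorem XT.core : NormedSpace.Core ℂ (XT O) where
  norm_nonneg x := (norm_nonneg _).trans (snd_le_nX O x)
  norm_smul c x := nX_smul O c x
  norm_triangle x y := nX_add O x y
  norm_eq_zero_iff x := by
    constructor
    · intro h
      have h0 : nX O (x : C₀(ℕ, ℂ) × F) = 0 := h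
      have h1 : ‖(x : C₀(ℕ, ℂ) × F).1‖ ≤ 0 := by
        have := fst_le_nX O (x : C₀(ℕ, ℂ) × F)
        rwa [h0, mul_zero] at this
      have h2 : ‖(x : C₀(ℕ, ℂ) × F).2‖ ≤ 0 := by
        have := snd_le_nX O (x : C₀(ℕ, ℂ) × F)
        rwa [h0] at this
      exact Prod.ext (norm_le_zero_iff.1 h1) (norm_le_zero_iff.1 h2)
    · intro h
      subst h
      refine le_antisymm ?_ ((norm_nonneg _).trans (snd_le_nX O (0 : C₀(ℕ, ℂ) × F)))
      have h1 := nX_le_add O (0 : C₀(ℕ, ℂ) × F)
      have h2 : ‖(0 : C₀(ℕ, ℂ) × F).1‖ + ‖(0 : C₀(ℕ, ℂ) × F).2‖ = 0 := by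
        rw [Prod.fst_zero, Prod.snd_zero, norm_zero, norm_zero, add_zero]
      rw [h2] at h1
      exact h1

noncomputable instance : NormedAddCommGroup (XT O) := NormedAddCommGroup.ofCore (XT.core O)

noncomputable instance : NormedSpace ℂ (XT O) := NormedSpace.ofCore (XT.core O)

/-- The identity. -/
noncomputable def XT.id : XT O ≃ₗ[ℂ] (C₀(ℕ, ℂ) × F) := LinearEquiv.refl ℂ (C₀(ℕ, ℂ) × F)

/-- The identity is a linear homeomorphism (`fst_le_nX`, `snd_le_nX`, `nX_le_add`;
`LinearEquiv.toContinuousLinearEquivOfBounds`). -/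
theorem XT.exists_equiv : Nonempty (XT O ≃L[ℂ] (C₀(ℕ, ℂ) × F)) := by
  have key : ∀ y : C₀(ℕ, ℂ) × F, ‖y‖ ≤ 2 * nX O y := by
    intro y
    have h1 := fst_le_nX O y
    have h2 := snd_le_nX O y
    have h3 : 0 ≤ nX O y := (norm_nonneg _).trans h2
    rw [Prod.norm_def]
    exact max_le h1 (by linarith)
  refine ⟨(XT.id O).toContinuousLinearEquivOfBounds 2 2 (fun x => key x) fun x => ?_⟩
  · have h1 := nX_le_add O x
    have h2 : ‖x.1‖ ≤ ‖x‖ := norm_fst_le x
    have h3 : ‖x.2‖ ≤ ‖x‖ := norm_snd_le x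
    show nX O x ≤ 2 * ‖x‖
    linarith

/-- From `XT.exists_equiv` (the equivalence is a uniform isomorphism, `C₀(ℕ, ℂ)` is complete). -/
theorem XT.complete [CompleteSpace F] : CompleteSpace (XT O) := by
  obtain ⟨T⟩ := XT.exists_equiv O
  exact (completeSpace_congr (e := T.toLinearEquiv.toEquiv) T.isUniformEmbedding).2 inferInstance

/-- The unit vector of `c_0`. -/
private noncomputable def XT_unit (n : ℕ) : C₀(ℕ, ℂ) where
  toFun := Pi.single n 1
  continuous_toFun := continuous_of_discreteTopology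
  zero_at_infty' := by
    rw [Filter.cocompact_eq_cofinite]
    refine tendsto_const_nhds.congr' ?_
    have h1 : ∀ᶠ m in Filter.cofinite, m ≠ n := by
      rw [Filter.eventually_cofinite]
      simp
    filter_upwards [h1] with m hm
    rw [Pi.single_apply, if_neg hm]

private theorem XT_unit_apply (m n : ℕ) : XT_unit n m = if m = n then 1 else 0 :=
  Pi.single_apply n (1 : ℂ) m

/-- `ev n (z, f) = z n + ω n f`, `q (z, f) = f`, `J f = (0, f)`, `e n = (unit vector, 0)`. -/
theorem XT.exists_MF : Nonempty (MF (XT O) F) := by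
  let ev : ℕ → (XT O →L[ℂ] ℂ) := fun n => LinearMap.mkContinuous
    { toFun := fun x : C₀(ℕ, ℂ) × F => x.1 n + O.ω n x.2
      map_add' := fun x y => by
        show (x.1 + y.1) n + O.ω n (x.2 + y.2) = _
        rw [ZeroAtInftyContinuousMap.add_apply, map_add]
        ring
      map_smul' := fun c x => by
        show (c • x.1) n + O.ω n (c • x.2) = c • (x.1 n + O.ω n x.2)
        rw [ZeroAtInftyContinuousMap.smul_apply, map_smul, smul_add] } 1
    (fun x => by
      rw [one_mul]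
      exact le_nX O x n)
  let q : XT O →L[ℂ] F := LinearMap.mkContinuous
    { toFun := fun x : C₀(ℕ, ℂ) × F => x.2
      map_add' := fun _ _ => rfl
      map_smul' := fun _ _ => rfl } 1
    (fun x => by
      rw [one_mul]
      exact snd_le_nX O x)
  have hJ0 : ∀ f : F, nX O ((0, f) : C₀(ℕ, ℂ) × F) ≤ ‖f‖ := by
    intro f
    have h1 := nX_le_add O ((0, f) : C₀(ℕ, ℂ) × F)
    rw [norm_zero, zero_add] at h1
    exact h1
  have hJ1 : ∀ f g : F, ((0, f + g) : C₀(ℕ, ℂ) × F) = (0, f) + (0, g) := by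
    intro f g
    rw [Prod.mk_add_mk, add_zero]
  have hJ2 : ∀ (c : ℂ) (f : F), ((0, c • f) : C₀(ℕ, ℂ) × F) = c • (0, f) := by
    intro c f
    rw [Prod.smul_mk, smul_zero]
  let J : F →L[ℂ] XT O := LinearMap.mkContinuous
    { toFun := fun f => (((0, f) : C₀(ℕ, ℂ) × F) : XT O)
      map_add' := hJ1
      map_smul' := hJ2 } 1
    (fun f => by
      rw [one_mul]
      exact hJ0 f)
  exact ⟨{
    ev := ev
    e := fun n => (((XT_unit n, 0) : C₀(ℕ, ℂ) × F) : XT O)
    q := q
    J := J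
    ev_le := fun n x => le_nX O x n
    q_le := fun x => snd_le_nX O x
    norm_le := fun x M _ h => nX_le O x h
    ev_e := fun m n => by
      show XT_unit n m + O.ω m 0 = _
      rw [map_zero, add_zero, XT_unit_apply]
    q_e := fun _ => rfl
    q_J := fun _ => rfl
    norm_J := hJ0
    tend := fun x => by
      have h1 : (fun n => ev n (x - J (q x))) = fun n => (x : C₀(ℕ, ℂ) × F).1 n := by
        funext n
        show ((x : C₀(ℕ, ℂ) × F).1 - 0) n + O.ω n ((x : C₀(ℕ, ℂ) × F).2 - (x : C₀(ℕ, ℂ) × F).2) = _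
        rw [sub_self, map_zero, add_zero, sub_zero]
      rw [h1]
      have h2 := (x : C₀(ℕ, ℂ) × F).1.zero_at_infty'
      rw [Filter.cocompact_eq_cofinite, Nat.cofinite_eq_atTop] at h2
      exact h2 }⟩

end Pool.Agent.Lib.MP_a7c449_an.Range
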