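import Pool.Agent.Lib.MP_a7c449_an.Range.EnAll
import Pool.Agent.Lib.MP_a7c449_an.Range.MFBid
import Pool.Agent.Lib.MP_a7c449_an.Range.BidProd
import Pool.Agent.Lib.MP_a7c449_an.Range.Omega
import Pool.Agent.Lib.MP_a7c449_an.Range.XFType
import Pool.Agent.Lib.MP_a7c449_an.Range.C0

/-! Decoupling of the indices of a space and its bidual, and the exact range. -/

set_option autoImplicit false
set_option maxSynthPendingDepth 3

namespace Pool.Agent.Lib.MP_a7c449_an.Range

open scoped ZeroAtInfty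

/-- For every separable `F` and every `G` there is a space `X`, linearly homeomorphic to `c_0 × F × G`, whose
polynomial numerical indices are those of `G`, while those of the bidual are the minima of those of `F**` and `G**`. -/
theorem decouple.{u, v} (F : Type u) (G : Type v) [NormedAddCommGroup F] [NormedSpace ℂ F] [CompleteSpace F]
    [TopologicalSpace.SeparableSpace F] [Nontrivial F]
    [NormedAddCommGroup G] [NormedSpace ℂ G] [CompleteSpace G] [Nontrivial G] :
    ∃ (X : Type (max u v)) (_ : NormedAddCommGroup X) (_ : NormedSpace ℂ X) (_ : CompleteSpace X),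
      Nonempty (X ≃L[ℂ] ((C₀(ℕ, ℂ) × F) × G)) ∧ ∀ k : ℕ,
        numIndex ℂ X k = numIndex ℂ G k ∧
        numIndex ℂ (Bid X) k = min (numIndex ℂ (Bid F) k) (numIndex ℂ (Bid G) k) := by
  obtain ⟨O⟩ := exists_Om F
  obtain ⟨m⟩ := XT.exists_MF O
  obtain ⟨T⟩ := XT.exists_equiv O
  have := XT.complete O
  have : Nontrivial (XT O) := by
    refine ⟨⟨m.e 0, 0, fun h => ?_⟩⟩
    have := m.ev_e 0 0
    rw [h] at this
    simp at this
  refine ⟨XT O × G, inferInstance, inferInstance, inferInstance, ⟨T.prodCongr (ContinuousLinearEquiv.refl ℂ G)⟩,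
    fun k => ⟨?_, ?_⟩⟩
  · rw [numIndex_prod, m.numIndex_self]
    exact min_eq_right numIndex_le_one
  · rw [numIndex_bid_prod, m.numIndex_bid]

/-- All pairs `c_k ≤ s ≤ t ≤ 1` are attained by equivalent norms on `c_0`. -/
theorem range (m : ℕ) {s t : ℝ} (h1 : cc m ≤ s) (h2 : s ≤ t) (h3 : t ≤ 1) :
    ∃ (X : Type) (_ : NormedAddCommGroup X) (_ : NormedSpace ℂ X) (_ : CompleteSpace X),
      Nonempty (X ≃L[ℂ] C₀(ℕ, ℂ)) ∧ numIndex ℂ X (m + 2) = t ∧ numIndex ℂ (Bid X) (m + 2) = s := by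
  obtain ⟨τ, hτ⟩ := En.exists_eq m h1 (h2.trans h3)
  obtain ⟨σ, hσ⟩ := En.exists_eq m (h1.trans h2) h3
  have : TopologicalSpace.SeparableSpace (En m τ) := by
    have := FiniteDimensional.proper ℂ (En m τ)
    infer_instance
  obtain ⟨X, i1, i2, i3, ⟨T⟩, h⟩ := decouple (En m τ) (En m σ)
  obtain ⟨T1⟩ := c0_absorb_fd (En m τ)
  obtain ⟨T2⟩ := c0_absorb_fd (En m σ)
  refine ⟨X, i1, i2, i3, ⟨(T.trans (T1.prodCongr (ContinuousLinearEquiv.refl ℂ (En m σ)))).trans T2⟩, ?_, ?_⟩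
  · rw [(h _).1, hσ]
  · rw [(h _).2, numIndex_bid_fd, numIndex_bid_fd, hτ, hσ, min_eq_left h2]

end Pool.Agent.Lib.MP_a7c449_an.Range
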