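import Pool.Agent.Lib.MP_a7c449_an.Range.Mix
import Pool.Agent.Lib.MP_a7c449_an.Range.BidMap
import Pool.Agent.Lib.MP_a7c449_an.Range.Near

/-! The index of the bidual along a path of norms. -/

set_option autoImplicit false
set_option maxSynthPendingDepth 3

namespace Pool.Agent.Lib.MP_a7c449_an.Range

universe u v

variable {X : Type u} {Y : Type v} [NormedAddCommGroup X] [NormedSpace ℂ X] [NormedAddCommGroup Y] [NormedSpace ℂ Y]

private theorem MixPath_nontrivial [Nontrivial X] (T : X ≃L[ℂ] Y) (τ : unitInterval) :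
    Nontrivial (Bid (Mix T τ)) := by
  have h1 : Nontrivial (Mix T τ) := inferInstanceAs (Nontrivial X)
  exact (NormedSpace.inclusionInDoubleDualLi ℂ (E := Mix T τ)).injective.nontrivial

/-- `X` is nontrivial, so the biduals are nontrivial. `Range.exists_near`, `Mix.exists_near`, `exists_bidEquiv`. -/
theorem Mix.bid_near [Nontrivial X] (T : X ≃L[ℂ] Y) (k : ℕ) {η : ℝ} (hη : 0 < η) :
    ∃ ε : ℝ, 0 < ε ∧ ∀ τ σ : unitInterval, |(τ : ℝ) - σ| ≤ ε →
      |numIndex ℂ (Bid (Mix T τ)) k - numIndex ℂ (Bid (Mix T σ)) k| ≤ η := by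
  obtain ⟨ε, hε, hε2, hnear⟩ := Range.exists_near.{u, u} k hη
  obtain ⟨C, hC, hS⟩ := Mix.exists_near T
  have key : ∀ τ σ : unitInterval, |(τ : ℝ) - σ| ≤ ε / C →
      numIndex ℂ (Bid (Mix T σ)) k ≤ numIndex ℂ (Bid (Mix T τ)) k + η := by
    intro τ σ h
    obtain ⟨S, hS1⟩ := hS τ σ
    have hδ : C * |(τ : ℝ) - σ| ≤ ε := by
      rw [le_div_iff₀ (by linarith)] at h
      linarith
    have h1 : ∀ x, (1 - ε) * ‖x‖ ≤ ‖S x‖ := fun x =>
      (mul_le_mul_of_nonneg_right (by linarith) (norm_nonneg x)).trans (hS1 x).1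
    have h2 : ∀ x, ‖S x‖ ≤ (1 + ε) * ‖x‖ := fun x =>
      (hS1 x).2.trans (mul_le_mul_of_nonneg_right (by linarith) (norm_nonneg x))
    obtain ⟨S', hS'⟩ := exists_bidEquiv S (by linarith : 0 < 1 - ε) (by linarith : 0 ≤ 1 + ε) h1 h2
    have n1 := MixPath_nontrivial T τ
    have n2 := MixPath_nontrivial T σ
    exact hnear _ _ S' (fun y => (hS' y).1) (fun y => (hS' y).2)
  refine ⟨ε / C, by positivity, fun τ σ h => ?_⟩
  have a := key τ σ h
  have b := key σ τ (by rwa [abs_sub_comm])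
  rw [abs_le]
  constructor <;> linarith

/-- Intermediate value theorem: the function `τ ↦ numIndex ℂ (Bid (Mix T τ)) k` is continuous (`Mix.bid_near`), its values
at `0` and `1` are given by `Mix.zero_iso`, `Mix.one_iso`, `numIndex_bid_congr`. -/
theorem Mix.exists_eq [Nontrivial X] (T : X ≃L[ℂ] Y) (k : ℕ) {s : ℝ} (h1 : numIndex ℂ (Bid Y) k ≤ s)
    (h2 : s ≤ numIndex ℂ (Bid X) k) : ∃ τ : unitInterval, numIndex ℂ (Bid (Mix T τ)) k = s := by
  have hcont : Continuous (fun τ : unitInterval => numIndex ℂ (Bid (Mix T τ)) k) := by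
    rw [Metric.continuous_iff]
    intro σ η hη
    obtain ⟨ε, hε, h⟩ := Mix.bid_near T k (half_pos hη)
    refine ⟨ε, hε, fun τ hτ => ?_⟩
    rw [Real.dist_eq]
    have h3 : |(τ : ℝ) - σ| ≤ ε := by
      have : dist τ σ = |(τ : ℝ) - σ| := rfl
      linarith
    linarith [h τ σ h3]
  obtain ⟨T0⟩ := Mix.zero_iso T
  obtain ⟨T1⟩ := Mix.one_iso T
  have e0 : numIndex ℂ (Bid (Mix T 0)) k = numIndex ℂ (Bid X) k := numIndex_bid_congr T0 k
  have e1 : numIndex ℂ (Bid (Mix T 1)) k = numIndex ℂ (Bid Y) k := numIndex_bid_congr T1 k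
  have h3 : ∃ a, (fun τ : unitInterval => numIndex ℂ (Bid (Mix T τ)) k) a ≤ s := ⟨1, e1.trans_le h1⟩
  have h4 : ∃ a, s ≤ (fun τ : unitInterval => numIndex ℂ (Bid (Mix T τ)) k) a :=
    ⟨0, h2.trans e0.symm.le⟩
  exact mem_range_of_exists_le_of_exists_ge hcont h3 h4

end Pool.Agent.Lib.MP_a7c449_an.Range
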