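import Pool.Agent.Lib.MP_a7c449_an.Range.FinalA
import Pool.Agent.Lib.MP_a7c449_an.Range.MixPath
import Pool.Agent.Lib.MP_a7c449_an.Range.Absorb
import Pool.Agent.Lib.MP_a7c449_an.Range.BidExt
import Pool.Agent.Lib.MP_a7c449_an.Final

/-! The range of the pairs of indices on a separable space containing `c_0`. -/

set_option autoImplicit false
set_option maxSynthPendingDepth 3

namespace Pool.Agent.Lib.MP_a7c449_an.Range

open scoped ZeroAtInfty

universe u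

theorem cc_eq' (m : ℕ) : cc m = ((m + 2 : ℕ) : ℝ) ^ (((m + 2 : ℕ) : ℝ) / (1 - ((m + 2 : ℕ) : ℝ))) := by
  rw [cc_eq]
  push_cast
  congr 1
  have h1 : (m : ℝ) + 1 ≠ 0 := by positivity
  have h2 : (1 : ℝ) - (m + 2) = -((m : ℝ) + 1) := by ring
  rw [h2, div_neg]

/-- On a separable space `Z` containing `c_0` all pairs `(t, s)` with `c_k ≤ s ≤ n_k(Z**)` and `s ≤ t ≤ 1` are attained by
equivalent norms. -/
theorem range_sep (Z : Type u) [NormedAddCommGroup Z] [NormedSpace ℂ Z] [CompleteSpace Z]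
    [TopologicalSpace.SeparableSpace Z]
    (hZ : ∃ (j : C₀(ℕ, ℂ) →L[ℂ] Z) (c : ℝ), 0 < c ∧ ∀ z, c * ‖z‖ ≤ ‖j z‖) (m : ℕ) {s t : ℝ}
    (h1 : cc m ≤ s) (h2 : s ≤ numIndex ℂ (Bid Z) (m + 2)) (h3 : s ≤ t) (h4 : t ≤ 1) :
    ∃ (X : Type u) (_ : NormedAddCommGroup X) (_ : NormedSpace ℂ X) (_ : CompleteSpace X),
      Nonempty (X ≃L[ℂ] Z) ∧ numIndex ℂ X (m + 2) = t ∧ numIndex ℂ (Bid X) (m + 2) = s := by
  obtain ⟨Y, i1, i2, i3, ⟨T⟩, -, -, hY⟩ := complexCase Z hZ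
  obtain ⟨j, c, hc, hj⟩ := hZ
  have hn : Nontrivial Z := by
    obtain ⟨z, hz'⟩ := exists_c0 (𝕜 := ℂ) (fun n => if n = 0 then 1 else 0)
      (tendsto_const_nhds.congr' (by
        filter_upwards [Filter.eventually_gt_atTop 0] with n hn
        rw [if_neg hn.ne']))
    have hz : z ≠ 0 := by
      intro h
      have := hz' 0
      rw [h] at this
      simp at this
    refine ⟨⟨j z, 0, fun h => ?_⟩⟩
    have := hj z
    rw [h, norm_zero] at this
    have h5 : 0 < ‖z‖ := norm_pos_iff.2 hz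
    nlinarith
  have hYs : numIndex ℂ (Bid Y) (m + 2) ≤ s := by
    refine le_trans (le_of_eq ?_) h1
    rw [cc_eq']
    exact hY (m + 2) (by omega)
  obtain ⟨τ, hτ⟩ := Mix.exists_eq T (m + 2) hYs h2
  obtain ⟨σ, hσ⟩ := En.exists_eq m (h1.trans h3) h4
  have := Mix.complete T τ
  have := Mix.separable T τ
  have : Nontrivial (Mix T τ) := inferInstanceAs (Nontrivial Z)
  obtain ⟨X, k1, k2, k3, ⟨S⟩, h⟩ := decouple (Mix T τ) (En m σ)
  obtain ⟨S1, -⟩ := Mix.exists_equiv T τ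
  obtain ⟨S2⟩ := absorb (E := En m σ) j c hc hj S1
  refine ⟨X, k1, k2, k3, ⟨S.trans S2⟩, ?_, ?_⟩
  · rw [(h _).1, hσ]
  · rw [(h _).2, numIndex_bid_fd (X := En m σ), hτ, hσ, min_eq_left h3]

end Pool.Agent.Lib.MP_a7c449_an.Range
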