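import Pool.Agent.Lib.MP_a7c449_an.Range.Prod

/-! The dual of the space `X_F`: `X* = ℓ₁ ⊕₁ F*`. -/

set_option autoImplicit false
set_option maxSynthPendingDepth 3

namespace Pool.Agent.Lib.MP_a7c449_an.Range

variable {X F : Type*} [NormedAddCommGroup X] [NormedSpace ℂ X] [NormedAddCommGroup F] [NormedSpace ℂ F]

private theorem MFDual_rot (w : ℂ) : ∃ u : ℂ, ‖u‖ ≤ 1 ∧ u * w = ((‖w‖ : ℝ) : ℂ) := by
  by_cases hw : w = 0
  · exact ⟨0, by simp, by simp [hw]⟩
  · refine ⟨(starRingEnd ℂ w) / ((‖w‖ : ℝ) : ℂ), ?_, ?_⟩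
    · rw [norm_div, Complex.norm_real, norm_norm, RCLike.norm_conj, div_self (norm_ne_zero_iff.2 hw)]
    · have h1 : ((‖w‖ : ℝ) : ℂ) ≠ 0 := by exact_mod_cast norm_ne_zero_iff.2 hw
      rw [div_mul_eq_mul_div, div_eq_iff h1, mul_comm, Complex.mul_conj, Complex.normSq_eq_norm_sq]
      push_cast
      ring

/-- For `n ∈ s` choose `u n` of modulus at most one with `u n * φ (e n) = ‖φ (e n)‖`; the vector `∑_{n ∈ s} u n • e n`
has norm at most one (`norm_le`, `ev_e`). -/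
theorem MF.sum_le (m : MF X F) (φ : StrongDual ℂ X) (s : Finset ℕ) : ∑ n ∈ s, ‖φ (m.e n)‖ ≤ ‖φ‖ := by
  choose u hu1 hu2 using MFDual_rot
  set x : X := ∑ n ∈ s, u (φ (m.e n)) • m.e n with hx
  have hev : ∀ n, m.ev n x = if n ∈ s then u (φ (m.e n)) else 0 := by
    intro n
    rw [hx, map_sum]
    simp only [map_smul, m.ev_e, smul_eq_mul, mul_ite, mul_one, mul_zero]
    rw [Finset.sum_ite_eq]
  have hxn : ‖x‖ ≤ 1 := by
    refine m.norm_le x 1 zero_le_one fun n => ?_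
    rw [hev]
    split_ifs
    · exact hu1 _
    · simp
  have hφ : φ x = ((∑ n ∈ s, ‖φ (m.e n)‖ : ℝ) : ℂ) := by
    rw [hx, map_sum]
    push_cast
    refine Finset.sum_congr rfl fun n _ => ?_
    rw [map_smul, smul_eq_mul, hu2]
  have h1 : ‖φ x‖ ≤ ‖φ‖ * ‖x‖ := φ.le_opNorm x
  rw [hφ, Complex.norm_real, Real.norm_of_nonneg (Finset.sum_nonneg fun _ _ => norm_nonneg _)] at h1
  calc ∑ n ∈ s, ‖φ (m.e n)‖ ≤ ‖φ‖ * ‖x‖ := h1
    _ ≤ ‖φ‖ * 1 := by gcongr
    _ = ‖φ‖ := mul_one _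

theorem MF.summable (m : MF X F) (φ : StrongDual ℂ X) : Summable (fun n => ‖φ (m.e n)‖) :=
  summable_of_sum_le (fun _ => norm_nonneg _) (m.sum_le φ)

private theorem MF.MFDual_summable_mul (m : MF X F) (φ : StrongDual ℂ X) (x : X) :
    Summable (fun n => φ (m.e n) * m.ev n x) := by
  refine Summable.of_norm_bounded ((m.summable φ).mul_right ‖x‖) fun n => ?_
  rw [norm_mul]
  gcongr
  exact m.ev_le n x

/-- If `q x = 0` then `ev n x → 0` (`tend`, `J 0 = 0`), so `x - ∑_{n < N} ev n x • e n → 0` in norm: its coordinates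
are `0` for `n < N` and `ev n x` for `n ≥ N`. Apply `φ`; the series is summable by `MF.summable` and `ev_le`. -/
theorem MF.hasSum_ker (m : MF X F) (φ : StrongDual ℂ X) {x : X} (hx : m.q x = 0) :
    HasSum (fun n => φ (m.e n) * m.ev n x) (φ x) := by
  rw [(m.MFDual_summable_mul φ x).hasSum_iff_tendsto_nat]
  have ht : Filter.Tendsto (fun n => m.ev n x) Filter.atTop (nhds 0) := by
    have := m.tend x
    rwa [hx, map_zero, sub_zero] at this
  rw [Metric.tendsto_atTop]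
  intro ε hε
  have hφ0 : 0 < ‖φ‖ + 1 := by positivity
  obtain ⟨N0, hN0⟩ := (Metric.tendsto_atTop.1 ht) (ε / (‖φ‖ + 1)) (by positivity)
  refine ⟨N0, fun N hN => ?_⟩
  set y : X := x - ∑ n ∈ Finset.range N, m.ev n x • m.e n with hy
  have hev : ∀ n, m.ev n y = if n < N then 0 else m.ev n x := by
    intro n
    rw [hy, map_sub, map_sum]
    simp only [map_smul, m.ev_e, smul_eq_mul, mul_ite, mul_one, mul_zero]
    rw [Finset.sum_ite_eq]
    simp only [Finset.mem_range]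
    split_ifs <;> simp
  have hyn : ‖y‖ ≤ ε / (‖φ‖ + 1) := by
    refine m.norm_le y _ (by positivity) fun n => ?_
    rw [hev]
    split_ifs with h
    · rw [norm_zero]; positivity
    · have := hN0 n (hN.trans (not_lt.1 h))
      rw [dist_zero_right] at this
      exact this.le
  have hφy : φ y = φ x - ∑ n ∈ Finset.range N, φ (m.e n) * m.ev n x := by
    rw [hy, map_sub, map_sum]
    congr 1
    refine Finset.sum_congr rfl fun n _ => ?_
    rw [map_smul, smul_eq_mul, mul_comm]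
  rw [dist_comm, dist_eq_norm, ← hφy]
  calc ‖φ y‖ ≤ ‖φ‖ * ‖y‖ := φ.le_opNorm y
    _ ≤ ‖φ‖ * (ε / (‖φ‖ + 1)) := by gcongr
    _ < (‖φ‖ + 1) * (ε / (‖φ‖ + 1)) := by
        have : 0 < ε / (‖φ‖ + 1) := by positivity
        nlinarith
    _ = ε := by field_simp

/-- `c = Γ φ (f)`. -/
noncomputable def MF.gam (m : MF X F) (φ : StrongDual ℂ X) (f : F) : ℂ :=
  φ (m.J f) - ∑' n, φ (m.e n) * m.ev n (m.J f)

/-- `MF.hasSum_ker` for `x - J (q x)` (`q (x - J (q x)) = 0` by `q_J`). -/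
theorem MF.decomp (m : MF X F) (φ : StrongDual ℂ X) (x : X) :
    φ x = ∑' n, φ (m.e n) * m.ev n x + m.gam φ (m.q x) := by
  have h1 : m.q (x - m.J (m.q x)) = 0 := by rw [map_sub, m.q_J, sub_self]
  have h2 := (m.hasSum_ker φ h1).tsum_eq
  have h3 : ∑' n, φ (m.e n) * m.ev n (x - m.J (m.q x)) =
      ∑' n, φ (m.e n) * m.ev n x - ∑' n, φ (m.e n) * m.ev n (m.J (m.q x)) := by
    rw [← (m.MFDual_summable_mul φ x).tsum_sub (m.MFDual_summable_mul φ _)]
    refine tsum_congr fun n => ?_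
    rw [map_sub, mul_sub]
  rw [h3, map_sub] at h2
  rw [MF.gam]
  linear_combination -h2

private theorem MF.MFDual_gam_add_right (m : MF X F) (φ : StrongDual ℂ X) (f g : F) :
    m.gam φ (f + g) = m.gam φ f + m.gam φ g := by
  unfold MF.gam
  have h3 : ∑' n, φ (m.e n) * m.ev n (m.J (f + g)) =
      ∑' n, φ (m.e n) * m.ev n (m.J f) + ∑' n, φ (m.e n) * m.ev n (m.J g) := by
    rw [← (m.MFDual_summable_mul φ _).tsum_add (m.MFDual_summable_mul φ _)]
    refine tsum_congr fun n => ?_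
    rw [map_add, map_add, mul_add]
  rw [h3, map_add, map_add]
  ring

private theorem MF.MFDual_gam_smul_right (m : MF X F) (φ : StrongDual ℂ X) (c : ℂ) (f : F) :
    m.gam φ (c • f) = c * m.gam φ f := by
  unfold MF.gam
  have h3 : ∑' n, φ (m.e n) * m.ev n (m.J (c • f)) = c * ∑' n, φ (m.e n) * m.ev n (m.J f) := by
    rw [← tsum_mul_left]
    refine tsum_congr fun n => ?_
    rw [map_smul, map_smul, smul_eq_mul]
    ring
  rw [h3, map_smul, map_smul, smul_eq_mul]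
  ring

private theorem MF.MFDual_gam_add_left (m : MF X F) (φ ψ : StrongDual ℂ X) (f : F) :
    m.gam (φ + ψ) f = m.gam φ f + m.gam ψ f := by
  unfold MF.gam
  have h3 : ∑' n, (φ + ψ) (m.e n) * m.ev n (m.J f) =
      ∑' n, φ (m.e n) * m.ev n (m.J f) + ∑' n, ψ (m.e n) * m.ev n (m.J f) := by
    rw [← (m.MFDual_summable_mul φ _).tsum_add (m.MFDual_summable_mul ψ _)]
    refine tsum_congr fun n => ?_
    rw [ContinuousLinearMap.add_apply, add_mul]
  rw [h3, ContinuousLinearMap.add_apply]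
  ring

private theorem MF.MFDual_gam_smul_left (m : MF X F) (c : ℂ) (φ : StrongDual ℂ X) (f : F) :
    m.gam (c • φ) f = c * m.gam φ f := by
  unfold MF.gam
  have h3 : ∑' n, (c • φ) (m.e n) * m.ev n (m.J f) = c * ∑' n, φ (m.e n) * m.ev n (m.J f) := by
    rw [← tsum_mul_left]
    refine tsum_congr fun n => ?_
    rw [ContinuousLinearMap.smul_apply, smul_eq_mul]
    ring
  rw [h3, ContinuousLinearMap.smul_apply, smul_eq_mul]
  ring

/-- Multiply `f` by a scalar of modulus one: `gam φ f = ‖gam φ f‖`. For `N` let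
`x = J f + ∑_{n < N} (u n - ev n (J f)) • e n` with `‖u n‖ ≤ 1`, `u n * φ (e n) = ‖φ (e n)‖`. Then `ev n x = u n` for
`n < N`, `= ev n (J f)` for `n ≥ N`, so `‖x‖ ≤ 1`, and `q x = f`. By `MF.decomp`
`φ x = ∑_{n < N} ‖φ (e n)‖ + ∑_{n ≥ N} φ (e n) ev n (J f) + gam φ f`. Let `N → ∞`. -/
theorem MF.lower (m : MF X F) (φ : StrongDual ℂ X) {f : F} (hf : ‖f‖ ≤ 1) :
    ∑' n, ‖φ (m.e n)‖ + ‖m.gam φ f‖ ≤ ‖φ‖ := by
  choose u hu1 hu2 using MFDual_rot
  set c : ℂ := u (m.gam φ f) with hc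
  set g : F := c • f with hg
  have hgn : ‖g‖ ≤ 1 := by
    rw [hg, norm_smul]
    calc ‖c‖ * ‖f‖ ≤ 1 * 1 := by
          gcongr
          exact hu1 _
      _ = 1 := mul_one 1
  have hgg : m.gam φ g = ((‖m.gam φ f‖ : ℝ) : ℂ) := by
    rw [hg, m.MFDual_gam_smul_right, hc, hu2]
  set x : ℕ → X := fun N => m.J g + ∑ n ∈ Finset.range N, (u (φ (m.e n)) - m.ev n (m.J g)) • m.e n with hx
  have hev : ∀ N n, m.ev n (x N) = if n < N then u (φ (m.e n)) else m.ev n (m.J g) := by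
    intro N n
    simp only [hx]
    rw [map_add, map_sum]
    simp only [map_smul, m.ev_e, smul_eq_mul, mul_ite, mul_one, mul_zero]
    rw [Finset.sum_ite_eq]
    simp only [Finset.mem_range]
    split_ifs <;> simp
  have hxn : ∀ N, ‖x N‖ ≤ 1 := by
    intro N
    refine m.norm_le _ 1 zero_le_one fun n => ?_
    rw [hev]
    split_ifs
    · exact hu1 _
    · exact (m.ev_le n _).trans ((m.norm_J g).trans hgn)
  have hφx : ∀ N, φ (x N) = (∑ n ∈ Finset.range N, ((‖φ (m.e n)‖ : ℝ) : ℂ)) +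
      (φ (m.J g) - ∑ n ∈ Finset.range N, φ (m.e n) * m.ev n (m.J g)) := by
    intro N
    simp only [hx]
    rw [map_add, map_sum]
    have : ∀ n ∈ Finset.range N, φ ((u (φ (m.e n)) - m.ev n (m.J g)) • m.e n) =
        ((‖φ (m.e n)‖ : ℝ) : ℂ) - φ (m.e n) * m.ev n (m.J g) := by
      intro n _
      rw [map_smul, smul_eq_mul, sub_mul, hu2]
      ring
    rw [Finset.sum_congr rfl this, Finset.sum_sub_distrib]
    ring
  have hlim : Filter.Tendsto (fun N => φ (x N)) Filter.atTop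
      (nhds (((∑' n, ‖φ (m.e n)‖ : ℝ) : ℂ) + m.gam φ g)) := by
    simp only [hφx]
    refine Filter.Tendsto.add ?_ ?_
    · have h1 := (m.summable φ).hasSum.tendsto_sum_nat
      have h2 := (Complex.continuous_ofReal.tendsto (∑' n, ‖φ (m.e n)‖)).comp h1
      refine h2.congr fun N => ?_
      simp
    · refine Filter.Tendsto.const_sub _ ?_
      exact (m.MFDual_summable_mul φ (m.J g)).hasSum.tendsto_sum_nat
  have hle : ‖((∑' n, ‖φ (m.e n)‖ : ℝ) : ℂ) + m.gam φ g‖ ≤ ‖φ‖ := by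
    refine le_of_tendsto hlim.norm (Filter.Eventually.of_forall fun N => ?_)
    calc ‖φ (x N)‖ ≤ ‖φ‖ * ‖x N‖ := φ.le_opNorm _
      _ ≤ ‖φ‖ * 1 := by
          gcongr
          exact hxn N
      _ = ‖φ‖ := mul_one _
  rw [hgg, ← Complex.ofReal_add, Complex.norm_real, Real.norm_of_nonneg] at hle
  · exact hle
  · exact add_nonneg (tsum_nonneg fun _ => norm_nonneg _) (norm_nonneg _)

private theorem MF.MFDual_bound (m : MF X F) (φ : StrongDual ℂ X) (f : F) :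
    ‖m.gam φ f‖ ≤ (‖φ‖ - ∑' n, ‖φ (m.e n)‖) * ‖f‖ := by
  by_cases hf : f = 0
  · have : m.gam φ f = 0 := by
      have := m.MFDual_gam_smul_right φ 0 f
      rw [zero_smul, zero_mul] at this
      rw [hf]
      exact this
    rw [this, hf]
    simp
  · have hf' : 0 < ‖f‖ := norm_pos_iff.2 hf
    have h1 : ‖(((‖f‖ : ℝ) : ℂ)⁻¹ • f)‖ ≤ 1 := by
      rw [norm_smul, norm_inv, Complex.norm_real, norm_norm, inv_mul_cancel₀ hf'.ne']
    have h2 := m.lower φ h1
    rw [m.MFDual_gam_smul_right, norm_mul, norm_inv, Complex.norm_real, norm_norm] at h2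
    have h3 : ‖f‖⁻¹ * ‖m.gam φ f‖ ≤ ‖φ‖ - ∑' n, ‖φ (m.e n)‖ := by linarith
    calc ‖m.gam φ f‖ = (‖f‖⁻¹ * ‖m.gam φ f‖) * ‖f‖ := by field_simp
      _ ≤ _ := by gcongr

/-- Linearity of `m.gam` in `f` and `φ` (all series are absolutely convergent) and `MF.lower` give the operator
(`LinearMap.mkContinuous` twice, or `LinearMap.mkContinuous₂`). The norm formula: `≥` is `MF.lower`, `≤` is
`MF.decomp` with `ev_le`, `q_le`. `Γ (g ∘ q) = g` by `q_e`, `q_J`; `Γ (ev n) = 0` by `ev_e`. -/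
theorem MF.exists_Gam (m : MF X F) : ∃ Γ : StrongDual ℂ X →L[ℂ] StrongDual ℂ F,
    (∀ φ f, Γ φ f = m.gam φ f) ∧
    (∀ φ, ‖φ‖ = ∑' n, ‖φ (m.e n)‖ + ‖Γ φ‖) ∧ (∀ g : StrongDual ℂ F, Γ (g.comp m.q) = g) ∧ ∀ n, Γ (m.ev n) = 0 := by
  set Γ₀ : StrongDual ℂ X →ₗ[ℂ] F →ₗ[ℂ] ℂ := LinearMap.mk₂ ℂ (fun φ f => m.gam φ f)
    (fun φ ψ f => m.MFDual_gam_add_left φ ψ f) (fun c φ f => m.MFDual_gam_smul_left c φ f)
    (fun φ f g => m.MFDual_gam_add_right φ f g) (fun c φ f => m.MFDual_gam_smul_right φ c f) with hΓ₀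
  have hb : ∀ φ f, ‖Γ₀ φ f‖ ≤ 1 * ‖φ‖ * ‖f‖ := by
    intro φ f
    have h1 := m.MFDual_bound φ f
    have h2 : 0 ≤ ∑' n, ‖φ (m.e n)‖ := tsum_nonneg fun _ => norm_nonneg _
    rw [hΓ₀, LinearMap.mk₂_apply, one_mul]
    refine h1.trans ?_
    gcongr
    linarith
  set Γ : StrongDual ℂ X →L[ℂ] StrongDual ℂ F := Γ₀.mkContinuous₂ 1 hb with hΓ
  have happ : ∀ φ f, Γ φ f = m.gam φ f := fun φ f => rfl
  have hnn : ∀ φ : StrongDual ℂ X, 0 ≤ ∑' n, ‖φ (m.e n)‖ := fun φ => tsum_nonneg fun _ => norm_nonneg _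
  refine ⟨Γ, happ, fun φ => le_antisymm ?_ ?_, fun g => ?_, fun n => ?_⟩
  · refine ContinuousLinearMap.opNorm_le_bound _ (add_nonneg (hnn φ) (norm_nonneg _)) fun x => ?_
    rw [m.decomp φ x, ← happ, add_mul]
    refine (norm_add_le _ _).trans (add_le_add ?_ ?_)
    · have h1 : Summable fun n => ‖φ (m.e n) * m.ev n x‖ := by
        refine Summable.of_nonneg_of_le (fun _ => norm_nonneg _) (fun n => ?_) ((m.summable φ).mul_right ‖x‖)
        rw [norm_mul]
        gcongr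
        exact m.ev_le n x
      refine (norm_tsum_le_tsum_norm h1).trans ?_
      rw [← tsum_mul_right]
      refine h1.tsum_le_tsum (fun n => ?_) ((m.summable φ).mul_right ‖x‖)
      rw [norm_mul]
      gcongr
      exact m.ev_le n x
    · calc ‖Γ φ (m.q x)‖ ≤ ‖Γ φ‖ * ‖m.q x‖ := (Γ φ).le_opNorm _
        _ ≤ ‖Γ φ‖ * ‖x‖ := by
            gcongr
            exact m.q_le x
  · have h0 : 0 ≤ ‖φ‖ - ∑' n, ‖φ (m.e n)‖ := by
      have := m.lower φ (f := 0) (by simp)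
      have h3 := norm_nonneg (m.gam φ 0)
      linarith
    have h1 : ‖Γ φ‖ ≤ ‖φ‖ - ∑' n, ‖φ (m.e n)‖ :=
      ContinuousLinearMap.opNorm_le_bound _ h0 fun f => by
        rw [happ]
        exact m.MFDual_bound φ f
    linarith
  · ext f
    rw [happ]
    unfold MF.gam
    have h1 : ∀ n, (g.comp m.q) (m.e n) * m.ev n (m.J f) = 0 := by
      intro n
      rw [ContinuousLinearMap.comp_apply, m.q_e, map_zero, zero_mul]
    rw [tsum_congr h1, tsum_zero, sub_zero, ContinuousLinearMap.comp_apply, m.q_J]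
  · ext f
    rw [happ, ContinuousLinearMap.zero_apply]
    unfold MF.gam
    rw [tsum_eq_single n]
    · rw [m.ev_e, if_pos rfl, one_mul, sub_self]
    · intro j hj
      rw [m.ev_e, if_neg (Ne.symm hj), zero_mul]

/-- The projection of `X*` onto `F*`. -/
noncomputable def MF.Gam (m : MF X F) : StrongDual ℂ X →L[ℂ] StrongDual ℂ F := Classical.choose m.exists_Gam

theorem MF.Gam_apply (m : MF X F) (φ : StrongDual ℂ X) (f : F) : m.Gam φ f = m.gam φ f :=
  (Classical.choose_spec m.exists_Gam).1 φ f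

theorem MF.norm_eq (m : MF X F) (φ : StrongDual ℂ X) : ‖φ‖ = ∑' n, ‖φ (m.e n)‖ + ‖m.Gam φ‖ :=
  (Classical.choose_spec m.exists_Gam).2.1 φ

theorem MF.Gam_comp (m : MF X F) (g : StrongDual ℂ F) : m.Gam (g.comp m.q) = g :=
  (Classical.choose_spec m.exists_Gam).2.2.1 g

theorem MF.Gam_ev (m : MF X F) (n : ℕ) : m.Gam (m.ev n) = 0 :=
  (Classical.choose_spec m.exists_Gam).2.2.2 n

end Pool.Agent.Lib.MP_a7c449_an.Range
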