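import Pool.Agent.Lib.MP_a7c449_an.Range.Basic

/-! A path of norms between two equivalent norms. -/

set_option autoImplicit false
set_option maxSynthPendingDepth 3

namespace Pool.Agent.Lib.MP_a7c449_an.Range

universe u v

variable {X : Type u} {Y : Type v} [NormedAddCommGroup X] [NormedSpace ℂ X] [NormedAddCommGroup Y] [NormedSpace ℂ Y]

/-- The norm `(1 - τ) ‖x‖ + τ ‖T x‖`. -/
noncomputable def mixN (T : X ≃L[ℂ] Y) (τ : ℝ) (x : X) : ℝ := (1 - τ) * ‖x‖ + τ * ‖T x‖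

/-- `X` with the norm `mixN T τ`. -/
def Mix (_T : X ≃L[ℂ] Y) (_τ : unitInterval) : Type u := X

variable (T : X ≃L[ℂ] Y) (τ σ : unitInterval)

noncomputable instance : AddCommGroup (Mix T τ) := inferInstanceAs (AddCommGroup X)

noncomputable instance : Module ℂ (Mix T τ) := inferInstanceAs (Module ℂ X)

noncomputable instance : Norm (Mix T τ) := ⟨fun x => mixN T τ (x : X)⟩

theorem Mix.norm_def (x : Mix T τ) : ‖x‖ = mixN T τ (x : X) := rfl

private theorem Mix_nonneg (x : X) : 0 ≤ mixN T τ x := by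
  have h0 : 0 ≤ (τ : ℝ) := τ.2.1
  have h1 : 0 ≤ 1 - (τ : ℝ) := by linarith [τ.2.2]
  unfold mixN
  positivity

private theorem Mix_smul (c : ℂ) (x : X) : mixN T τ (c • x) = ‖c‖ * mixN T τ x := by
  unfold mixN
  rw [map_smul, norm_smul, norm_smul]
  ring

private theorem Mix_add (x y : X) : mixN T τ (x + y) ≤ mixN T τ x + mixN T τ y := by
  have h0 : 0 ≤ (τ : ℝ) := τ.2.1
  have h1 : 0 ≤ 1 - (τ : ℝ) := by linarith [τ.2.2]
  have h2 := mul_le_mul_of_nonneg_left (norm_add_le x y) h1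
  have h3 := mul_le_mul_of_nonneg_left (norm_add_le (T x) (T y)) h0
  unfold mixN
  rw [map_add]
  linarith

private theorem Mix_zero {x : X} (h : mixN T τ x = 0) : x = 0 := by
  have h0 : 0 ≤ (τ : ℝ) := τ.2.1
  have h1 : 0 ≤ 1 - (τ : ℝ) := by linarith [τ.2.2]
  unfold mixN at h
  have h2 : 0 ≤ (1 - (τ : ℝ)) * ‖x‖ := by positivity
  have h3 : 0 ≤ (τ : ℝ) * ‖T x‖ := by positivity
  have h4 : (1 - (τ : ℝ)) * ‖x‖ = 0 := by linarith
  have h5 : (τ : ℝ) * ‖T x‖ = 0 := by linarith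
  rcases mul_eq_zero.1 h4 with h6 | h6
  · rcases mul_eq_zero.1 h5 with h7 | h7
    · rw [h7] at h6
      norm_num at h6
    · exact T.map_eq_zero_iff.1 (norm_eq_zero.1 h7)
  · exact norm_eq_zero.1 h6

/-- If `‖x‖ = 0` then `(1 - τ) ‖x‖ = 0` and `τ ‖T x‖ = 0`. -/
theorem Mix.core : NormedSpace.Core ℂ (Mix T τ) where
  norm_nonneg := fun x => Mix_nonneg T τ x
  norm_smul := fun c x => Mix_smul T τ c x
  norm_triangle := fun x y => Mix_add T τ x y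
  norm_eq_zero_iff := fun x => by
    refine ⟨fun h => Mix_zero T τ h, fun h => ?_⟩
    subst h
    show mixN T τ (0 : X) = 0
    unfold mixN
    simp

noncomputable instance : NormedAddCommGroup (Mix T τ) := NormedAddCommGroup.ofCore (Mix.core T τ)

noncomputable instance : NormedSpace ℂ (Mix T τ) := NormedSpace.ofCore (Mix.core T τ)

/-- The identity. -/
noncomputable def Mix.lin : Mix T τ ≃ₗ[ℂ] X := LinearEquiv.refl ℂ X

/-- From the norms of `T` and `T⁻¹`. -/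
theorem Mix.exists_const : ∃ C : ℝ, 1 ≤ C ∧ ∀ x : X, ‖T x‖ ≤ C * ‖x‖ ∧ ‖x‖ ≤ C * ‖T x‖ := by
  refine ⟨max 1 (max ‖(T : X →L[ℂ] Y)‖ ‖(T.symm : Y →L[ℂ] X)‖), le_max_left _ _, fun x => ⟨?_, ?_⟩⟩
  · refine ((T : X →L[ℂ] Y).le_opNorm x).trans ?_
    gcongr
    exact (le_max_left _ _).trans (le_max_right _ _)
  · have h := (T.symm : Y →L[ℂ] X).le_opNorm (T x)
    rw [ContinuousLinearEquiv.coe_coe, T.symm_apply_apply] at h
    refine h.trans ?_
    gcongr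
    exact (le_max_right _ _).trans (le_max_right _ _)

private theorem Mix_bounds {C : ℝ} (hC : 1 ≤ C) (h : ∀ x : X, ‖T x‖ ≤ C * ‖x‖ ∧ ‖x‖ ≤ C * ‖T x‖) (x : X) :
    mixN T τ x ≤ C * ‖x‖ ∧ ‖x‖ ≤ C * mixN T τ x ∧ ‖T x‖ ≤ C * mixN T τ x := by
  have h0 : 0 ≤ (τ : ℝ) := τ.2.1
  have h1 : 0 ≤ 1 - (τ : ℝ) := by linarith [τ.2.2]
  obtain ⟨h2, h3⟩ := h x
  have h4 : ‖x‖ ≤ C * ‖x‖ := by nlinarith [norm_nonneg x]
  have h5 : ‖T x‖ ≤ C * ‖T x‖ := by nlinarith [norm_nonneg (T x)]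
  unfold mixN
  refine ⟨?_, ?_, ?_⟩
  · have := mul_le_mul_of_nonneg_left h4 h1
    have := mul_le_mul_of_nonneg_left h2 h0
    linarith
  · have := mul_le_mul_of_nonneg_left h4 h1
    have := mul_le_mul_of_nonneg_left h3 h0
    linarith
  · have := mul_le_mul_of_nonneg_left h2 h1
    have := mul_le_mul_of_nonneg_left h5 h0
    linarith

/-- With `C` from `Mix.exists_const` the norm is between `‖x‖ / C` and `C ‖x‖`
(`LinearEquiv.toContinuousLinearEquivOfBounds`). -/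
theorem Mix.exists_equiv : ∃ S : Mix T τ ≃L[ℂ] X, ∀ x, S x = Mix.lin T τ x := by
  obtain ⟨C, hC, h⟩ := Mix.exists_const T
  exact ⟨(Mix.lin T τ).toContinuousLinearEquivOfBounds C C (fun x => (Mix_bounds T τ hC h x).2.1)
    (fun x => (Mix_bounds T τ hC h x).1), fun x => rfl⟩

theorem Mix.complete [CompleteSpace X] : CompleteSpace (Mix T τ) := by
  obtain ⟨S, -⟩ := Mix.exists_equiv T τ
  exact (completeSpace_congr (e := S.toEquiv) S.isUniformEmbedding).2 inferInstance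

theorem Mix.separable [TopologicalSpace.SeparableSpace X] : TopologicalSpace.SeparableSpace (Mix T τ) := by
  obtain ⟨S, -⟩ := Mix.exists_equiv T τ
  exact S.symm.surjective.denseRange.separableSpace S.symm.continuous

private theorem Mix_diff {C : ℝ} (hC : 1 ≤ C) (h : ∀ x : X, ‖T x‖ ≤ C * ‖x‖ ∧ ‖x‖ ≤ C * ‖T x‖) (x : X) :
    |mixN T σ x - mixN T τ x| ≤ C * |(τ : ℝ) - σ| * mixN T τ x := by
  have hx := Mix_bounds T τ hC h x
  have e : mixN T σ x - mixN T τ x = ((τ : ℝ) - σ) * (‖x‖ - ‖T x‖) := by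
    unfold mixN
    ring
  rw [e, abs_mul]
  have h6 : |‖x‖ - ‖T x‖| ≤ C * mixN T τ x := by
    rw [abs_le]
    constructor
    · linarith [norm_nonneg x, hx.2.2]
    · linarith [norm_nonneg (T x), hx.2.1]
  calc |(τ : ℝ) - σ| * |‖x‖ - ‖T x‖| ≤ |(τ : ℝ) - σ| * (C * mixN T τ x) := by gcongr
    _ = C * |(τ : ℝ) - σ| * mixN T τ x := by ring

/-- The two norms differ by `|τ - σ| * |‖T x‖ - ‖x‖|`, and `max ‖x‖ ‖T x‖ ≤ C * min ‖x‖ ‖T x‖`. The identity as a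
continuous linear equivalence. -/
theorem Mix.exists_near : ∃ C : ℝ, 1 ≤ C ∧ ∀ τ σ : unitInterval, ∃ S : Mix T τ ≃L[ℂ] Mix T σ,
    ∀ x, (1 - C * |(τ : ℝ) - σ|) * ‖x‖ ≤ ‖S x‖ ∧ ‖S x‖ ≤ (1 + C * |(τ : ℝ) - σ|) * ‖x‖ := by
  obtain ⟨C, hC, h⟩ := Mix.exists_const T
  refine ⟨C, hC, fun τ σ => ?_⟩
  obtain ⟨S1, hS1⟩ := Mix.exists_equiv T τ
  obtain ⟨S2, hS2⟩ := Mix.exists_equiv T σ
  refine ⟨S1.trans S2.symm, fun x => ?_⟩
  have hS : Mix.lin T σ ((S1.trans S2.symm) x) = Mix.lin T τ x := by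
    rw [← hS2, ← hS1]
    simp
  have hnorm : ‖(S1.trans S2.symm) x‖ = mixN T σ (Mix.lin T τ x) := by
    rw [← hS]
    rfl
  have hnorm' : ‖x‖ = mixN T τ (Mix.lin T τ x) := rfl
  rw [hnorm, hnorm']
  have hdiff := Mix_diff T τ σ hC h (Mix.lin T τ x)
  rw [abs_le] at hdiff
  constructor
  · linarith [hdiff.1]
  · linarith [hdiff.2]

theorem Mix.zero_iso : Nonempty (Mix T 0 ≃ₗᵢ[ℂ] X) := by
  refine ⟨⟨Mix.lin T 0, fun x => ?_⟩⟩
  have hnorm' : ‖x‖ = mixN T ((0 : unitInterval) : ℝ) (Mix.lin T 0 x) := rfl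
  rw [hnorm']
  unfold mixN
  simp

theorem Mix.one_iso : Nonempty (Mix T 1 ≃ₗᵢ[ℂ] Y) := by
  refine ⟨⟨(Mix.lin T 1).trans T.toLinearEquiv, fun x => ?_⟩⟩
  have hnorm' : ‖x‖ = mixN T ((1 : unitInterval) : ℝ) (Mix.lin T 1 x) := rfl
  rw [hnorm']
  unfold mixN
  simp

end Pool.Agent.Lib.MP_a7c449_an.Range
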