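import Pool.Agent.Lib.MP_a7c449_an.Range.Basic

/-! The two-dimensional norm of Harris (the order is `k = m + 2`). -/

set_option autoImplicit false
set_option maxSynthPendingDepth 3

namespace Pool.Agent.Lib.MP_a7c449_an.Range

/-- `R ^ (m + 1) = m + 2`. -/
noncomputable def RR (m : ℕ) : ℝ := ((m : ℝ) + 2) ^ ((1 : ℝ) / ((m : ℝ) + 1))

theorem RR_pow (m : ℕ) : RR m ^ (m + 1) = (m : ℝ) + 2 := by
  unfold RR
  rw [← Real.rpow_natCast, ← Real.rpow_mul (by positivity)]
  have h : (m : ℝ) + 1 ≠ 0 := by positivity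
  push_cast
  rw [one_div, inv_mul_cancel₀ h, Real.rpow_one]

theorem one_lt_RR (m : ℕ) : 1 < RR m := by
  unfold RR
  refine Real.one_lt_rpow ?_ (by positivity)
  have : (0 : ℝ) ≤ m := Nat.cast_nonneg m
  linarith

private theorem Nk_RR_pos (m : ℕ) : 0 < RR m := lt_trans one_pos (one_lt_RR m)

/-- The constant `c_k = 1 / R ^ k`, `k = m + 2`. -/
noncomputable def cc (m : ℕ) : ℝ := 1 / RR m ^ (m + 2)

/-- `c_k = k^(-k/(k-1))`. -/
theorem cc_eq (m : ℕ) : cc m = ((m : ℝ) + 2) ^ (-(((m : ℝ) + 2) / ((m : ℝ) + 1))) := by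
  unfold cc RR
  rw [Real.rpow_neg (by positivity), one_div]
  congr 1
  rw [← Real.rpow_natCast, ← Real.rpow_mul (by positivity)]
  congr 1
  push_cast
  ring

theorem cc_pos (m : ℕ) : 0 < cc m := by
  unfold cc
  have := Nk_RR_pos m
  positivity

theorem cc_lt_one (m : ℕ) : cc m < 1 := by
  unfold cc
  have h := one_lt_RR m
  have h1 : 1 < RR m ^ (m + 2) := one_lt_pow₀ h (by omega)
  rw [div_lt_one (by linarith)]
  exact h1

/-- `c R (m + 2) = 1`. -/
private theorem Nk_cc_mul (m : ℕ) : cc m * RR m * ((m : ℝ) + 2) = 1 := by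
  unfold cc
  have h := Nk_RR_pos m
  rw [← RR_pow m, pow_succ (RR m) (m + 1)]
  field_simp

private theorem Nk_cc_pow (m : ℕ) : cc m * RR m ^ (m + 2) = 1 := by
  unfold cc
  have h := Nk_RR_pos m
  field_simp

private theorem Nk_bern (m : ℕ) {q : ℝ} (hq : 0 ≤ q) :
    ((m : ℝ) + 2) * q - q ^ (m + 2) ≤ (m : ℝ) + 1 := by
  have h := one_add_mul_le_pow (a := q - 1) (by linarith) (m + 2)
  push_cast at h
  rw [add_sub_cancel] at h
  nlinarith [h]

/-- The value at `(u, v)` of the supporting functional with parameter `z`, `1 ≤ z ≤ R`. -/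
noncomputable def Lz (m : ℕ) (z u v : ℝ) : ℝ :=
  cc m * z ^ (m + 2) * u + (((m : ℝ) + 2) * z - z ^ (m + 2)) / ((m : ℝ) + 1) * v

/-- Both coefficients of `Lz` are between `0` and `1`: `z ^ (m+1) ≤ R ^ (m+1) = m + 2`, and
`z ^ (m+2) ≥ 1 + (m+2)(z-1)` (`one_add_mul_le_pow`). -/
theorem coef_nonneg (m : ℕ) {z : ℝ} (h1 : 1 ≤ z) (h2 : z ≤ RR m) :
    0 ≤ cc m * z ^ (m + 2) ∧ cc m * z ^ (m + 2) ≤ 1 ∧
    0 ≤ (((m : ℝ) + 2) * z - z ^ (m + 2)) / ((m : ℝ) + 1) ∧
    (((m : ℝ) + 2) * z - z ^ (m + 2)) / ((m : ℝ) + 1) ≤ 1 := by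
  have hz : 0 ≤ z := by linarith
  have hc := cc_pos m
  have hm : (0 : ℝ) < (m : ℝ) + 1 := by positivity
  refine ⟨by positivity, ?_, ?_, ?_⟩
  · rw [← Nk_cc_pow m]
    exact mul_le_mul_of_nonneg_left (pow_le_pow_left₀ hz h2 _) hc.le
  · refine div_nonneg ?_ hm.le
    have h3 : z ^ (m + 1) ≤ (m : ℝ) + 2 := by
      rw [← RR_pow m]
      exact pow_le_pow_left₀ hz h2 _
    have h4 : z ^ (m + 2) = z ^ (m + 1) * z := pow_succ z (m + 1)
    rw [h4]
    nlinarith [mul_le_mul_of_nonneg_right h3 hz]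
  · rw [div_le_one hm]
    exact Nk_bern m hz

/-- The norm as a function of the moduli of the coordinates. -/
noncomputable def Nk (m : ℕ) (u v : ℝ) : ℝ := sSup ((fun z => Lz m z u v) '' Set.Icc 1 (RR m))

/-- The best parameter. With `n = m + 1`, `c = cc m`, `R = RR m` (`R^n = n+1`, `c R (n+1) = 1`).
First case `R v ≤ u`: `z = R`, `Lz R u v = u`; for `z' = q R`, `0 ≤ q ≤ 1`, `Lz z' u v = q^(n+1) u + (n+1)/n (q - q^(n+1)) R v ≤ u`
since `(n+1) q - q^(n+1) ≤ n`. Second case `u < R v` (so `v > 0`, and `v - n c u > 0`): choose `z ≥ 0` with `z^n (v - n c u) = v`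
(then `1 ≤ z` since `n c u ≥ 0`, and `z ≤ R` since `v ≤ (n+1)(v - n c u)`, as `(n+1) c u = u / R ≤ v`); `Lz z u v = z v`, and
for `z' = q z` one has `Lz z' u v = q ((n+1) - q^n) / n * z v ≤ z v` since `(n+1) q - q^(n+1) ≤ n`. -/
theorem exists_best (m : ℕ) {u v : ℝ} (hu : 0 ≤ u) (hv : 0 ≤ v) :
    ∃ z, 1 ≤ z ∧ z ≤ RR m ∧ (∀ z', 1 ≤ z' → z' ≤ RR m → Lz m z' u v ≤ Lz m z u v) ∧ z * v ≤ Lz m z u v := by
  have hc := cc_pos m
  have hR1 := one_lt_RR m
  have hR := Nk_RR_pos m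
  have hm0 : (0 : ℝ) ≤ (m : ℝ) := Nat.cast_nonneg m
  have hm : (0 : ℝ) < (m : ℝ) + 1 := by positivity
  have hm2 : (0 : ℝ) < (m : ℝ) + 2 := by positivity
  have hcR := Nk_cc_mul m
  have hcp := Nk_cc_pow m
  have hRp := RR_pow m
  rcases le_or_gt (RR m * v) u with h1 | h1
  · -- first case
    have hval : Lz m (RR m) u v = u := by
      unfold Lz
      rw [hcp, pow_succ (RR m) (m + 1), hRp]
      ring
    refine ⟨RR m, hR1.le, le_rfl, ?_, ?_⟩
    · intro z' h2 h3
      rw [hval]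
      have hq0 : 0 ≤ z' / RR m := by positivity
      have hq1 : z' / RR m ≤ 1 := by rw [div_le_one hR]; exact h3
      obtain ⟨q, hq⟩ : ∃ q, q = z' / RR m := ⟨_, rfl⟩
      rw [← hq] at hq0 hq1
      have hz' : z' = q * RR m := by rw [hq]; field_simp
      have hb := Nk_bern m hq0
      have e1 : Lz m z' u v = q ^ (m + 2) * u +
          (((m : ℝ) + 2) * q - ((m : ℝ) + 2) * q ^ (m + 2)) / ((m : ℝ) + 1) * (RR m * v) := by
        unfold Lz
        rw [hz', mul_pow]
        have e2 : cc m * (q ^ (m + 2) * RR m ^ (m + 2)) * u = q ^ (m + 2) * u := by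
          calc cc m * (q ^ (m + 2) * RR m ^ (m + 2)) * u
              = (cc m * RR m ^ (m + 2)) * (q ^ (m + 2) * u) := by ring
            _ = q ^ (m + 2) * u := by rw [hcp, one_mul]
        rw [e2, pow_succ (RR m) (m + 1), hRp]
        ring
      rw [e1]
      have hqq : q ^ (m + 2) ≤ q := by
        calc q ^ (m + 2) = q ^ (m + 1) * q := pow_succ q (m + 1)
          _ ≤ 1 * q := mul_le_mul_of_nonneg_right (pow_le_one₀ hq0 hq1) hq0
          _ = q := one_mul q
      have h4 : 0 ≤ (((m : ℝ) + 2) * q - ((m : ℝ) + 2) * q ^ (m + 2)) / ((m : ℝ) + 1) := by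
        refine div_nonneg ?_ hm.le
        nlinarith
      have h5 : (((m : ℝ) + 2) * q - ((m : ℝ) + 2) * q ^ (m + 2)) / ((m : ℝ) + 1) ≤
          1 - q ^ (m + 2) := by
        rw [div_le_iff₀ hm]
        nlinarith
      calc q ^ (m + 2) * u +
          (((m : ℝ) + 2) * q - ((m : ℝ) + 2) * q ^ (m + 2)) / ((m : ℝ) + 1) * (RR m * v)
          ≤ q ^ (m + 2) * u + (((m : ℝ) + 2) * q - ((m : ℝ) + 2) * q ^ (m + 2)) /
            ((m : ℝ) + 1) * u := by gcongr
        _ ≤ q ^ (m + 2) * u + (1 - q ^ (m + 2)) * u := by gcongr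
        _ = u := by ring
    · rw [hval]; exact h1
  · -- second case
    have hv' : 0 < v := by
      rcases hv.lt_or_eq with h | h
      · exact h
      · rw [← h, mul_zero] at h1; linarith
    -- `(m+2) c u ≤ v`
    have hcu : ((m : ℝ) + 2) * cc m * u ≤ v := by
      have h2 : ((m : ℝ) + 2) * cc m * u ≤ ((m : ℝ) + 2) * cc m * (RR m * v) :=
        mul_le_mul_of_nonneg_left h1.le (by positivity)
      have h3 : ((m : ℝ) + 2) * cc m * (RR m * v) = v := by
        calc ((m : ℝ) + 2) * cc m * (RR m * v) = (cc m * RR m * ((m : ℝ) + 2)) * v := by ring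
          _ = v := by rw [hcR, one_mul]
      linarith
    have hcu0 : 0 ≤ cc m * u := by positivity
    set D : ℝ := v - ((m : ℝ) + 1) * (cc m * u) with hD
    have hDpos : 0 < D := by
      rw [hD]
      rcases hu.lt_or_eq with h | h
      · have : 0 < cc m * u := by positivity
        nlinarith
      · rw [← h]; simpa using hv'
    have hDle : D ≤ v := by rw [hD]; nlinarith
    have hDge : v ≤ ((m : ℝ) + 2) * D := by
      rw [hD]
      nlinarith
    obtain ⟨z, hz0, hz⟩ : ∃ z : ℝ, 0 ≤ z ∧ z ^ (m + 1) = v / D := by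
      refine ⟨(v / D) ^ ((1 : ℝ) / ((m + 1 : ℕ) : ℝ)), by positivity, ?_⟩
      rw [← Real.rpow_natCast, ← Real.rpow_mul (by positivity)]
      rw [one_div, inv_mul_cancel₀ (by positivity), Real.rpow_one]
    have hzD : z ^ (m + 1) * D = v := by rw [hz]; field_simp
    have hz1 : 1 ≤ z := by
      by_contra hcon
      push Not at hcon
      have h2 : z ^ (m + 1) < 1 := pow_lt_one₀ hz0 hcon (by omega)
      rw [hz, div_lt_one hDpos] at h2
      linarith
    have hzR : z ≤ RR m := by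
      by_contra hcon
      push Not at hcon
      have h2 : RR m ^ (m + 1) < z ^ (m + 1) := pow_lt_pow_left₀ hcon hR.le (by omega)
      rw [hRp, hz, lt_div_iff₀ hDpos] at h2
      linarith
    have hval : ∀ q : ℝ, Lz m (q * z) u v =
        (((m : ℝ) + 2) * q - q ^ (m + 2)) / ((m : ℝ) + 1) * (z * v) := by
      intro q
      unfold Lz
      rw [mul_pow]
      have e1 : z ^ (m + 2) = z ^ (m + 1) * z := pow_succ z (m + 1)
      have e2 : z ^ (m + 1) * (cc m * u) * ((m : ℝ) + 1) = z ^ (m + 1) * v - v := by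
        rw [hD] at hzD
        linarith
      have e3 : z ^ (m + 1) * (cc m * u) = (z ^ (m + 1) * v - v) / ((m : ℝ) + 1) := by
        rw [eq_div_iff hm.ne']; exact e2
      calc cc m * (q ^ (m + 2) * z ^ (m + 2)) * u +
            (((m : ℝ) + 2) * (q * z) - q ^ (m + 2) * z ^ (m + 2)) / ((m : ℝ) + 1) * v
          = q ^ (m + 2) * z * (z ^ (m + 1) * (cc m * u)) +
            (((m : ℝ) + 2) * (q * z) - q ^ (m + 2) * (z ^ (m + 1) * z)) / ((m : ℝ) + 1) * v := by
            rw [e1]; ring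
        _ = (((m : ℝ) + 2) * q - q ^ (m + 2)) / ((m : ℝ) + 1) * (z * v) := by
            rw [e3]; ring
    have hval1 : Lz m z u v = z * v := by
      have := hval 1
      rw [one_mul] at this
      rw [this]
      have h2 : ((m : ℝ) + 2) * 1 - 1 ^ (m + 2) = (m : ℝ) + 1 := by rw [one_pow]; ring
      rw [h2, div_self hm.ne', one_mul]
    refine ⟨z, hz1, hzR, ?_, hval1.ge⟩
    intro z' h2 h3
    have hzpos : 0 < z := by linarith
    have hz' : z' = z' / z * z := by field_simp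
    rw [hz', hval, hval1]
    have hq0 : 0 ≤ z' / z := by positivity
    have hb := Nk_bern m hq0
    have h4 : (((m : ℝ) + 2) * (z' / z) - (z' / z) ^ (m + 2)) / ((m : ℝ) + 1) ≤ 1 := by
      rw [div_le_one hm]; exact hb
    calc (((m : ℝ) + 2) * (z' / z) - (z' / z) ^ (m + 2)) / ((m : ℝ) + 1) * (z * v)
        ≤ 1 * (z * v) := mul_le_mul_of_nonneg_right h4 (by positivity)
      _ = z * v := one_mul _

end Pool.Agent.Lib.MP_a7c449_an.Range
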