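import Pool.Agent.Lib.MP_a7c449_an.Range.Nk

/-! Properties of the norm `Nk`. -/

set_option autoImplicit false
set_option maxSynthPendingDepth 3

namespace Pool.Agent.Lib.MP_a7c449_an.Range

private theorem NkProp_add (m : ℕ) (z u v u' v' : ℝ) :
    Lz m z (u + u') (v + v') = Lz m z u v + Lz m z u' v' := by
  unfold Lz
  ring

private theorem NkProp_mul (m : ℕ) (z u v c : ℝ) : Lz m z (c * u) (c * v) = c * Lz m z u v := by
  unfold Lz
  ring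

/-- `exists_best`: the set is bounded above by its greatest element. -/
theorem Nk_ge (m : ℕ) {u v z : ℝ} (hu : 0 ≤ u) (hv : 0 ≤ v) (h1 : 1 ≤ z) (h2 : z ≤ RR m) :
    Lz m z u v ≤ Nk m u v := by
  obtain ⟨z₀, _, _, hb, _⟩ := exists_best m hu hv
  unfold Nk
  refine le_csSup ⟨Lz m z₀ u v, ?_⟩ ⟨z, ⟨h1, h2⟩, rfl⟩
  rintro _ ⟨z', ⟨h1', h2'⟩, rfl⟩
  exact hb z' h1' h2'

/-- From `exists_best`. -/
theorem Nk_eq (m : ℕ) {u v : ℝ} (hu : 0 ≤ u) (hv : 0 ≤ v) :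
    ∃ z, 1 ≤ z ∧ z ≤ RR m ∧ Nk m u v = Lz m z u v ∧ z * v ≤ Nk m u v := by
  obtain ⟨z₀, h1, h2, hb, hz⟩ := exists_best m hu hv
  have e : Nk m u v = Lz m z₀ u v := by
    refine le_antisymm ?_ (Nk_ge m hu hv h1 h2)
    unfold Nk
    refine csSup_le ⟨Lz m z₀ u v, z₀, ⟨h1, h2⟩, rfl⟩ ?_
    rintro _ ⟨z', ⟨h1', h2'⟩, rfl⟩
    exact hb z' h1' h2'
  exact ⟨z₀, h1, h2, e, by rw [e]; exact hz⟩

/-- `z = 1` (the coefficient of `v` is `1`) and `z = R` (the coefficient of `u` is `1`, that of `v` is `0`)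
in `Nk_ge`. -/
theorem max_le_Nk (m : ℕ) {u v : ℝ} (hu : 0 ≤ u) (hv : 0 ≤ v) : max u v ≤ Nk m u v := by
  have hR := one_lt_RR m
  have hm : (0 : ℝ) < (m : ℝ) + 1 := by positivity
  refine max_le ?_ ?_
  · have h := Nk_ge m hu hv hR.le le_rfl
    have hR0 : RR m ^ (m + 2) ≠ 0 := by positivity
    have e1 : cc m * RR m ^ (m + 2) = 1 := by
      unfold cc
      field_simp
    have e2 : ((m : ℝ) + 2) * RR m - RR m ^ (m + 2) = 0 := by
      have : RR m ^ (m + 2) = RR m ^ (m + 1) * RR m := by ring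
      rw [this, RR_pow]
      ring
    have e : Lz m (RR m) u v = u := by
      unfold Lz
      rw [e1, e2]
      ring
    rwa [e] at h
  · have h := Nk_ge m hu hv le_rfl hR.le
    have e : Lz m 1 u v = cc m * u + v := by
      unfold Lz
      field_simp
      ring
    rw [e] at h
    have := mul_nonneg (cc_pos m).le hu
    linarith

/-- By `Nk_eq` and `coef_nonneg`. -/
theorem Nk_le_add (m : ℕ) {u v : ℝ} (hu : 0 ≤ u) (hv : 0 ≤ v) : Nk m u v ≤ u + v := by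
  obtain ⟨z, h1, h2, e, _⟩ := Nk_eq m hu hv
  obtain ⟨_, a2, _, a4⟩ := coef_nonneg m h1 h2
  rw [e]
  unfold Lz
  have := mul_le_mul_of_nonneg_right a2 hu
  have := mul_le_mul_of_nonneg_right a4 hv
  linarith

/-- From `Nk_eq` at the sum and `Nk_ge` twice. -/
theorem Nk_add (m : ℕ) {u v u' v' : ℝ} (hu : 0 ≤ u) (hv : 0 ≤ v) (hu' : 0 ≤ u') (hv' : 0 ≤ v') :
    Nk m (u + u') (v + v') ≤ Nk m u v + Nk m u' v' := by
  obtain ⟨z, h1, h2, e, _⟩ := Nk_eq m (add_nonneg hu hu') (add_nonneg hv hv')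
  rw [e, NkProp_add]
  exact add_le_add (Nk_ge m hu hv h1 h2) (Nk_ge m hu' hv' h1 h2)

/-- From `Nk_eq` at `(u, v)`, `coef_nonneg` and `Nk_ge` at `(u', v')`. -/
theorem Nk_mono (m : ℕ) {u v u' v' : ℝ} (hu : 0 ≤ u) (hv : 0 ≤ v) (h1 : u ≤ u') (h2 : v ≤ v') :
    Nk m u v ≤ Nk m u' v' := by
  obtain ⟨z, h1', h2', e, _⟩ := Nk_eq m hu hv
  obtain ⟨a1, _, a3, _⟩ := coef_nonneg m h1' h2'
  refine le_trans ?_ (Nk_ge m (hu.trans h1) (hv.trans h2) h1' h2')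
  rw [e]
  unfold Lz
  have := mul_le_mul_of_nonneg_left h1 a1
  have := mul_le_mul_of_nonneg_left h2 a3
  linarith

/-- From `Nk_eq` and `Nk_ge`. -/
theorem Nk_mul (m : ℕ) {u v c : ℝ} (hu : 0 ≤ u) (hv : 0 ≤ v) (hc : 0 ≤ c) :
    Nk m (c * u) (c * v) = c * Nk m u v := by
  refine le_antisymm ?_ ?_
  · obtain ⟨z, h1, h2, e, _⟩ := Nk_eq m (mul_nonneg hc hu) (mul_nonneg hc hv)
    rw [e, NkProp_mul]
    exact mul_le_mul_of_nonneg_left (Nk_ge m hu hv h1 h2) hc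
  · obtain ⟨z, h1, h2, e, _⟩ := Nk_eq m hu hv
    rw [e, ← NkProp_mul]
    exact Nk_ge m (mul_nonneg hc hu) (mul_nonneg hc hv) h1 h2

/-- With `z` from `Nk_eq` for `(u + d, v)`: `Nk (u+d) v - Nk u v ≤ c z^k d` (`Nk_ge` at `(u, v)`), and
`(z v)^k ≤ Nk (u+d) v ^ k`. -/
theorem Nk_diff (m : ℕ) {u v d : ℝ} (hu : 0 ≤ u) (hv : 0 ≤ v) (hd : 0 ≤ d) :
    v ^ (m + 2) * (Nk m (u + d) v - Nk m u v) ≤ cc m * d * Nk m (u + d) v ^ (m + 2) := by
  obtain ⟨z, h1, h2, e, hz⟩ := Nk_eq m (add_nonneg hu hd) hv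
  have h3 := Nk_ge m hu hv h1 h2
  have h4 : Nk m (u + d) v - Nk m u v ≤ cc m * z ^ (m + 2) * d := by
    have : Lz m z (u + d) v = Lz m z u v + cc m * z ^ (m + 2) * d := by
      unfold Lz
      ring
    rw [e, this]
    linarith
  have hz0 : 0 ≤ z * v := mul_nonneg (by linarith) hv
  calc v ^ (m + 2) * (Nk m (u + d) v - Nk m u v) ≤ v ^ (m + 2) * (cc m * z ^ (m + 2) * d) :=
        mul_le_mul_of_nonneg_left h4 (by positivity)
    _ = cc m * d * (z * v) ^ (m + 2) := by ring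
    _ ≤ cc m * d * Nk m (u + d) v ^ (m + 2) := by
        have hc := (cc_pos m).le
        gcongr

end Pool.Agent.Lib.MP_a7c449_an.Range
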