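import Pool.Agent.Lib.MP_a7c449_an.Range.Basic

/-! Extension of the first variable of a multilinear form to the bidual. -/

set_option autoImplicit false
set_option maxSynthPendingDepth 3

namespace Pool.Agent.Lib.MP_a7c449_an.Range

variable {X : Type*} [NormedAddCommGroup X] [NormedSpace ℂ X]

/-- `redL X n b y (x₂, …) = y (h ↦ b (h, x₂, …))`. -/
noncomputable def redL (X : Type*) [NormedAddCommGroup X] [NormedSpace ℂ X] (n : ℕ) :
    (X [×(n + 1)]→L[ℂ] ℂ) →L[ℂ] (Bid X →L[ℂ] (X [×n]→L[ℂ] ℂ)) :=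
  ((ContinuousLinearMap.compContinuousMultilinearMapL ℂ (fun _ : Fin n => X) (StrongDual ℂ X) ℂ).flip.comp
    (ContinuousLinearMap.flipMultilinearEquiv ℂ (fun _ : Fin n => X) X ℂ :
      (X →L[ℂ] (X [×n]→L[ℂ] ℂ)) →L[ℂ] ContinuousMultilinearMap ℂ (fun _ : Fin n => X) (StrongDual ℂ X))).comp
    ((continuousMultilinearCurryLeftEquiv ℂ (fun _ : Fin (n + 1) => X) ℂ).toContinuousLinearEquiv :
      (X [×(n + 1)]→L[ℂ] ℂ) →L[ℂ] (X →L[ℂ] (X [×n]→L[ℂ] ℂ)))

theorem redL_apply {n : ℕ} (b : X [×(n + 1)]→L[ℂ] ℂ) (y : Bid X) (v : Fin n → X) :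
    redL X n b y v = y (b.curryLeft.flipMultilinear v) := by
  rfl

theorem flip_apply {n : ℕ} (b : X [×(n + 1)]→L[ℂ] ℂ) (v : Fin n → X) (h : X) :
    b.curryLeft.flipMultilinear v h = b.curryLeft h v := by
  rfl

/-- `‖redL X n b y‖ ≤ ‖b‖ ‖y‖`. -/
theorem norm_redL_le {n : ℕ} (b : X [×(n + 1)]→L[ℂ] ℂ) (y : Bid X) : ‖redL X n b y‖ ≤ ‖b‖ * ‖y‖ := by
  refine ContinuousMultilinearMap.opNorm_le_bound (by positivity) fun v => ?_
  rw [redL_apply]
  refine (y.le_opNorm _).trans ?_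
  have h1 : ‖b.curryLeft.flipMultilinear v‖ ≤ ‖b‖ * ∏ i, ‖v i‖ := by
    refine ContinuousLinearMap.opNorm_le_bound _ (by positivity) fun h => ?_
    rw [flip_apply]
    have h2 := (b.curryLeft h).le_opNorm v
    have h3 := b.curryLeft.le_opNorm h
    have h4 : ‖b.curryLeft‖ = ‖b‖ := ContinuousMultilinearMap.curryLeft_norm b
    rw [h4] at h3
    calc ‖b.curryLeft h v‖ ≤ ‖b.curryLeft h‖ * ∏ i, ‖v i‖ := h2
      _ ≤ (‖b‖ * ‖h‖) * ∏ i, ‖v i‖ := by gcongr
      _ = ‖b‖ * (∏ i, ‖v i‖) * ‖h‖ := by ring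
  calc ‖y‖ * ‖b.curryLeft.flipMultilinear v‖ ≤ ‖y‖ * (‖b‖ * ∏ i, ‖v i‖) := by gcongr
    _ = ‖b‖ * ‖y‖ * ∏ i, ‖v i‖ := by ring

/-- The canonical map into the bidual. -/
theorem redL_J {n : ℕ} (b : X [×(n + 1)]→L[ℂ] ℂ) (x : X) :
    redL X n b (NormedSpace.inclusionInDoubleDual ℂ X x) = b.curryLeft x := by
  ext v
  rw [redL_apply, NormedSpace.dual_def, flip_apply]

/-- Symmetric forms (recursively). -/
def IsSym : (n : ℕ) → (X [×n]→L[ℂ] ℂ) → Prop
  | 0, _ => True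
  | 1, _ => True
  | n + 2, b => (∀ s, IsSym (n + 1) (b.curryLeft s)) ∧
      ∀ s h, (b.curryLeft s).curryLeft h = (b.curryLeft h).curryLeft s

theorem IsSym.curry {n : ℕ} {b : X [×(n + 1)]→L[ℂ] ℂ} (hb : IsSym (n + 1) b) (s : X) :
    IsSym n (b.curryLeft s) := by
  cases n with
  | zero => trivial
  | succ n => exact hb.1 s

/-- `(redL b y) (s, …) = y (h ↦ b (h, s, …)) = y (h ↦ b (s, h, …))`. -/
theorem IsSym.red_curry {n : ℕ} {b : X [×(n + 2)]→L[ℂ] ℂ} (hb : IsSym (n + 2) b) (y : Bid X) (s : X) :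
    (redL X (n + 1) b y).curryLeft s = redL X n (b.curryLeft s) y := by
  ext v
  have h1 : (redL X (n + 1) b y).curryLeft s v = redL X (n + 1) b y (Fin.cons s v) := rfl
  rw [h1, redL_apply, redL_apply]
  congr 1
  ext h
  rw [flip_apply, flip_apply]
  have h2 : b.curryLeft h (Fin.cons s v) = (b.curryLeft h).curryLeft s v := rfl
  rw [h2, ← hb.2 s h]

/-- Induction on `n` with `IsSym.red_curry`. -/
theorem IsSym.red {n : ℕ} {b : X [×(n + 1)]→L[ℂ] ℂ} (hb : IsSym (n + 1) b) (y : Bid X) :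
    IsSym n (redL X n b y) := by
  induction n with
  | zero => trivial
  | succ n ih =>
    cases n with
    | zero => trivial
    | succ n =>
      refine ⟨fun s => ?_, fun s h => ?_⟩
      · rw [IsSym.red_curry hb y s]
        exact ih (hb.curry s)
      · rw [IsSym.red_curry hb y s, IsSym.red_curry hb y h, IsSym.red_curry (hb.curry s) y h,
          IsSym.red_curry (hb.curry h) y s, hb.2 s h]

end Pool.Agent.Lib.MP_a7c449_an.Range
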