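import Pool.Agent.Lib.MP_a7c449_an.Range.Basic

/-! The index of a space and of its summands: lower bound. -/

set_option autoImplicit false
set_option maxSynthPendingDepth 3

namespace Pool.Agent.Lib.MP_a7c449_an.Range

variable {Y G : Type*} [NormedAddCommGroup Y] [NormedSpace ℂ Y] [NormedAddCommGroup G] [NormedSpace ℂ G] {k : ℕ}

/-- Step 1 (maximum modulus). Let `g₀ = pr x`, `g₀ = ρ u` with `‖u‖ = 1`, `0 ≤ ρ ≤ 1` (`u` arbitrary if `g₀ = 0`),
`y₀ = x - inj g₀`, and let `h` be a functional of norm one with `h (pr (A x …)) = ‖pr (A x …)‖`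
(`exists_dual_vector''`). The function `w ↦ h (pr (A fun _ => y₀ + w • inj u))` is differentiable, so it is at least as
large (in modulus) at some `w` with `‖w‖ = 1` as at `w = ρ` (`Complex.exists_mem_frontier_isMaxOn_norm` on the unit
ball). Take `x' = y₀ + w • inj u = x - inj (pr x) + inj (w • u)` (`swap`). -/
theorem Summand.step (S : Summand Y G) [Nontrivial G] (A : Y [×k]→L[ℂ] Y) (x : Y) (hx : ‖x‖ ≤ 1) :
    ∃ x' : Y, ‖x'‖ ≤ 1 ∧ ‖S.pr x'‖ = 1 ∧ ‖S.pr (A fun _ => x)‖ ≤ ‖S.pr (A fun _ => x')‖ := by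
  obtain ⟨u, hu1, ρ, hρ0, hρ1, hρ⟩ : ∃ u : G, ‖u‖ = 1 ∧ ∃ ρ : ℝ, 0 ≤ ρ ∧ ρ ≤ 1 ∧ S.pr x = (ρ : ℂ) • u := by
    by_cases h0 : S.pr x = 0
    · obtain ⟨u, hu⟩ := exists_norm_eq G (zero_le_one (α := ℝ))
      exact ⟨u, hu, 0, le_rfl, zero_le_one, by simp [h0]⟩
    · have h1 : ‖S.pr x‖ ≠ 0 := norm_ne_zero_iff.2 h0
      refine ⟨((‖S.pr x‖ : ℝ) : ℂ)⁻¹ • S.pr x, ?_, ‖S.pr x‖, norm_nonneg _, (S.pr_le x).trans hx, ?_⟩
      · rw [norm_smul, norm_inv, Complex.norm_real, norm_norm, inv_mul_cancel₀ h1]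
      · rw [smul_smul, mul_inv_cancel₀ (by exact_mod_cast h1), one_smul]
  obtain ⟨h, hh1, hh2⟩ := exists_dual_vector'' ℂ (S.pr (A fun _ => x))
  set y₀ : Y := x - S.inj (S.pr x) with hy₀
  set F : ℂ → ℂ := fun w => h (S.pr (A fun _ => y₀ + w • S.inj u)) with hF
  have hdiff : Differentiable ℂ F := by
    have h1 : Differentiable ℂ (fun w : ℂ => (fun _ : Fin k => y₀ + w • S.inj u)) := by
      rw [differentiable_pi]
      intro i
      exact (differentiable_const _).add (differentiable_id.smul_const _)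
    have h2 : Differentiable ℂ (fun v : Fin k → Y => A v) := fun v =>
      (A.hasFDerivAt v).differentiableAt
    exact (h.differentiable.comp (S.pr.differentiable.comp (h2.comp h1)))
  obtain ⟨w, hw, hmax⟩ := Complex.exists_mem_frontier_isMaxOn_norm (U := Metric.ball (0 : ℂ) 1)
    Metric.isBounded_ball ⟨0, Metric.mem_ball_self one_pos⟩ (hdiff.diffContOnCl)
  rw [frontier_ball (0 : ℂ) one_ne_zero, mem_sphere_zero_iff_norm] at hw
  rw [closure_ball (0 : ℂ) one_ne_zero] at hmax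
  have hx' : y₀ + (ρ : ℂ) • S.inj u = x := by
    rw [hy₀, hρ, map_smul]
    abel
  have hρm : (ρ : ℂ) ∈ Metric.closedBall (0 : ℂ) 1 := by
    rw [mem_closedBall_zero_iff, Complex.norm_real, Real.norm_of_nonneg hρ0]
    exact hρ1
  have hle : ‖F ρ‖ ≤ ‖F w‖ := hmax hρm
  have hFρ : ‖F ρ‖ = ‖S.pr (A fun _ => x)‖ := by
    simp only [hF]
    rw [hx', hh2]
    simp
  have hsw : y₀ + w • S.inj u = x - S.inj (S.pr x) + S.inj (w • u) := by
    rw [map_smul]
  refine ⟨y₀ + w • S.inj u, ?_, ?_, ?_⟩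
  · rw [hsw]
    refine S.swap x _ 1 hx ?_
    rw [norm_smul, hw, hu1, mul_one]
  · rw [hsw, map_add, map_sub, S.pr_inj, S.pr_inj, sub_self, zero_add, norm_smul, hw, hu1, mul_one]
  · rw [← hFρ]
    refine hle.trans ?_
    calc ‖F w‖ ≤ ‖h‖ * ‖S.pr (A fun _ => y₀ + w • S.inj u)‖ := h.le_opNorm _
      _ ≤ 1 * ‖S.pr (A fun _ => y₀ + w • S.inj u)‖ := by gcongr
      _ = _ := one_mul _

/-- Take `x'` from `Summand.step`, `g₁ = pr x'`, `y₀ = x' - inj g₁`, a functional `g₁*` with `‖g₁*‖ = 1`,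
`g₁* g₁ = 1`, the operator `L g = g₁* g • y₀ + inj g` and `B = pr ∘ A ∘ (L, …, L)`
(`(S.pr.compContinuousMultilinearMap A).compContinuousLinearMap (fun _ => L)`). Then
`polyNorm B ≥ ‖B g₁ …‖ = ‖pr (A x' …)‖`. By `numIndex_mul_le` and `exists_state` there are states `(g, g*)` of `G` with
`‖g* (B g …)‖` as close to `numIndex G * polyNorm B` as we like. For such a state put `y = L g`,
`f = g* ∘ pr`: `pr y = g`, `‖y‖ = 1` (`swap` applied to `g₁* g • x'`) and `f y = 1`, so `(y, f)` is a state of `Y` and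
`f (A y …) = g* (B g …)`. -/
theorem Summand.loc (S : Summand Y G) [Nontrivial G] (A : Y [×k]→L[ℂ] Y) (x : Y) (hx : ‖x‖ ≤ 1) :
    numIndex ℂ G k * ‖S.pr (A fun _ => x)‖ ≤ numRadius ℂ Y A := by
  obtain ⟨x', hx', hp', hle⟩ := S.step A x hx
  obtain ⟨g₁', hg1, hg2⟩ := exists_dual_vector ℂ (S.pr x') (by
    rw [hp']; exact one_ne_zero)
  rw [hp'] at hg2
  set y₀ : Y := x' - S.inj (S.pr x') with hy₀
  set L : G →L[ℂ] Y := g₁'.smulRight y₀ + S.inj with hL
  have hLapp : ∀ g, L g = g₁' g • y₀ + S.inj g := fun g => by simp [hL]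
  set B : G [×k]→L[ℂ] G := (S.pr.compContinuousMultilinearMap A).compContinuousLinearMap (fun _ => L) with hB
  have hBapp : ∀ g, (B fun _ => g) = S.pr (A fun _ => L g) := fun g => by
    simp [hB]
  have hLx : L (S.pr x') = x' := by
    rw [hLapp, hg2, hy₀]
    simp
  have hBn : ‖S.pr (A fun _ => x)‖ ≤ polyNorm ℂ G B := by
    refine hle.trans ?_
    have := le_polyNorm B (x := S.pr x') hp'.le
    rwa [hBapp, hLx] at this
  have hkey : numRadius ℂ G B ≤ numRadius ℂ Y A := by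
    refine numRadius_le B (numRadius_nonneg A) ?_
    intro g f hg hf hfg
    have hprL : S.pr (L g) = g := by
      rw [hLapp, hy₀, map_add, map_smul, map_sub, S.pr_inj, S.pr_inj, sub_self, smul_zero, zero_add]
    have hnL : ‖L g‖ ≤ 1 := by
      have h1 : L g = g₁' g • x' - S.inj (S.pr (g₁' g • x')) + S.inj g := by
        rw [hLapp, hy₀, smul_sub, map_smul, map_smul]
      rw [h1]
      refine S.swap _ g 1 ?_ hg.le
      rw [norm_smul]
      have h2 : ‖g₁' g‖ ≤ 1 := by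
        calc ‖g₁' g‖ ≤ ‖g₁'‖ * ‖g‖ := g₁'.le_opNorm g
          _ = 1 := by rw [hg1, hg, mul_one]
      calc ‖g₁' g‖ * ‖x'‖ ≤ 1 * 1 := by gcongr
        _ = 1 := mul_one 1
    have hnL' : ‖L g‖ = 1 := by
      refine le_antisymm hnL ?_
      rw [← hg]
      conv_lhs => rw [← hprL]
      exact S.pr_le _
    have hfn : ‖f.comp S.pr‖ = 1 := by
      refine le_antisymm ?_ ?_
      · refine ContinuousLinearMap.opNorm_le_bound _ zero_le_one fun y => ?_
        calc ‖f (S.pr y)‖ ≤ ‖f‖ * ‖S.pr y‖ := f.le_opNorm _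
          _ ≤ 1 * ‖y‖ := by rw [hf]; gcongr; exact S.pr_le y
      · have h3 := (f.comp S.pr).le_opNorm (L g)
        rw [hnL', mul_one, ContinuousLinearMap.comp_apply, hprL, hfg, norm_one] at h3
        exact h3
    have h4 := le_numRadius A hnL' hfn (by rw [ContinuousLinearMap.comp_apply, hprL, hfg])
    rw [ContinuousLinearMap.comp_apply] at h4
    rw [hBapp]
    exact h4
  calc numIndex ℂ G k * ‖S.pr (A fun _ => x)‖ ≤ numIndex ℂ G k * polyNorm ℂ G B := by
        gcongr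
        exact numIndex_nonneg
    _ ≤ numRadius ℂ G B := numIndex_mul_le B
    _ ≤ numRadius ℂ Y A := hkey

end Pool.Agent.Lib.MP_a7c449_an.Range
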