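import Pool.Agent.Lib.MP_a7c449_an.Range.Defs

/-! The space `X_F`: the norm. -/

set_option autoImplicit false
set_option maxSynthPendingDepth 3

namespace Pool.Agent.Lib.MP_a7c449_an.Range

open scoped ZeroAtInfty

/-- Norming sequences of functionals. -/
structure Om (F : Type*) [NormedAddCommGroup F] [NormedSpace ℂ F] where
  /-- the functionals -/
  ω : ℕ → StrongDual ℂ F
  h1 : ∀ n, ‖ω n‖ ≤ 1
  h2 : ∀ (f : F) (ε : ℝ), 0 < ε → ∀ N : ℕ, ∃ n, N ≤ n ∧ ‖f‖ - ε < ‖ω n f‖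

variable {F : Type*} [NormedAddCommGroup F] [NormedSpace ℂ F]

/-- The norm `sup_n |z_n + ω_n f|`. -/
noncomputable def nX (O : Om F) (x : C₀(ℕ, ℂ) × F) : ℝ := ⨆ n, ‖x.1 n + O.ω n x.2‖

private theorem XFDef_bd (O : Om F) (x : C₀(ℕ, ℂ) × F) (n : ℕ) : ‖x.1 n + O.ω n x.2‖ ≤ ‖x.1‖ + ‖x.2‖ := by
  have h1 : ‖x.1 n‖ ≤ ‖x.1‖ := BoundedContinuousFunction.norm_coe_le_norm x.1.toBCF n
  have h2 : ‖O.ω n x.2‖ ≤ ‖x.2‖ := by
    refine (O.ω n).le_of_opNorm_le (O.h1 n) x.2 |>.trans ?_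
    rw [one_mul]
  exact (norm_add_le _ _).trans (add_le_add h1 h2)

/-- The set is bounded by `‖x.1‖ + ‖x.2‖`. -/
theorem le_nX (O : Om F) (x : C₀(ℕ, ℂ) × F) (n : ℕ) : ‖x.1 n + O.ω n x.2‖ ≤ nX O x := by
  have hb : BddAbove (Set.range fun n => ‖x.1 n + O.ω n x.2‖) := by
    refine ⟨‖x.1‖ + ‖x.2‖, ?_⟩
    rintro _ ⟨n, rfl⟩
    exact XFDef_bd O x n
  exact le_ciSup hb n

theorem nX_le (O : Om F) (x : C₀(ℕ, ℂ) × F) {M : ℝ} (h : ∀ n, ‖x.1 n + O.ω n x.2‖ ≤ M) : nX O x ≤ M := by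
  exact ciSup_le h

theorem nX_le_add (O : Om F) (x : C₀(ℕ, ℂ) × F) : nX O x ≤ ‖x.1‖ + ‖x.2‖ := by
  exact nX_le O x (XFDef_bd O x)

/-- `x.1 n → 0` and `O.h2`. -/
theorem snd_le_nX (O : Om F) (x : C₀(ℕ, ℂ) × F) : ‖x.2‖ ≤ nX O x := by
  refine le_of_forall_pos_le_add fun ε hε => ?_
  have ht : Filter.Tendsto (fun n => x.1 n) Filter.atTop (nhds 0) := by
    have := x.1.zero_at_infty'
    rwa [Filter.cocompact_eq_cofinite, Nat.cofinite_eq_atTop] at this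
  have h1 : ∀ᶠ n in Filter.atTop, ‖x.1 n‖ < ε / 2 := by
    have h2 : Filter.Tendsto (fun n => ‖x.1 n‖) Filter.atTop (nhds 0) := by
      simpa using ht.norm
    exact h2.eventually (gt_mem_nhds (half_pos hε))
  obtain ⟨N, hN⟩ := Filter.eventually_atTop.1 h1
  obtain ⟨n, hn, h3⟩ := O.h2 x.2 (ε / 2) (half_pos hε) N
  have h4 := hN n hn
  have h5 := le_nX O x n
  have h6 : ‖O.ω n x.2‖ ≤ ‖x.1 n + O.ω n x.2‖ + ‖x.1 n‖ := by
    have e : O.ω n x.2 = (x.1 n + O.ω n x.2) - x.1 n := by ring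
    calc ‖O.ω n x.2‖ = ‖(x.1 n + O.ω n x.2) - x.1 n‖ := by rw [← e]
      _ ≤ _ := norm_sub_le _ _
  linarith

/-- `‖x.1 n‖ ≤ ‖x.1 n + ω n x.2‖ + ‖x.2‖`. -/
theorem fst_le_nX (O : Om F) (x : C₀(ℕ, ℂ) × F) : ‖x.1‖ ≤ 2 * nX O x := by
  have h0 : 0 ≤ nX O x := (norm_nonneg _).trans (le_nX O x 0)
  have hx : ‖x.1‖ = ‖x.1.toBCF‖ := rfl
  rw [hx]
  refine (BoundedContinuousFunction.norm_le (by linarith)).2 fun n => ?_
  have h1 := le_nX O x n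
  have h2 : ‖O.ω n x.2‖ ≤ ‖x.2‖ := by
    refine (O.ω n).le_of_opNorm_le (O.h1 n) x.2 |>.trans ?_
    rw [one_mul]
  have h3 := snd_le_nX O x
  have h4 : ‖x.1 n‖ ≤ ‖x.1 n + O.ω n x.2‖ + ‖O.ω n x.2‖ := by
    have e : x.1 n = (x.1 n + O.ω n x.2) - O.ω n x.2 := by ring
    calc ‖x.1 n‖ = ‖(x.1 n + O.ω n x.2) - O.ω n x.2‖ := by rw [← e]
      _ ≤ _ := norm_sub_le _ _
  have h5 : ‖x.1.toBCF n‖ = ‖x.1 n‖ := rfl
  rw [h5]
  linarith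

theorem nX_add (O : Om F) (x y : C₀(ℕ, ℂ) × F) : nX O (x + y) ≤ nX O x + nX O y := by
  refine nX_le O _ fun n => ?_
  have e : (x + y).1 n + O.ω n (x + y).2 = (x.1 n + O.ω n x.2) + (y.1 n + O.ω n y.2) := by
    rw [Prod.fst_add, Prod.snd_add, map_add, ZeroAtInftyContinuousMap.add_apply]
    ring
  rw [e]
  refine (norm_add_le _ _).trans (add_le_add (le_nX O x n) (le_nX O y n))

theorem nX_smul (O : Om F) (c : ℂ) (x : C₀(ℕ, ℂ) × F) : nX O (c • x) = ‖c‖ * nX O x := by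
  unfold nX
  rw [Real.mul_iSup_of_nonneg (norm_nonneg c)]
  congr 1
  funext n
  have e : (c • x).1 n + O.ω n (c • x).2 = c * (x.1 n + O.ω n x.2) := by
    rw [Prod.smul_fst, Prod.smul_snd, map_smul, ZeroAtInftyContinuousMap.smul_apply, smul_eq_mul, smul_eq_mul]
    ring
  rw [e, norm_mul]

end Pool.Agent.Lib.MP_a7c449_an.Range
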